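import Mathlib

/-!
# The q-expansion of the discriminant: integrality, product formula, reduction mod 2
-/

namespace SixReg

section Taylor

open PowerSeries Filter Topology

/-- Taylor series at `0` -/
noncomputable def taylorPS (f : ℂ → ℂ) : PowerSeries ℂ :=
  PowerSeries.mk fun m => ((m.factorial : ℂ))⁻¹ * iteratedDeriv m f 0

lemma taylorPS_mul {f g : ℂ → ℂ} (hf : AnalyticAt ℂ f 0) (hg : AnalyticAt ℂ g 0) :
    taylorPS (f * g) = taylorPS f * taylorPS g := by
  ext n
  simp only [taylorPS, coeff_mk,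
    iteratedDeriv_mul hf.contDiffAt hg.contDiffAt, Finset.mul_sum, PowerSeries.coeff_mul,
    Finset.Nat.sum_antidiagonal_eq_sum_range_succ_mk, Nat.succ_eq_add_one]
  refine Finset.sum_congr rfl fun i hi ↦ ?_
  rw [Nat.cast_choose _ (by grind)]
  field_simp [Nat.factorial_ne_zero]

lemma taylorPS_congr {f g : ℂ → ℂ} (h : f =ᶠ[𝓝 0] g) : taylorPS f = taylorPS g := by
  ext n
  simp only [taylorPS, coeff_mk]
  rw [h.iteratedDeriv_eq]

lemma taylorPS_one : taylorPS 1 = 1 := by
  ext m
  simp only [taylorPS, coeff_mk, coeff_one]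
  have h2 : iteratedDeriv m (1 : ℂ → ℂ) 0 = if m = 0 then 1 else 0 := by
    simpa [ite_apply] using! iteratedDeriv_const
  simp +contextual [h2]

lemma taylorPS_pow {f : ℂ → ℂ} (hf : AnalyticAt ℂ f 0) (n : ℕ) :
    taylorPS (f ^ n) = taylorPS f ^ n := by
  induction n with
  | zero => rw [pow_zero, pow_zero, taylorPS_one]
  | succ n ih => rw [pow_succ, pow_succ, taylorPS_mul (hf.pow n) hf, ih]

lemma taylorPS_sub {f g : ℂ → ℂ} (hf : AnalyticAt ℂ f 0) (hg : AnalyticAt ℂ g 0) :
    taylorPS (f - g) = taylorPS f - taylorPS g := by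
  ext n
  simp only [taylorPS, coeff_mk, map_sub, iteratedDeriv_sub hf.contDiffAt hg.contDiffAt]
  ring

lemma taylorPS_id : taylorPS id = X := by
  ext m
  simp only [taylorPS, coeff_mk, coeff_X]
  rcases m with _ | _ | m
  · simp
  · simp
  · rw [iteratedDeriv_succ', deriv_id', iteratedDeriv_const]
    simp

lemma analytic_fac (i : ℕ) : AnalyticAt ℂ (1 - (id : ℂ → ℂ) ^ (i + 1)) 0 :=
  analyticAt_const.sub (analyticAt_id.pow _)

lemma taylorPS_fac (i : ℕ) : taylorPS (1 - (id : ℂ → ℂ) ^ (i + 1)) = 1 - X ^ (i + 1) := by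
  have h1 : AnalyticAt ℂ (1 : ℂ → ℂ) 0 := analyticAt_const
  rw [taylorPS_sub h1 (analyticAt_id.pow _), taylorPS_one,
    taylorPS_pow analyticAt_id, taylorPS_id]

lemma taylorPS_prod (s : Finset ℕ) :
    AnalyticAt ℂ (∏ i ∈ s, (1 - (id : ℂ → ℂ) ^ (i + 1))) 0 ∧
    taylorPS (∏ i ∈ s, (1 - (id : ℂ → ℂ) ^ (i + 1))) = ∏ i ∈ s, (1 - X ^ (i + 1)) := by
  classical
  induction s using Finset.induction_on with
  | empty => exact ⟨analyticAt_const, by simpa using taylorPS_one⟩
  | insert a s ha ih =>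
    rw [Finset.prod_insert ha, Finset.prod_insert ha]
    refine ⟨(analytic_fac a).mul ih.1, ?_⟩
    rw [taylorPS_mul (analytic_fac a) ih.1, ih.2, taylorPS_fac]

/-- the product function -/
noncomputable def phiC (q : ℂ) : ℂ := ∏' n : ℕ, (1 - q ^ (n + 1))

lemma tendsto_iter (n : ℕ) : TendstoLocallyUniformlyOn
    (fun (s : Finset ℕ) => iteratedDeriv n (∏ i ∈ s, (1 - (id : ℂ → ℂ) ^ (i + 1))))
    (iteratedDeriv n phiC) atTop (Metric.ball (0 : ℂ) 1) := by
  have hdiff : ∀ s : Finset ℕ, ContDiff ℂ ⊤ (∏ i ∈ s, (1 - (id : ℂ → ℂ) ^ (i + 1))) := by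
    intro s
    apply contDiff_prod'
    intro i _
    exact contDiff_const.sub (contDiff_id.pow _)
  induction n with
  | zero =>
    have h := ModularForm.multipliableLocallyUniformlyOn_one_sub_pow.hasProdLocallyUniformlyOn
    simp only [iteratedDeriv_zero]
    have h2 := h
    rw [hasProdLocallyUniformlyOn_iff_tendstoLocallyUniformlyOn] at h2
    convert! h2 using 1
    ext s z
    simp
  | succ n ih =>
    have := ih.deriv (Filter.Eventually.of_forall fun s => ?_) Metric.isOpen_ball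
    · simpa only [iteratedDeriv_succ, Function.comp_def] using! this
    · apply Differentiable.differentiableOn
      exact (hdiff s).differentiable_iteratedDeriv n (WithTop.coe_lt_top (n : ℕ∞))

lemma taylorPS_phi : taylorPS phiC = pentagonalSeries ℂ := by
  ext n
  have h1 : Tendsto (fun s : Finset ℕ =>
      iteratedDeriv n (∏ i ∈ s, (1 - (id : ℂ → ℂ) ^ (i + 1))) 0) atTop
      (𝓝 (iteratedDeriv n phiC 0)) :=
    (tendsto_iter n).tendsto_at (Metric.mem_ball_self one_pos)
  have h2 : Tendsto (fun s : Finset ℕ => ((n.factorial : ℂ))⁻¹ *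
      iteratedDeriv n (∏ i ∈ s, (1 - (id : ℂ → ℂ) ^ (i + 1))) 0) atTop
      (𝓝 (((n.factorial : ℂ))⁻¹ * iteratedDeriv n phiC 0)) := h1.const_mul _
  have h3 : ∀ᶠ s in (atTop : Filter (Finset ℕ)), ((n.factorial : ℂ))⁻¹ *
      iteratedDeriv n (∏ i ∈ s, (1 - (id : ℂ → ℂ) ^ (i + 1))) 0
      = (pentagonalSeries ℂ).coeff n := by
    filter_upwards [coeff_prod_one_sub_X_pow_eventually_eq ℂ n] with s hs
    rw [← hs, ← (taylorPS_prod s).2]
    simp only [taylorPS, coeff_mk]
  have h4 := h2.congr' h3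
  have h5 := tendsto_nhds_unique h4 tendsto_const_nhds
  simp only [taylorPS, coeff_mk]
  exact h5

lemma analyticAt_phi : AnalyticAt ℂ phiC 0 :=
  DifferentiableOn.analyticAt ModularForm.differentiableOn_tprod_one_sub_pow
    (Metric.ball_mem_nhds 0 one_pos)

/-- `X * ∏ (1 - X^n)^24` as an integer power series (via the pentagonal number series). -/
noncomputable def DeltaZ : PowerSeries ℤ := X * (PowerSeries.pentagonalSeries ℤ) ^ 24

lemma map_pentagonal : PowerSeries.map (Int.castRingHom ℂ) (pentagonalSeries ℤ)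
    = pentagonalSeries ℂ := by
  ext n
  rw [coeff_map]
  by_cases h : n ∈ Set.range pentagonal
  · obtain ⟨k, rfl⟩ := h
    rw [coeff_pentagonalSeries_pentagonal, coeff_pentagonalSeries_pentagonal]
    simp
  · rw [coeff_pentagonalSeries_eq_zero _ h, coeff_pentagonalSeries_eq_zero _ h]
    simp

theorem qExpansion_discriminant :
    UpperHalfPlane.qExpansion 1 ModularForm.discriminant
      = PowerSeries.map (Int.castRingHom ℂ) DeltaZ := by
  have h1 : UpperHalfPlane.qExpansion 1 ModularForm.discriminant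
      = taylorPS (UpperHalfPlane.cuspFunction 1 ModularForm.discriminant) := rfl
  have h2 : UpperHalfPlane.cuspFunction 1 ModularForm.discriminant =ᶠ[𝓝 0]
      (id * phiC ^ 24) := by
    filter_upwards [Metric.ball_mem_nhds (0 : ℂ) one_pos] with q hq
    rw [ModularForm.discriminant_cuspFunction_eqOn hq]
    have hq' : ‖q‖ < 1 := by simpa using hq
    simp only [Pi.mul_apply, Pi.pow_apply, id]
    rw [(ModularForm.multipliable_one_sub_pow hq').tprod_pow]
    rfl
  rw [h1, taylorPS_congr h2, taylorPS_mul analyticAt_id (analyticAt_phi.pow _),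
    taylorPS_pow analyticAt_phi, taylorPS_id, taylorPS_phi, DeltaZ, map_mul, map_pow,
    map_pentagonal, PowerSeries.map_X]

end Taylor

section Eisenstein

open PowerSeries Filter Topology MatrixGroups ModularForm EisensteinSeries ArithmeticFunction
open scoped ArithmeticFunction.sigma

lemma graded1728 :
    UpperHalfPlane.qExpansion 1 E₄ ^ 3 - UpperHalfPlane.qExpansion 1 E₆ ^ 2
      = (1728 : PowerSeries ℂ) * UpperHalfPlane.qExpansion 1 ModularForm.discriminant := by
  have h := ModularForm.discriminant_eq_E₄_cube_sub_E₆_sq_graded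
  have h2 : (1728 : ℕ) • DirectSum.of (ModularForm 𝒮ℒ) 12 CuspForm.discriminant =
      (.of (ModularForm 𝒮ℒ) 4 E₄ ^ 3 - .of (ModularForm 𝒮ℒ) 6 E₆ ^ 2) := by
    rw [h, ← Nat.cast_smul_eq_nsmul ℂ, smul_smul]
    norm_num
  have h3 := congrArg (ModularForm.qExpansionRingHom 1 one_pos one_mem_strictPeriods_SL) h2
  rw [map_nsmul, map_sub, map_pow, map_pow] at h3
  simp only [ModularForm.qExpansionRingHom_apply] at h3
  rw [← h3, nsmul_eq_mul]
  norm_num

/-- `∑ σ₃(n) X^n` -/
noncomputable def serA : PowerSeries ℤ := PowerSeries.mk fun n => (σ 3 n : ℤ)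

/-- `∑ σ₅(n) X^n` -/
noncomputable def serB : PowerSeries ℤ := PowerSeries.mk fun n => (σ 5 n : ℤ)

/-- `∑ (∑_{d ∣ n} (5d³+7d⁵)/12) X^n` -/
noncomputable def serC : PowerSeries ℤ :=
  PowerSeries.mk fun n => ∑ d ∈ n.divisors, (5 * (d : ℤ) ^ 3 + 7 * (d : ℤ) ^ 5) / 12

lemma q4 : UpperHalfPlane.qExpansion 1 E₄
    = PowerSeries.map (Int.castRingHom ℂ) (1 + 240 * serA) := by
  ext n
  rw [E_qExpansion_coeff _ ⟨2, rfl⟩, coeff_map, map_add, coeff_one]
  rw [show (240 : PowerSeries ℤ) = C (240 : ℤ) by simp, coeff_C_mul, serA, coeff_mk]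
  rw [show bernoulli 4 = -1 / 30 by
    rw [bernoulli_eq_bernoulli'_of_ne_one (by norm_num), bernoulli'_four]]
  split_ifs with h
  · subst h; simp
  · push_cast
    norm_num

lemma q6 : UpperHalfPlane.qExpansion 1 E₆
    = PowerSeries.map (Int.castRingHom ℂ) (1 - 504 * serB) := by
  ext n
  rw [E_qExpansion_coeff _ ⟨3, rfl⟩, coeff_map, map_sub, coeff_one]
  rw [show (504 : PowerSeries ℤ) = C (504 : ℤ) by simp, coeff_C_mul, serB, coeff_mk]
  rw [show bernoulli 6 = 1 / 42 by decide +kernel]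
  split_ifs with h
  · subst h; simp
  · push_cast
    norm_num

lemma dvd12 (d : ℤ) : 12 * ((5 * d ^ 3 + 7 * d ^ 5) / 12) = 5 * d ^ 3 + 7 * d ^ 5 := by
  apply Int.mul_ediv_cancel'
  have h : ∀ z : ZMod 12, 5 * z ^ 3 + 7 * z ^ 5 = 0 := by decide
  have h2 := (ZMod.intCast_zmod_eq_zero_iff_dvd (5 * d ^ 3 + 7 * d ^ 5) 12).mp (by
    push_cast
    exact h d)
  exact_mod_cast h2

lemma twelveC : 12 * serC = 5 * serA + 7 * serB := by
  ext n
  rw [show (12 : PowerSeries ℤ) = C (12 : ℤ) by simp, show (5 : PowerSeries ℤ) = C (5 : ℤ) by simp,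
    show (7 : PowerSeries ℤ) = C (7 : ℤ) by simp, map_add, coeff_C_mul, coeff_C_mul, coeff_C_mul,
    serA, serB, serC, coeff_mk, coeff_mk, coeff_mk, sigma_apply, sigma_apply]
  push_cast
  rw [Finset.mul_sum, Finset.mul_sum, Finset.mul_sum, ← Finset.sum_add_distrib]
  exact Finset.sum_congr rfl fun d _ => dvd12 _

lemma DeltaZ_eq : DeltaZ = serC + 100 * serA ^ 2 + 8000 * serA ^ 3 - 147 * serB ^ 2 := by
  have h1 : (1 + 240 * serA) ^ 3 - (1 - 504 * serB) ^ 2 = 1728 * DeltaZ := by
    apply PowerSeries.map_injective (Int.castRingHom ℂ) Int.cast_injective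
    have h := graded1728
    rw [q4, q6, qExpansion_discriminant] at h
    rw [map_sub, map_pow, map_pow, h, map_mul]
    rw [map_ofNat]
  have h2 : (1728 : PowerSeries ℤ) ≠ 0 := by
    intro h
    have := congrArg constantCoeff h
    rw [map_ofNat, _root_.map_zero] at this
    norm_num at this
  apply mul_left_cancel₀ h2
  rw [← h1]
  have := twelveC
  linear_combination (-144 : PowerSeries ℤ) * this

lemma coeff_sq_zmod2 (f : PowerSeries (ZMod 2)) (n : ℕ) :
    coeff n (f ^ 2) = if 2 ∣ n then coeff (n / 2) f else 0 := by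
  have h := @MvPowerSeries.map_frobenius_expand Unit (ZMod 2) _ 2 two_ne_zero _ f
  have h2 : f ^ 2 = PowerSeries.expand 2 two_ne_zero f := by
    rw [ZMod.frobenius_zmod] at h
    rw [MvPowerSeries.map_id] at h
    exact h.symm
  rw [h2, coeff_expand]

/-- parity of the number of odd divisors -/
noncomputable def od (n : ℕ) : ZMod 2 := ∑ d ∈ n.divisors, if Odd d then 1 else 0

lemma cast_pow_zmod2 (d : ℕ) : ((d : ZMod 2)) ^ 5 = if Odd d then 1 else 0 := by
  have h : ∀ z : ZMod 2, z ^ 5 = z := by decide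
  rw [h]
  split_ifs with hd
  · exact ZMod.natCast_eq_one_iff_odd.mpr hd
  · exact ZMod.natCast_eq_zero_iff_even.mpr (Nat.not_odd_iff_even.mp hd)

lemma coeff_B (n : ℕ) : ((coeff n serB : ℤ) : ZMod 2) = od n := by
  rw [serB, coeff_mk, sigma_apply, od]
  push_cast
  exact Finset.sum_congr rfl fun d _ => cast_pow_zmod2 d

lemma term_C (d : ℕ) : (((5 * (d : ℤ) ^ 3 + 7 * (d : ℤ) ^ 5) / 12 : ℤ) : ZMod 2)
    = if Odd d then 1 else 0 := by
  obtain ⟨t, ht⟩ : ∃ t, t = (5 * (d : ℤ) ^ 3 + 7 * (d : ℤ) ^ 5) / 12 := ⟨_, rfl⟩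
  have h12 := dvd12 (d : ℤ)
  rw [← ht] at h12 ⊢
  split_ifs with hd
  · obtain ⟨k, hk⟩ := hd
    obtain ⟨j, hj⟩ := Int.even_mul_succ_self (k : ℤ)
    have hk' : (d : ℤ) = 2 * k + 1 := by exact_mod_cast hk
    have h3 : 3 * t = (2 * k + 1) ^ 3 * (3 + 14 * j) := by
      rw [hk'] at h12
      have : 4 * (3 * t) = 4 * ((2 * k + 1) ^ 3 * (3 + 14 * j)) := by
        linear_combination h12 + 28 * (2 * (k : ℤ) + 1) ^ 3 * hj
      linarith
    have hodd : Odd (3 * t) := by
      rw [h3]
      apply Odd.mul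
      · exact Odd.pow ⟨k, rfl⟩
      · exact ⟨1 + 7 * j, by ring⟩
    have ht2 : Odd t := by
      rcases Int.even_or_odd t with h | h
      · exact absurd (h.mul_left 3) (Int.not_even_iff_odd.mpr hodd)
      · exact h
    exact ZMod.intCast_eq_one_iff_odd.mpr ht2
  · rw [Nat.not_odd_iff_even] at hd
    obtain ⟨k, hk⟩ := hd
    have hk' : (d : ℤ) = k + k := by exact_mod_cast hk
    have h3 : 3 * t = 2 * (5 * k ^ 3 + 28 * k ^ 5) := by
      rw [hk'] at h12
      have : 4 * (3 * t) = 4 * (2 * (5 * k ^ 3 + 28 * k ^ 5)) := by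
        linear_combination h12
      linarith
    have ht2 : Even t := by
      have : t = 2 * (5 * k ^ 3 + 28 * k ^ 5 - t) := by linarith
      rw [this]
      exact even_two_mul _
    exact ZMod.intCast_eq_zero_iff_even.mpr ht2

lemma coeff_C' (n : ℕ) : ((coeff n serC : ℤ) : ZMod 2) = od n := by
  rw [serC, coeff_mk, od]
  push_cast
  exact Finset.sum_congr rfl fun d _ => term_C d

lemma od_two_mul (m : ℕ) : od (2 * m) = od m := by
  rcases Nat.eq_zero_or_pos m with rfl | hm
  · simp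
  rw [od, od, ← Finset.sum_filter, ← Finset.sum_filter]
  congr 1
  ext d
  simp only [Finset.mem_filter, Nat.mem_divisors]
  constructor
  · rintro ⟨⟨h1, h2⟩, h3⟩
    exact ⟨⟨(Nat.Coprime.dvd_of_dvd_mul_left (Nat.coprime_two_right.mpr h3) h1), by omega⟩, h3⟩
  · rintro ⟨⟨h1, h2⟩, h3⟩
    exact ⟨⟨h1.mul_left 2, by omega⟩, h3⟩

open Classical in
lemma od_odd {n : ℕ} (hn : Odd n) : od n = if ∃ m : ℕ, Odd m ∧ m ^ 2 = n then 1 else 0 := by
  have hn0 : 0 < n := hn.pos
  have h1 : od n = ∑ d ∈ n.divisors, (1 : ZMod 2) := by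
    rw [od]
    apply Finset.sum_congr rfl
    intro d hd
    rw [if_pos (hn.of_dvd_nat (Nat.dvd_of_mem_divisors hd))]
  rw [h1]
  split_ifs with h
  · obtain ⟨m, hm, rfl⟩ := h
    have hmem : m ∈ (m ^ 2).divisors := by
      rw [Nat.mem_divisors]; exact ⟨dvd_pow_self m two_ne_zero, by positivity⟩
    rw [← Finset.add_sum_erase _ _ hmem]
    have : ∑ d ∈ (m ^ 2).divisors.erase m, (1 : ZMod 2) = 0 := by
      apply Finset.sum_involution (fun d _ => m ^ 2 / d)
      · intro d hd; decide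
      · intro d hd _ h
        rw [Finset.mem_erase, Nat.mem_divisors] at hd
        obtain ⟨h1, ⟨c, hc⟩, h3⟩ := hd
        have hd0 : 0 < d := by
          rcases Nat.eq_zero_or_pos d with rfl | hd0
          · simp at hc; omega
          · exact hd0
        rw [hc, Nat.mul_div_cancel_left _ hd0] at h
        subst h
        apply h1
        nlinarith
      · intro d hd
        rw [Finset.mem_erase, Nat.mem_divisors] at hd
        obtain ⟨h1, h2, h3⟩ := hd
        exact Nat.div_div_self h2 h3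
      · intro d hd
        rw [Finset.mem_erase, Nat.mem_divisors] at hd ⊢
        obtain ⟨h1, h2, h3⟩ := hd
        refine ⟨?_, Nat.div_dvd_of_dvd h2, h3⟩
        intro h
        apply h1
        obtain ⟨c, hc⟩ := h2
        have hd0 : 0 < d := by
          rcases Nat.eq_zero_or_pos d with rfl | hd0
          · simp at hc; omega
          · exact hd0
        rw [hc, Nat.mul_div_cancel_left _ hd0] at h
        subst h
        nlinarith [hm.pos]
    rw [this]
    simp
  · apply Finset.sum_involution (fun d _ => n / d)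
    · intro d hd; decide
    · intro d hd _ h'
      apply h
      rw [Nat.mem_divisors] at hd
      obtain ⟨⟨c, hc⟩, h3⟩ := hd
      have hd0 : 0 < d := by
        rcases Nat.eq_zero_or_pos d with rfl | hd0
        · simp at hc; omega
        · exact hd0
      rw [hc, Nat.mul_div_cancel_left _ hd0] at h'
      subst h'
      refine ⟨c, ?_, by rw [hc]; ring⟩
      rw [hc] at hn
      exact Nat.Odd.of_mul_left hn
    · intro d hd
      rw [Nat.mem_divisors] at hd ⊢
      exact ⟨Nat.div_dvd_of_dvd hd.1, hd.2⟩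
    · intro d hd
      rw [Nat.mem_divisors] at hd
      obtain ⟨h2, h3⟩ := hd
      exact Nat.div_div_self h2 h3

open Classical in
theorem DeltaZ_mod_two (n : ℕ) :
    ((coeff n DeltaZ : ℤ) : ZMod 2) = if ∃ m : ℕ, Odd m ∧ m ^ 2 = n then 1 else 0 := by
  have hmap : PowerSeries.map (Int.castRingHom (ZMod 2)) DeltaZ
      = PowerSeries.map (Int.castRingHom (ZMod 2)) serC
        + (PowerSeries.map (Int.castRingHom (ZMod 2)) serB) ^ 2 := by
    rw [DeltaZ_eq]
    simp only [map_sub, map_add, map_mul, map_pow]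
    have h2 : (2 : PowerSeries (ZMod 2)) = 0 := by
      rw [show (2 : PowerSeries (ZMod 2)) = C (2 : ZMod 2) by rw [map_ofNat]]
      rw [show (2 : ZMod 2) = 0 by decide, _root_.map_zero]
    rw [map_ofNat, map_ofNat, map_ofNat]
    linear_combination (50 * (PowerSeries.map (Int.castRingHom (ZMod 2)) serA) ^ 2
      + 4000 * (PowerSeries.map (Int.castRingHom (ZMod 2)) serA) ^ 3
      - 74 * (PowerSeries.map (Int.castRingHom (ZMod 2)) serB) ^ 2) * h2
  have hc := congrArg (coeff n) hmap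
  rw [coeff_map, map_add, coeff_map, coeff_sq_zmod2] at hc
  simp only [eq_intCast, coeff_map] at hc
  rw [hc, coeff_C', coeff_B]
  split_ifs with h2 h3 h3
  · obtain ⟨m, hm, rfl⟩ := h3
    exfalso
    have := hm.pow (n := 2)
    rw [← Nat.not_even_iff_odd] at this
    exact this (even_iff_two_dvd.mpr h2)
  · obtain ⟨m, rfl⟩ := h2
    rw [Nat.mul_div_cancel_left _ two_pos, od_two_mul]
    exact CharTwo.add_self_eq_zero _
  · rw [od_odd (by rw [← Nat.not_even_iff_odd, even_iff_two_dvd]; exact h2), if_pos h3, add_zero]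
  · rw [od_odd (by rw [← Nat.not_even_iff_odd, even_iff_two_dvd]; exact h2), if_neg h3, add_zero]

end Eisenstein

end SixReg
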