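import Mathlib

/-!
# The ring of functions on the upper half plane with algebraic-integer q-expansion
-/

namespace SixReg

open UpperHalfPlane ModularForm Complex Function PowerSeries
open scoped Manifold MatrixGroups Topology

/-- Periodic, holomorphic, bounded at infinity. -/
structure Nice (N : ℕ) (f : ℍ → ℂ) : Prop where
  per : Periodic (f ∘ ofComplex) (N : ℝ)
  hol : MDiff f
  bdd : IsBoundedAtImInfty f

theorem Nice.analyticAt {N : ℕ} [NeZero N] {f : ℍ → ℂ} (hf : Nice N f) :
    AnalyticAt ℂ (cuspFunction (N : ℝ) f) 0 :=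
  analyticAt_cuspFunction_zero (by exact_mod_cast Nat.pos_of_ne_zero (NeZero.ne N))
    hf.per hf.hol hf.bdd

theorem Nice.one (N : ℕ) : Nice N 1 where
  per := by intro x; simp
  hol := by exact mdifferentiable_const
  bdd := by exact Filter.const_boundedAtFilter _ 1

theorem Nice.zero (N : ℕ) : Nice N 0 where
  per := by intro x; simp
  hol := by exact mdifferentiable_const
  bdd := by exact Filter.const_boundedAtFilter _ 0

theorem Nice.const (N : ℕ) (c : ℂ) : Nice N (fun _ => c) where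
  per := by intro x; simp
  hol := by exact mdifferentiable_const
  bdd := by exact Filter.const_boundedAtFilter _ c

theorem Nice.mul {N : ℕ} {f g : ℍ → ℂ} (hf : Nice N f) (hg : Nice N g) : Nice N (f * g) where
  per := by
    intro x
    have h1 := hf.per x
    have h2 := hg.per x
    simp only [comp_apply, Pi.mul_apply] at *
    rw [h1, h2]
  hol := hf.hol.mul hg.hol
  bdd := by
    have := Filter.BoundedAtFilter.mul hf.bdd hg.bdd
    exact this

theorem Nice.add {N : ℕ} {f g : ℍ → ℂ} (hf : Nice N f) (hg : Nice N g) : Nice N (f + g) where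
  per := by
    intro x
    have h1 := hf.per x
    have h2 := hg.per x
    simp only [comp_apply, Pi.add_apply] at *
    rw [h1, h2]
  hol := hf.hol.add hg.hol
  bdd := Filter.BoundedAtFilter.add hf.bdd hg.bdd

theorem Nice.neg {N : ℕ} {f : ℍ → ℂ} (hf : Nice N f) : Nice N (-f) where
  per := by
    intro x
    have h1 := hf.per x
    simp only [comp_apply, Pi.neg_apply] at *
    rw [h1]
  hol := hf.hol.neg
  bdd := Filter.BoundedAtFilter.neg hf.bdd

/-- The ring of nice functions with algebraic-integer coefficients. -/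
noncomputable def RR (N : ℕ) [NeZero N] : Subring (ℍ → ℂ) where
  carrier := {f | Nice N f ∧ ∀ n, IsIntegral ℤ ((qExpansion (N : ℝ) f).coeff n)}
  mul_mem' := by
    rintro f g ⟨hf, hf'⟩ ⟨hg, hg'⟩
    refine ⟨hf.mul hg, fun n => ?_⟩
    rw [qExpansion_mul hf.analyticAt hg.analyticAt, PowerSeries.coeff_mul]
    exact IsIntegral.sum _ fun i _ => (hf' _).mul (hg' _)
  one_mem' := by
    refine ⟨Nice.one N, fun n => ?_⟩
    rw [qExpansion_one, PowerSeries.coeff_one]
    split_ifs
    · exact isIntegral_one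
    · exact isIntegral_zero
  add_mem' := by
    rintro f g ⟨hf, hf'⟩ ⟨hg, hg'⟩
    refine ⟨hf.add hg, fun n => ?_⟩
    rw [qExpansion_add hf.analyticAt hg.analyticAt, map_add]
    exact (hf' n).add (hg' n)
  zero_mem' := by
    refine ⟨Nice.zero N, fun n => ?_⟩
    rw [qExpansion_zero]
    simpa using isIntegral_zero
  neg_mem' := by
    rintro f ⟨hf, hf'⟩
    refine ⟨hf.neg, fun n => ?_⟩
    rw [qExpansion_neg hf.analyticAt, map_neg]
    exact (hf' n).neg

theorem mem_RR {N : ℕ} [NeZero N] {f : ℍ → ℂ} :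
    f ∈ RR N ↔ Nice N f ∧ ∀ n, IsIntegral ℤ ((qExpansion (N : ℝ) f).coeff n) := Iff.rfl

/-- Constant functions with algebraic integer values. -/
theorem const_mem_RR {N : ℕ} [NeZero N] {c : ℂ} (hc : IsIntegral ℤ c) :
    (fun _ => c : ℍ → ℂ) ∈ RR N := by
  refine ⟨Nice.const N c, fun n => ?_⟩
  have : (fun _ => c : ℍ → ℂ) = c • (1 : ℍ → ℂ) := by ext; simp
  rw [this, qExpansion_smul (Nice.one N).analyticAt, qExpansion_one, PowerSeries.coeff_smul,
    PowerSeries.coeff_one]
  split_ifs
  · simpa using hc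
  · simpa using isIntegral_zero

/-- The integral q-expansion. -/
noncomputable def qA (N : ℕ) [NeZero N] : RR N →+* PowerSeries (integralClosure ℤ ℂ) where
  toFun f := PowerSeries.mk fun n => ⟨(qExpansion (N : ℝ) f.1).coeff n, f.2.2 n⟩
  map_one' := by
    ext n
    simp only [PowerSeries.coeff_mk]
    rw [OneMemClass.coe_one, qExpansion_one, PowerSeries.coeff_one, PowerSeries.coeff_one]
    split_ifs <;> simp
  map_zero' := by
    ext n
    simp only [PowerSeries.coeff_mk]
    rw [ZeroMemClass.coe_zero, qExpansion_zero]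
    simp
  map_mul' f g := by
    ext n
    simp only [PowerSeries.coeff_mk]
    rw [PowerSeries.coeff_mul, Subring.coe_mul, qExpansion_mul f.2.1.analyticAt g.2.1.analyticAt,
      PowerSeries.coeff_mul]
    push_cast
    simp
  map_add' f g := by
    ext n
    simp only [PowerSeries.coeff_mk]
    rw [map_add, Subring.coe_add, qExpansion_add f.2.1.analyticAt g.2.1.analyticAt, map_add]
    simp

theorem coeff_qA {N : ℕ} [NeZero N] (f : RR N) (n : ℕ) :
    ((coeff n (qA N f) : integralClosure ℤ ℂ) : ℂ) = (qExpansion (N : ℝ) f.1).coeff n := by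
  simp [qA]

/-- Reduction. -/
noncomputable def red (N : ℕ) [NeZero N] {κ : Type*} [CommRing κ]
    (ρ : integralClosure ℤ ℂ →+* κ) : RR N →+* PowerSeries κ :=
  (PowerSeries.map ρ).comp (qA N)

theorem coeff_red {N : ℕ} [NeZero N] {κ : Type*} [CommRing κ]
    (ρ : integralClosure ℤ ℂ →+* κ) (f : RR N) (n : ℕ) :
    coeff n (red N ρ f) = ρ ⟨(qExpansion (N : ℝ) f.1).coeff n, f.2.2 n⟩ := by
  simp [red, qA]

/-- Uniqueness of the expansion for plain functions. -/
theorem coeff_eq_of_hasSum {h : ℝ} (hh : 0 < h) {f : ℍ → ℂ}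
    (hfa : AnalyticAt ℂ (cuspFunction h f) 0) {c : ℕ → ℂ}
    (hf : ∀ τ : ℍ, HasSum (fun m ↦ c m • Periodic.qParam h τ ^ m) (f τ)) (n : ℕ) :
    c n = (qExpansion h f).coeff n := by
  let _ : FunLike (ℍ → ℂ) ℍ ℂ := ⟨fun f => f, fun _ _ h => h⟩
  exact UpperHalfPlane.qExpansion_coeff_unique (F := ℍ → ℂ) f hh hfa hf n

theorem periodic_of_hasSum {h : ℝ} (hh : 0 < h) {f : ℍ → ℂ} {c : ℕ → ℂ}
    (hf : ∀ τ : ℍ, HasSum (fun m ↦ c m • Periodic.qParam h τ ^ m) (f τ)) :
    Periodic (f ∘ ofComplex) h := by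
  intro x
  simp only [comp_apply]
  by_cases hx : 0 < x.im
  · have hx' : 0 < (x + h).im := by simpa using hx
    rw [ofComplex_apply_of_im_pos hx, ofComplex_apply_of_im_pos hx']
    have h1 := hf ⟨x, hx⟩
    have h2 := hf ⟨x + h, hx'⟩
    have h3 : Periodic.qParam h (x + h) = Periodic.qParam h x := by
      unfold Periodic.qParam
      rw [show 2 * (Real.pi : ℂ) * Complex.I * (x + h) / h
        = 2 * Real.pi * Complex.I * x / h + 2 * Real.pi * Complex.I by
        have : (h : ℂ) ≠ 0 := by exact_mod_cast hh.ne'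
        field_simp, Complex.exp_add, Complex.exp_two_pi_mul_I, mul_one]
    simp only at h1 h2
    rw [h3] at h2
    exact h2.unique h1
  · have hx1 : x.im ≤ 0 := not_lt.mp hx
    have hx' : (x + h).im ≤ 0 := by simpa using hx1
    rw [ofComplex_apply_of_im_nonpos hx1, ofComplex_apply_of_im_nonpos hx']

/-- Membership from a `HasSum` expansion. -/
theorem mem_RR_of_hasSum {N : ℕ} [NeZero N] {f : ℍ → ℂ} (hhol : MDiff f)
    {c : ℕ → ℂ} (hc : ∀ n, IsIntegral ℤ (c n))
    (hf : ∀ τ : ℍ, HasSum (fun m ↦ c m • Periodic.qParam (N : ℝ) τ ^ m) (f τ)) :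
    f ∈ RR N ∧ ∀ n, (qExpansion (N : ℝ) f).coeff n = c n := by
  have hN : (0 : ℝ) < N := by exact_mod_cast Nat.pos_of_ne_zero (NeZero.ne N)
  have hnice : Nice N f := ⟨periodic_of_hasSum hN hf, hhol,
    isBoundedAtImInfty_of_hasSum_qExpansion hN hf⟩
  have h2 : ∀ n, (qExpansion (N : ℝ) f).coeff n = c n := fun n =>
    (coeff_eq_of_hasSum hN hnice.analyticAt hf n).symm
  refine ⟨⟨hnice, fun n => ?_⟩, h2⟩
  rw [h2]
  exact hc n

end SixReg
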