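import Mathlib
import Pool.Agent.Lib.MP_72e75e_nt.DeltaSeries
import Pool.Agent.Lib.MP_72e75e_nt.RedRing

/-!
# Level one forms of weight `12 k` with integral coefficients reduce to polynomials in `D`
-/

namespace SixReg

open UpperHalfPlane ModularForm Complex Function PowerSeries EisensteinSeries
open scoped Manifold MatrixGroups Topology

/-- Integral lift of a power series. -/
noncomputable def liftA (P : PowerSeries ℂ) (hP : ∀ n, IsIntegral ℤ (coeff n P)) :
    PowerSeries (integralClosure ℤ ℂ) :=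
  PowerSeries.mk fun n => ⟨coeff n P, hP n⟩

theorem map_liftA (P : PowerSeries ℂ) (hP : ∀ n, IsIntegral ℤ (coeff n P)) :
    PowerSeries.map (algebraMap (integralClosure ℤ ℂ) ℂ) (liftA P hP) = P := by
  ext n
  simp [liftA]

theorem map_alg_injective : Function.Injective
    (PowerSeries.map (algebraMap (integralClosure ℤ ℂ) ℂ)) := by
  intro a b h
  ext n
  have := congrArg (coeff n) h
  simpa using this

theorem liftA_eq {P : PowerSeries ℂ} (hP : ∀ n, IsIntegral ℤ (coeff n P))
    {Q : PowerSeries (integralClosure ℤ ℂ)}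
    (h : PowerSeries.map (algebraMap (integralClosure ℤ ℂ) ℂ) Q = P) : liftA P hP = Q :=
  map_alg_injective (by rw [map_liftA, h])

/-- `DeltaZ = X * u` with `u` having constant coefficient `1`. -/
theorem exists_DeltaZ_unit : ∃ v : PowerSeries ℤ, DeltaZ * v = X := by
  have h1 : constantCoeff (PowerSeries.pentagonalSeries ℤ) = 1 := by
    have := PowerSeries.coeff_pentagonalSeries_pentagonal ℤ 0
    simpa [pentagonal_def] using this
  have h2 : IsUnit ((PowerSeries.pentagonalSeries ℤ) ^ 24) := by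
    rw [PowerSeries.isUnit_iff_constantCoeff]
    simp [h1]
  obtain ⟨u, hu⟩ := h2
  refine ⟨((u⁻¹ : (PowerSeries ℤ)ˣ) : PowerSeries ℤ), ?_⟩
  rw [DeltaZ, ← hu, mul_assoc, Units.mul_inv, mul_one]

theorem isIntegral_coeff_map_int (P : PowerSeries ℤ) (n : ℕ) :
    IsIntegral ℤ (coeff n (PowerSeries.map (Int.castRingHom ℂ) P)) := by
  rw [PowerSeries.coeff_map]
  exact isIntegral_algebraMap (R := ℤ) (A := ℂ)

theorem isIntegral_coeff_mul {P Q : PowerSeries ℂ} (hP : ∀ n, IsIntegral ℤ (coeff n P))
    (hQ : ∀ n, IsIntegral ℤ (coeff n Q)) (n : ℕ) : IsIntegral ℤ (coeff n (P * Q)) := by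
  rw [PowerSeries.coeff_mul]
  exact IsIntegral.sum _ fun i _ => (hP _).mul (hQ _)

theorem isIntegral_coeff_pow {P : PowerSeries ℂ} (hP : ∀ n, IsIntegral ℤ (coeff n P))
    (k n : ℕ) : IsIntegral ℤ (coeff n (P ^ k)) := by
  induction k generalizing n with
  | zero =>
    rw [pow_zero, PowerSeries.coeff_one]
    split_ifs
    · exact isIntegral_one
    · exact isIntegral_zero
  | succ k ih => rw [pow_succ]; exact isIntegral_coeff_mul ih hP n

theorem coeff_E4 (m : ℕ) : (qExpansion 1 (E₄ : ℍ → ℂ)).coeff m =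
    if m = 0 then 1 else 240 * ((ArithmeticFunction.sigma 3 m : ℕ) : ℂ) := by
  have := EisensteinSeries.E_qExpansion_coeff (k := 4) (by norm_num) ⟨2, rfl⟩ m
  rw [this]
  split_ifs with h
  · rfl
  · norm_num [show bernoulli 4 = -1 / 30 by decide +kernel]

theorem isIntegral_E4 (m : ℕ) : IsIntegral ℤ ((qExpansion 1 (E₄ : ℍ → ℂ)).coeff m) := by
  rw [coeff_E4]
  split_ifs
  · exact isIntegral_one
  · have : (240 * ((ArithmeticFunction.sigma 3 m : ℕ) : ℂ))
        = algebraMap ℤ ℂ (240 * (ArithmeticFunction.sigma 3 m : ℕ)) := by simp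
    rw [this]
    exact isIntegral_algebraMap

variable {κ : Type*} [CommRing κ] [CharP κ 2] (ρ : integralClosure ℤ ℂ →+* κ)

theorem red_E4 : PowerSeries.map ρ (liftA (qExpansion 1 (E₄ : ℍ → ℂ)) isIntegral_E4) = 1 := by
  ext n
  rw [PowerSeries.coeff_map, PowerSeries.coeff_one, liftA, PowerSeries.coeff_mk]
  split_ifs with h
  · subst h
    rw [← map_one ρ]
    congr 1
    apply Subtype.ext
    simpa using coeff_E4 0
  · have h2 : (⟨(qExpansion 1 (E₄ : ℍ → ℂ)).coeff n, isIntegral_E4 n⟩ : integralClosure ℤ ℂ)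
        = 2 * ((120 * (ArithmeticFunction.sigma 3 n : ℕ) : ℕ) : integralClosure ℤ ℂ) := by
      apply Subtype.ext
      simp only [coeff_E4, h, if_false]
      push_cast
      rw [show ((2 : integralClosure ℤ ℂ) : ℂ) = 2 from rfl]
      rw [show ((120 : integralClosure ℤ ℂ) : ℂ) = 120 from rfl]
      ring
    rw [h2, map_mul]
    have : ρ 2 = 0 := by
      rw [show (2 : integralClosure ℤ ℂ) = ((2 : ℕ) : integralClosure ℤ ℂ) by norm_num, map_natCast]
      exact CharP.cast_eq_zero κ 2
    rw [this, zero_mul]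

/-- The series `D` in characteristic two. -/
noncomputable def Dk (κ : Type*) [CommRing κ] : PowerSeries κ :=
  PowerSeries.map (Int.castRingHom κ) DeltaZ

theorem levelOne_red (k : ℕ) : ∀ (w : ℤ) (_ : w = 12 * k) (f : ModularForm 𝒮ℒ w)
    (hf : ∀ n, IsIntegral ℤ ((qExpansion 1 f).coeff n)),
    ∃ P : Polynomial κ, P.natDegree ≤ k ∧
      PowerSeries.map ρ (liftA (qExpansion 1 f) hf) = Polynomial.aeval (Dk κ) P := by
  induction k with
  | zero =>
    intro w hw f hf
    have hw0 : w = 0 := by simpa using hw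
    subst hw0
    obtain ⟨c, hc⟩ := ModularFormClass.levelOne_weight_zero_const f
    have h1 : qExpansion 1 (f : ℍ → ℂ) = C c := by
      have : (f : ℍ → ℂ) = c • (1 : ℍ → ℂ) := by rw [hc]; ext; simp
      rw [this]
      have ha : AnalyticAt ℂ (cuspFunction 1 (1 : ℍ → ℂ)) 0 := by
        have := (Nice.one 1).analyticAt
        simpa using this
      rw [qExpansion_smul ha, qExpansion_one]
      ext n
      simp [PowerSeries.coeff_C, PowerSeries.coeff_one]
    have hc' : IsIntegral ℤ c := by
      have := hf 0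
      rw [h1] at this
      simpa using this
    refine ⟨Polynomial.C (ρ ⟨c, hc'⟩), by simp, ?_⟩
    have h2 : liftA (qExpansion 1 (f : ℍ → ℂ)) hf = C (⟨c, hc'⟩ : integralClosure ℤ ℂ) := by
      apply liftA_eq
      rw [PowerSeries.map_C, h1]
      rfl
    rw [h2, PowerSeries.map_C, Polynomial.aeval_C]
    rfl
  | succ k ih =>
    intro w hw f hf
    -- subtract multiple of E4^(3(k+1))
    set c : ℂ := (qExpansion 1 (f : ℍ → ℂ)).coeff 0 with hc
    have hc' : IsIntegral ℤ c := hf 0
    let e : ModularForm 𝒮ℒ w := ModularForm.mcast (by rw [hw]; push_cast; ring) (E₄.pow (3 * (k + 1)))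
    have he : qExpansion 1 (e : ℍ → ℂ) = (qExpansion 1 (E₄ : ℍ → ℂ)) ^ (3 * (k + 1)) := by
      change qExpansion 1 (ModularForm.mcast _ (E₄.pow (3 * (k + 1)))) = _
      rw [ModularForm.qExpansion_mcast, ModularForm.qExpansion_pow one_pos one_mem_strictPeriods_SL]
    let g : ModularForm 𝒮ℒ w := f - c • e
    have hg : qExpansion 1 (g : ℍ → ℂ)
        = qExpansion 1 (f : ℍ → ℂ) - c • (qExpansion 1 (E₄ : ℍ → ℂ)) ^ (3 * (k + 1)) := by
      change qExpansion 1 ((f - c • e : ModularForm 𝒮ℒ w) : ℍ → ℂ) = _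
      rw [FunLike.coe_sub]
      rw [ModularForm.qExpansion_sub one_pos one_mem_strictPeriods_SL f (c • e)]
      rw [FunLike.coe_smul, ModularForm.qExpansion_smul one_pos one_mem_strictPeriods_SL c e, he]
    have hE0 : coeff 0 ((qExpansion 1 (E₄ : ℍ → ℂ)) ^ (3 * (k + 1))) = 1 := by
      have h0 : coeff 0 (qExpansion 1 (E₄ : ℍ → ℂ)) = 1 := by rw [coeff_E4]; simp
      rw [PowerSeries.coeff_zero_eq_constantCoeff] at h0 ⊢
      rw [map_pow, h0, one_pow]
    have hg0 : (qExpansion 1 (g : ℍ → ℂ)).coeff 0 = 0 := by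
      rw [hg, map_sub, PowerSeries.coeff_smul, hE0, ← hc]
      simp
    -- divide by Delta
    have hdiv := ModularForm.qExpansion_eq_qExpansion_discriminant_mul g hg0
    set h := CuspForm.discriminantEquiv (toCuspForm g hg0) with hh
    have hgint : ∀ n, IsIntegral ℤ (coeff n (qExpansion 1 (g : ℍ → ℂ))) := by
      intro n
      rw [hg, map_sub, PowerSeries.coeff_smul]
      exact (hf n).sub (hc'.mul (isIntegral_coeff_pow isIntegral_E4 _ _))
    obtain ⟨v, hv⟩ := exists_DeltaZ_unit
    have hXh : X * qExpansion 1 (h : ℍ → ℂ)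
        = PowerSeries.map (Int.castRingHom ℂ) v * qExpansion 1 (g : ℍ → ℂ) := by
      rw [hdiv, qExpansion_discriminant, ← mul_assoc, ← map_mul, mul_comm v, hv, map_X]
    have hhint : ∀ n, IsIntegral ℤ (coeff n (qExpansion 1 (h : ℍ → ℂ))) := by
      intro n
      have h1 := congrArg (coeff (n + 1)) hXh
      rw [PowerSeries.coeff_succ_X_mul] at h1
      rw [h1]
      exact isIntegral_coeff_mul (isIntegral_coeff_map_int v) hgint _
    obtain ⟨P, hP, hP2⟩ := ih (w - 12) (by rw [hw]; push_cast; ring) h hhint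
    refine ⟨Polynomial.C (ρ ⟨c, hc'⟩) + Polynomial.X * P, ?_, ?_⟩
    · refine (Polynomial.natDegree_add_le _ _).trans ?_
      rw [Polynomial.natDegree_C]
      refine max_le (by omega) ?_
      refine Polynomial.natDegree_mul_le.trans ?_
      have := Polynomial.natDegree_X_le (R := κ)
      omega
    · have key : liftA (qExpansion 1 (f : ℍ → ℂ)) hf
          = C (⟨c, hc'⟩ : integralClosure ℤ ℂ)
              * (liftA (qExpansion 1 (E₄ : ℍ → ℂ)) isIntegral_E4) ^ (3 * (k + 1))
            + PowerSeries.map (Int.castRingHom (integralClosure ℤ ℂ)) DeltaZ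
              * liftA (qExpansion 1 (h : ℍ → ℂ)) hhint := by
        apply liftA_eq
        rw [map_add, map_mul, map_mul, map_pow, map_liftA, map_liftA, PowerSeries.map_C,
          ← RingHom.comp_apply (PowerSeries.map (algebraMap (integralClosure ℤ ℂ) ℂ)),
          ← PowerSeries.map_comp]
        have h3 : (algebraMap (integralClosure ℤ ℂ) ℂ).comp
            (Int.castRingHom (integralClosure ℤ ℂ)) = Int.castRingHom ℂ := RingHom.ext_int _ _
        rw [h3, ← qExpansion_discriminant, ← hdiv, hg]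
        rw [PowerSeries.smul_eq_C_mul]
        change C c * _ + _ = _
        ring
      rw [key, map_add, map_mul, map_mul, map_pow, red_E4, hP2, one_pow, mul_one,
        PowerSeries.map_C, map_add, map_mul, Polynomial.aeval_C, Polynomial.aeval_X]
      have h4 : ρ.comp (Int.castRingHom (integralClosure ℤ ℂ)) = Int.castRingHom κ :=
        RingHom.ext_int _ _
      rw [← RingHom.comp_apply (PowerSeries.map ρ), ← PowerSeries.map_comp, Dk, h4]
      rfl

end SixReg
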