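import Mathlib
import Pool.Agent.Lib.MP_72e75e_nt.LevelOne

/-!
# The functions `Δ|M` for integral matrices `M`
-/

namespace SixReg

open UpperHalfPlane ModularForm Complex Function PowerSeries
open scoped Manifold MatrixGroups Topology

/-- The real invertible matrix attached to an integer matrix of positive determinant. -/
noncomputable def glOf (M : Matrix (Fin 2) (Fin 2) ℤ) (h : 0 < M.det) : GL (Fin 2) ℝ :=
  Matrix.GeneralLinearGroup.mkOfDetNeZero (M.map (Int.castRingHom ℝ)) (by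
    rw [← RingHom.mapMatrix_apply, ← RingHom.map_det]
    have : (0 : ℝ) < (M.det : ℝ) := by exact_mod_cast h
    exact this.ne')

theorem glOf_det (M : Matrix (Fin 2) (Fin 2) ℤ) (h : 0 < M.det) :
    (glOf M h).det.val = (M.det : ℝ) := by
  change (M.map (Int.castRingHom ℝ)).det = _
  rw [← RingHom.mapMatrix_apply, ← RingHom.map_det]
  rfl

theorem glOf_mul_SL (M : Matrix (Fin 2) (Fin 2) ℤ) (h : 0 < M.det) (γ : SL(2, ℤ))
    (h' : 0 < (M * (γ : Matrix (Fin 2) (Fin 2) ℤ)).det) :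
    glOf (M * (γ : Matrix (Fin 2) (Fin 2) ℤ)) h' = glOf M h * (γ : GL (Fin 2) ℝ) := by
  apply Units.ext
  change (M * (γ : Matrix (Fin 2) (Fin 2) ℤ)).map (Int.castRingHom ℝ)
    = M.map (Int.castRingHom ℝ) * (γ : Matrix (Fin 2) (Fin 2) ℤ).map (Int.castRingHom ℝ)
  rw [Matrix.map_mul]

theorem glOf_SL_mul (M : Matrix (Fin 2) (Fin 2) ℤ) (h : 0 < M.det) (γ : SL(2, ℤ))
    (h' : 0 < ((γ : Matrix (Fin 2) (Fin 2) ℤ) * M).det) :
    glOf ((γ : Matrix (Fin 2) (Fin 2) ℤ) * M) h' = (γ : GL (Fin 2) ℝ) * glOf M h := by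
  apply Units.ext
  change ((γ : Matrix (Fin 2) (Fin 2) ℤ) * M).map (Int.castRingHom ℝ)
    = (γ : Matrix (Fin 2) (Fin 2) ℤ).map (Int.castRingHom ℝ) * M.map (Int.castRingHom ℝ)
  rw [Matrix.map_mul]

/-- `m · Δ|₁₂ M`, `m = det M`. -/
noncomputable def dM (M : Matrix (Fin 2) (Fin 2) ℤ) : ℍ → ℂ :=
  if h : 0 < M.det then ((M.det : ℤ) : ℂ) • ((discriminant : ℍ → ℂ) ∣[(12 : ℤ)] (glOf M h)) else 0

theorem disc_slash (γ : SL(2, ℤ)) :
    (discriminant : ℍ → ℂ) ∣[(12 : ℤ)] (γ : GL (Fin 2) ℝ) = discriminant :=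
  SlashInvariantForm.slash_action_generators_SL2Z discriminant_S_invariant
    discriminant_T_invariant γ

theorem dM_SL_mul (γ : SL(2, ℤ)) (M : Matrix (Fin 2) (Fin 2) ℤ) :
    dM ((γ : Matrix (Fin 2) (Fin 2) ℤ) * M) = dM M := by
  have hdet : ((γ : Matrix (Fin 2) (Fin 2) ℤ) * M).det = M.det := by simp
  unfold dM
  by_cases h : 0 < M.det
  · have h' : 0 < ((γ : Matrix (Fin 2) (Fin 2) ℤ) * M).det := by rwa [hdet]
    rw [dif_pos h, dif_pos h', glOf_SL_mul M h γ h', SlashAction.slash_mul, disc_slash, hdet]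
  · have h' : ¬ 0 < ((γ : Matrix (Fin 2) (Fin 2) ℤ) * M).det := by rwa [hdet]
    rw [dif_neg h, dif_neg h']

theorem dM_slash (M : Matrix (Fin 2) (Fin 2) ℤ) (γ : SL(2, ℤ)) :
    (dM M) ∣[(12 : ℤ)] γ = dM (M * (γ : Matrix (Fin 2) (Fin 2) ℤ)) := by
  have hdet : (M * (γ : Matrix (Fin 2) (Fin 2) ℤ)).det = M.det := by simp
  unfold dM
  by_cases h : 0 < M.det
  · have h' : 0 < (M * (γ : Matrix (Fin 2) (Fin 2) ℤ)).det := by rwa [hdet]
    rw [dif_pos h, dif_pos h', glOf_mul_SL M h γ h', SlashAction.slash_mul, hdet,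
      SL_smul_slash, SL_slash]
  · have h' : ¬ 0 < (M * (γ : Matrix (Fin 2) (Fin 2) ℤ)).det := by rwa [hdet]
    rw [dif_neg h, dif_neg h', SlashAction.zero_slash]

theorem mdiff_dM (M : Matrix (Fin 2) (Fin 2) ℤ) : MDiff (dM M) := by
  unfold dM
  split_ifs with h
  · have h1 : MDiff ((discriminant : ℍ → ℂ) ∣[(12 : ℤ)] (glOf M h)) :=
      (CuspForm.discriminant.holo').slash 12 _
    exact h1.const_smul _
  · exact mdifferentiable_const

/-- `(aτ+b)/d`. -/
noncomputable def aff (a b d : ℕ) (ha : 0 < a) (hd : 0 < d) (τ : ℍ) : ℍ :=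
  ⟨((a : ℂ) * τ + b) / d, by
    have h1 : (((a : ℂ) * τ + b) / d).im = (a : ℝ) * τ.im / d := by
      rw [show (d : ℂ) = ((d : ℝ) : ℂ) by simp, Complex.div_ofReal_im]
      simp
    rw [h1]
    have := τ.im_pos
    positivity⟩

theorem det_upper (a b d : ℕ) : (!![(a : ℤ), b; 0, d]).det = a * d := by
  simp [Matrix.det_fin_two]

theorem dM_upper {a b d : ℕ} (ha : 0 < a) (hd : 0 < d) (τ : ℍ) :
    dM !![(a : ℤ), b; 0, d] τ = (a : ℂ) ^ 12 * discriminant (aff a b d ha hd τ) := by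
  have hpos : 0 < (!![(a : ℤ), b; 0, d]).det := by
    rw [det_upper]; positivity
  have hdet : (glOf !![(a : ℤ), b; 0, d] hpos).det.val = (a : ℝ) * d := by
    rw [glOf_det, det_upper]; push_cast; ring
  have hdetpos : 0 < (glOf !![(a : ℤ), b; 0, d] hpos).det.val := by
    rw [hdet]; positivity
  have hsm : glOf !![(a : ℤ), b; 0, d] hpos • τ = aff a b d ha hd τ := by
    apply UpperHalfPlane.ext
    rw [coe_smul_of_det_pos hdetpos]
    simp [num, denom, glOf, aff, Matrix.GeneralLinearGroup.mkOfDetNeZero]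
  have hden : denom (glOf !![(a : ℤ), b; 0, d] hpos) τ = d := by
    simp [denom, glOf, Matrix.GeneralLinearGroup.mkOfDetNeZero]
  unfold dM
  rw [dif_pos hpos, Pi.smul_apply, slash_apply, hsm, hden, hdet, det_upper, smul_eq_mul]
  have hσ : σ (glOf !![(a : ℤ), b; 0, d] hpos) (discriminant (aff a b d ha hd τ))
      = discriminant (aff a b d ha hd τ) := by
    simp only [σ, if_pos hdetpos]
    rfl
  rw [hσ]
  have ha' : (a : ℂ) ≠ 0 := by exact_mod_cast ha.ne'
  have hd' : (d : ℂ) ≠ 0 := by exact_mod_cast hd.ne'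
  have habs : |(a : ℝ) * d| = a * d := abs_of_pos (by positivity)
  rw [habs]
  push_cast
  rw [show (-12 : ℤ) = -((12 : ℕ) : ℤ) by norm_num, zpow_neg, zpow_natCast]
  field_simp

theorem hasSum_disc (w : ℍ) :
    HasSum (fun n : ℕ => ((coeff n DeltaZ : ℤ) : ℂ) * Periodic.qParam 1 w ^ n)
      (discriminant w) := by
  have h := ModularForm.hasSum_qExpansion CuspForm.discriminant one_pos
    one_mem_strictPeriods_SL w
  rw [CuspForm.coe_discriminant, qExpansion_discriminant] at h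
  simpa using h

/-- The primitive `N`-th root of unity. -/
noncomputable def ζ (N : ℕ) : ℂ := Complex.exp (2 * Real.pi * Complex.I / N)

theorem ζ_pow (N : ℕ) [NeZero N] : ζ N ^ N = 1 := by
  have hN : (N : ℂ) ≠ 0 := by exact_mod_cast NeZero.ne N
  rw [ζ, ← Complex.exp_nat_mul, mul_div_cancel₀ _ hN, Complex.exp_two_pi_mul_I]

theorem ζ_isPrimitiveRoot (N : ℕ) [NeZero N] : IsPrimitiveRoot (ζ N) N :=
  Complex.isPrimitiveRoot_exp N (NeZero.ne N)

theorem ζ_integral (N : ℕ) [NeZero N] : IsIntegral ℤ (ζ N) :=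
  (ζ_isPrimitiveRoot N).isIntegral (Nat.pos_of_ne_zero (NeZero.ne N))

/-- The coefficients of `dM` for upper triangular matrices. -/
noncomputable def dSer (N a b d : ℕ) : ℕ → ℂ := fun m =>
  if (N / d * a) ∣ m then
    (a : ℂ) ^ 12 * (ζ N ^ (N / d * b)) ^ (m / (N / d * a)) *
      ((coeff (m / (N / d * a)) DeltaZ : ℤ) : ℂ)
  else 0

theorem dSer_integral (N a b d : ℕ) [NeZero N] (m : ℕ) : IsIntegral ℤ (dSer N a b d m) := by
  unfold dSer
  split_ifs
  · refine IsIntegral.mul (IsIntegral.mul ?_ ?_) ?_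
    · exact (isIntegral_algebraMap (R := ℤ) (A := ℂ) (x := (a : ℤ))).pow 12
    · exact ((ζ_integral N).pow _).pow _
    · exact isIntegral_algebraMap (R := ℤ) (A := ℂ)
  · exact isIntegral_zero

theorem hasSum_dM {N a b d : ℕ} [NeZero N] (ha : 0 < a) (hd : 0 < d) (hdN : d ∣ N) (τ : ℍ) :
    HasSum (fun m => dSer N a b d m • Periodic.qParam (N : ℝ) τ ^ m)
      (dM !![(a : ℤ), b; 0, d] τ) := by
  obtain ⟨q, hq⟩ := hdN
  have hNpos : 0 < N := Nat.pos_of_ne_zero (NeZero.ne N)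
  have hqpos : 0 < q := by
    rcases Nat.eq_zero_or_pos q with h | h
    · subst h; simp at hq; omega
    · exact h
  have hNd : N / d = q := by rw [hq]; exact Nat.mul_div_cancel_left q hd
  have hepos : 0 < q * a := Nat.mul_pos hqpos ha
  rw [dM_upper ha hd]
  have h1 := (hasSum_disc (aff a b d ha hd τ)).mul_left ((a : ℂ) ^ 12)
  have hinj : Function.Injective (fun n : ℕ => (q * a) * n) :=
    fun x y h => Nat.eq_of_mul_eq_mul_left hepos h
  rw [← hinj.hasSum_iff]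
  · convert! h1 using 2 with n
    simp only [comp_apply]
    have hq1 : Periodic.qParam 1 (aff a b d ha hd τ)
        = Periodic.qParam (N : ℝ) τ ^ (q * a) * ζ N ^ (q * b) := by
      unfold Periodic.qParam aff ζ
      rw [← Complex.exp_nat_mul, ← Complex.exp_nat_mul, ← Complex.exp_add]
      congr 1
      have hd' : (d : ℂ) ≠ 0 := by exact_mod_cast hd.ne'
      have hq' : (q : ℂ) ≠ 0 := by exact_mod_cast hqpos.ne'
      simp only [Complex.ofReal_one, div_one, Complex.ofReal_natCast, hq]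
      push_cast
      field_simp
    rw [hq1]
    unfold dSer
    rw [hNd, if_pos (Dvd.intro n rfl), Nat.mul_div_cancel_left n hepos, smul_eq_mul]
    rw [mul_pow, ← pow_mul, ← pow_mul]
    ring
  · intro m hm
    have : ¬ (q * a) ∣ m := by
      rintro ⟨n, hn⟩
      exact hm ⟨n, hn.symm⟩
    unfold dSer
    rw [hNd, if_neg this, zero_smul]

theorem dM_mem_upper {N a b d : ℕ} [NeZero N] (ha : 0 < a) (hd : 0 < d) (hdN : d ∣ N) :
    dM !![(a : ℤ), b; 0, d] ∈ RR N ∧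
      ∀ n, (qExpansion (N : ℝ) (dM !![(a : ℤ), b; 0, d])).coeff n = dSer N a b d n :=
  mem_RR_of_hasSum (mdiff_dM _) (dSer_integral N a b d) (hasSum_dM ha hd hdN)

/-- Normal form of an integral matrix of positive determinant. -/
theorem exists_upper (M : Matrix (Fin 2) (Fin 2) ℤ) (hM : 0 < M.det) :
    ∃ (γ : SL(2, ℤ)) (a b d : ℕ), 0 < a ∧ 0 < d ∧ b < d ∧ (a : ℤ) * d = M.det ∧
      a = Int.gcd (M 0 0) (M 1 0) ∧
      M = (γ : Matrix (Fin 2) (Fin 2) ℤ) * !![(a : ℤ), b; 0, d] := by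
  have key : ∀ A : FixedDetMatrix (Fin 2) ℤ M.det, ∃ (γ : SL(2, ℤ)) (B : FixedDetMatrix (Fin 2) ℤ M.det),
      (B.1 1 0 = 0 ∧ 0 < B.1 0 0 ∧ 0 ≤ B.1 0 1 ∧ |B.1 0 1| < |B.1 1 1|) ∧ A = γ • B := by
    intro A
    induction A using FixedDetMatrices.induction_on hM.ne' with
    | h0 A h1 h2 h3 h4 => exact ⟨1, A, ⟨h1, h2, h3, h4⟩, by rw [one_smul]⟩
    | hS B hB =>
      obtain ⟨γ, C, hC, rfl⟩ := hB
      exact ⟨ModularGroup.S * γ, C, hC, by rw [mul_smul]⟩
    | hT B hB =>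
      obtain ⟨γ, C, hC, rfl⟩ := hB
      exact ⟨ModularGroup.T * γ, C, hC, by rw [mul_smul]⟩
  obtain ⟨γ, B, ⟨h1, h2, h3, h4⟩, hB⟩ := key ⟨M, rfl⟩
  have hMB : M = (γ : Matrix (Fin 2) (Fin 2) ℤ) * B.1 := by
    have := congrArg Subtype.val hB
    simpa [FixedDetMatrices.smul_def] using this
  have hBdet : B.1 0 0 * B.1 1 1 = M.det := by
    have := B.2
    rw [Matrix.det_fin_two, h1] at this
    simpa using this
  have h11 : 0 < B.1 1 1 := by
    have : 0 < B.1 0 0 * B.1 1 1 := by rw [hBdet]; exact hM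
    exact (pos_iff_pos_of_mul_pos this).mp h2
  obtain ⟨a, ha⟩ := Int.eq_ofNat_of_zero_le h2.le
  obtain ⟨b, hb⟩ := Int.eq_ofNat_of_zero_le h3
  obtain ⟨d, hd⟩ := Int.eq_ofNat_of_zero_le h11.le
  have hBmat : B.1 = !![(a : ℤ), b; 0, d] := by
    ext i j
    fin_cases i <;> fin_cases j <;> simp [ha, hb, hd, h1]
  refine ⟨γ, a, b, d, by omega, by omega, ?_, ?_, ?_, ?_⟩
  · rw [abs_of_nonneg h3, abs_of_pos h11, hb, hd] at h4
    exact_mod_cast h4
  · rw [← hBdet, ha, hd]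
  · rw [hBmat] at hMB
    have e1 : M 0 0 = γ.1 0 0 * a := by rw [hMB]; simp [Matrix.mul_apply, Fin.sum_univ_two]
    have e2 : M 1 0 = γ.1 1 0 * a := by rw [hMB]; simp [Matrix.mul_apply, Fin.sum_univ_two]
    have hcop : Int.gcd (γ.1 0 0) (γ.1 1 0) = 1 := by
      have hdet := γ.2
      rw [Matrix.det_fin_two] at hdet
      apply Int.isCoprime_iff_gcd_eq_one.mp
      exact ⟨γ.1 1 1, -γ.1 0 1, by linarith⟩
    rw [e1, e2, Int.gcd_mul_right, hcop]
    simp
  · rw [← hBmat]; exact hMB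

theorem dM_mem {N : ℕ} [NeZero N] {M : Matrix (Fin 2) (Fin 2) ℤ} (hM : 0 < M.det)
    (hN : M.det ∣ N) : dM M ∈ RR N := by
  obtain ⟨γ, a, b, d, ha, hd, -, had, -, hMeq⟩ := exists_upper M hM
  rw [hMeq, dM_SL_mul]
  refine (dM_mem_upper ha hd ?_).1
  have : (d : ℤ) ∣ N := (Dvd.intro_left _ had).trans hN
  exact_mod_cast this

/-- Only finitely many functions `dM M` with `det M = m`. -/
theorem finite_dM (m : ℤ) : (dM '' {M | M.det = m}).Finite := by
  by_cases hm : 0 < m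
  · have hfin : (Set.range fun B : FixedDetMatrices.reps m => dM B.1.1).Finite :=
      Set.finite_range _
    refine hfin.subset ?_
    rintro _ ⟨M, hM, rfl⟩
    simp only [Set.mem_ofPred_eq] at hM
    subst hM
    obtain ⟨γ, a, b, d, ha, hd, hbd, had, -, hMeq⟩ := exists_upper M hm
    have hdet : (!![(a : ℤ), b; 0, d]).det = M.det := by rw [det_upper, had]
    refine ⟨⟨⟨!![(a : ℤ), b; 0, d], hdet⟩, ?_⟩, ?_⟩
    · simp only [FixedDetMatrices.reps]
      refine ⟨by simp, by simpa using ha, by simp, ?_⟩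
      simpa using hbd
    · simp only
      conv_rhs => rw [hMeq]
      rw [dM_SL_mul]
  · refine (Set.finite_singleton (0 : ℍ → ℂ)).subset ?_
    rintro _ ⟨M, hM, rfl⟩
    simp only [Set.mem_ofPred_eq] at hM
    subst hM
    simp [dM, dif_neg hm]

end SixReg
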