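import Mathlib
import Pool.Agent.Lib.MP_72e75e_nt.DeltaM

/-!
# Elementary symmetric functions of slash-stable finite sets
-/

namespace SixReg

open UpperHalfPlane ModularForm Complex Function PowerSeries
open scoped Manifold MatrixGroups Topology

theorem hasSum_expand {N : ℕ} [NeZero N] {f : ℍ → ℂ} (hf : Nice 1 f) (τ : ℍ) :
    HasSum (fun m => (expand N (NeZero.ne N) (qExpansion 1 f)).coeff m •
      Periodic.qParam (N : ℝ) τ ^ m) (f τ) := by
  have h1 := hasSum_qExpansion (h := 1) one_pos (by simpa using hf.per) hf.hol hf.bdd τ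
  have hNpos : 0 < N := Nat.pos_of_ne_zero (NeZero.ne N)
  have hinj : Function.Injective (fun n : ℕ => N * n) :=
    fun x y h => Nat.eq_of_mul_eq_mul_left hNpos h
  rw [← hinj.hasSum_iff]
  · convert! h1 using 2 with n
    simp only [comp_apply]
    rw [coeff_expand_mul]
    congr 1
    unfold Periodic.qParam
    rw [← Complex.exp_nat_mul, ← Complex.exp_nat_mul]
    congr 1
    have : (N : ℂ) ≠ 0 := by exact_mod_cast NeZero.ne N
    push_cast
    field_simp
  · intro m hm
    rw [coeff_expand_of_not_dvd, zero_smul]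
    rintro ⟨n, hn⟩
    exact hm ⟨n, hn.symm⟩

theorem Nice.expand {N : ℕ} [NeZero N] {f : ℍ → ℂ} (hf : Nice 1 f) : Nice N f ∧
    qExpansion (N : ℝ) f = PowerSeries.expand N (NeZero.ne N) (qExpansion 1 f) := by
  have hN : (0 : ℝ) < N := by exact_mod_cast Nat.pos_of_ne_zero (NeZero.ne N)
  have h1 : Nice N f := ⟨periodic_of_hasSum hN (hasSum_expand hf), hf.hol, hf.bdd⟩
  refine ⟨h1, ?_⟩
  ext n
  exact (coeff_eq_of_hasSum hN h1.analyticAt (hasSum_expand hf) n).symm

theorem nice_of_modularForm {w : ℤ} (f : ModularForm 𝒮ℒ w) : Nice 1 (f : ℍ → ℂ) where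
  per := by
    have := SlashInvariantFormClass.periodic_comp_ofComplex f one_mem_strictPeriods_SL
    simpa using this
  hol := ModularFormClass.holo f
  bdd := by
    have : Fact (IsCusp OnePoint.infty 𝒮ℒ) :=
      ⟨Subgroup.isCusp_of_mem_strictPeriods one_pos one_mem_strictPeriods_SL⟩
    exact ModularFormClass.bdd_at_infty f

/-- A level one form of weight `12 k` in `RR N` reduces to a polynomial of degree `≤ k`. -/
theorem red_levelOne {N : ℕ} [NeZero N] {κ : Type*} [CommRing κ] [CharP κ 2]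
    (ρ : integralClosure ℤ ℂ →+* κ) {k : ℕ} {w : ℤ} (hw : w = 12 * k)
    (f : ModularForm 𝒮ℒ w) (F : RR N) (hF : (F : ℍ → ℂ) = f) :
    ∃ P : Polynomial κ, P.natDegree ≤ k ∧
      red N ρ F = Polynomial.aeval (PowerSeries.expand N (NeZero.ne N) (Dk κ)) P := by
  have hexp := (nice_of_modularForm f).expand (N := N)
  have hint : ∀ n, IsIntegral ℤ ((qExpansion 1 (f : ℍ → ℂ)).coeff n) := by
    intro n
    have h1 := F.2.2 (N * n)
    rw [hF, hexp.2, coeff_expand_mul] at h1
    exact h1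
  obtain ⟨P, hP, hP2⟩ := levelOne_red ρ k w hw f hint
  refine ⟨P, hP, ?_⟩
  have h2 : qA N F = PowerSeries.expand N (NeZero.ne N) (liftA (qExpansion 1 (f : ℍ → ℂ)) hint) := by
    apply map_alg_injective
    rw [map_expand, map_liftA, ← hexp.2]
    ext n
    rw [PowerSeries.coeff_map, ← hF]
    exact coeff_qA F n
  have h3 : red N ρ F = PowerSeries.map ρ (qA N F) := rfl
  rw [h3, h2, map_expand, hP2]
  exact (Polynomial.aeval_algHom_apply (PowerSeries.expand N (NeZero.ne N)) (Dk κ) P).symm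

theorem map_esymm_multiset {R S : Type*} [CommSemiring R] [CommSemiring S] (φ : R →+* S)
    (m : Multiset R) (j : ℕ) : φ (m.esymm j) = (m.map φ).esymm j := by
  unfold Multiset.esymm
  rw [map_multiset_sum, Multiset.map_map, Multiset.powersetCard_map, Multiset.map_map]
  congr 1
  refine Multiset.map_congr rfl fun x _ => ?_
  simp [map_multiset_prod]

section Orbit

variable {N : ℕ} [NeZero N]

/-- The elements of `H` as elements of `RR N`. -/
noncomputable def msR (H : Finset (ℍ → ℂ)) (hmem : ∀ f ∈ H, f ∈ RR N) : Multiset (RR N) :=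
  H.attach.val.map fun f => ⟨f.1, hmem f.1 f.2⟩

theorem msR_eval (H : Finset (ℍ → ℂ)) (hmem : ∀ f ∈ H, f ∈ RR N) (j : ℕ) (τ : ℍ) :
    (((msR H hmem).esymm j : RR N) : ℍ → ℂ) τ = (H.val.map fun f => f τ).esymm j := by
  have h1 := map_esymm_multiset (((Pi.evalRingHom (fun _ : ℍ => ℂ) τ).comp (RR N).subtype))
    (msR H hmem) j
  have h2 : (msR H hmem).map ((Pi.evalRingHom (fun _ : ℍ => ℂ) τ).comp (RR N).subtype)
      = H.val.map fun f => f τ := by
    unfold msR
    rw [Multiset.map_map]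
    conv_rhs => rw [← Finset.attach_map_val (s := H)]
    rw [Finset.map_val, Multiset.map_map]
    rfl
  rw [h2] at h1
  exact h1

theorem map_slash_perm (H : Finset (ℍ → ℂ))
    (hst : ∀ f ∈ H, ∀ γ : SL(2, ℤ), f ∣[(12 : ℤ)] γ ∈ H) (γ : SL(2, ℤ)) :
    H.val.map (fun f => f ∣[(12 : ℤ)] γ) = H.val := by
  have hinj : Function.Injective (fun f : ℍ → ℂ => f ∣[(12 : ℤ)] γ) := by
    intro f g hfg
    have := congrArg (fun h : ℍ → ℂ => h ∣[(12 : ℤ)] γ⁻¹) hfg
    simpa [← SlashAction.slash_mul] using this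
  have h1 : H.map ⟨_, hinj⟩ = H := by
    apply Finset.eq_of_subset_of_card_le
    · intro x hx
      rw [Finset.mem_map] at hx
      obtain ⟨f, hf, rfl⟩ := hx
      exact hst f hf γ
    · rw [Finset.card_map]
  have h2 := congrArg Finset.val h1
  rw [Finset.map_val] at h2
  exact h2

/-- The elementary symmetric function as a level one modular form. -/
noncomputable def esymmForm (H : Finset (ℍ → ℂ)) (hmem : ∀ f ∈ H, f ∈ RR N)
    (hst : ∀ f ∈ H, ∀ γ : SL(2, ℤ), f ∣[(12 : ℤ)] γ ∈ H) (j : ℕ) :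
    ModularForm 𝒮ℒ (12 * j : ℤ) := by
  have hslash : ∀ γ : SL(2, ℤ),
      (((msR H hmem).esymm j : RR N) : ℍ → ℂ) ∣[(12 * j : ℤ)] γ
        = (((msR H hmem).esymm j : RR N) : ℍ → ℂ) := by
    intro γ
    ext τ
    rw [SL_slash_apply, msR_eval, msR_eval]
    have hden : denom γ τ ≠ 0 := denom_ne_zero _ _
    have h1 : (H.val.map fun f => f (γ • τ))
        = (H.val.map fun f => f τ).map fun x => (denom γ τ ^ 12) • x := by
      conv_rhs => rw [← map_slash_perm H hst γ]
      rw [Multiset.map_map, Multiset.map_map]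
      refine Multiset.map_congr rfl fun f _ => ?_
      simp only [comp_apply]
      rw [SL_slash_apply, smul_eq_mul, show (-12 : ℤ) = -((12 : ℕ) : ℤ) by norm_num, zpow_neg,
        zpow_natCast]
      field_simp
    rw [h1, ← Multiset.pow_smul_esymm, smul_eq_mul, zpow_neg,
      show (12 * j : ℤ) = ((12 * j : ℕ) : ℤ) by push_cast; ring, zpow_natCast, ← pow_mul]
    field_simp
  exact
  { toFun := (((msR H hmem).esymm j : RR N) : ℍ → ℂ)
    slash_action_eq' := by
      rintro _ ⟨γ, rfl⟩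
      exact hslash γ
    holo' := ((msR H hmem).esymm j).2.1.hol
    bdd_at_cusps' := by
      intro c hc
      rw [Subgroup.IsArithmetic.isCusp_iff_isCusp_SL2Z] at hc
      rw [OnePoint.isBoundedAt_iff_forall_SL2Z hc]
      intro γ _
      rw [hslash γ]
      exact ((msR H hmem).esymm j).2.1.bdd }

theorem coe_esymmForm (H : Finset (ℍ → ℂ)) (hmem : ∀ f ∈ H, f ∈ RR N)
    (hst : ∀ f ∈ H, ∀ γ : SL(2, ℤ), f ∣[(12 : ℤ)] γ ∈ H) (j : ℕ) :
    (((msR H hmem).esymm j : RR N) : ℍ → ℂ) = esymmForm H hmem hst j := rfl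

theorem esymm_red {κ : Type*} [CommRing κ] [CharP κ 2] (ρ : integralClosure ℤ ℂ →+* κ)
    (H : Finset (ℍ → ℂ)) (hmem : ∀ f ∈ H, f ∈ RR N)
    (hst : ∀ f ∈ H, ∀ γ : SL(2, ℤ), f ∣[(12 : ℤ)] γ ∈ H) (j : ℕ) :
    ∃ P : Polynomial κ, P.natDegree ≤ j ∧
      ((msR H hmem).map (red N ρ)).esymm j
        = Polynomial.aeval (PowerSeries.expand N (NeZero.ne N) (Dk κ)) P := by
  obtain ⟨P, hP, hP2⟩ := red_levelOne (N := N) ρ (k := j) rfl (esymmForm H hmem hst j)
    ((msR H hmem).esymm j) (coe_esymmForm H hmem hst j)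
  exact ⟨P, hP, by rw [← map_esymm_multiset, hP2]⟩

end Orbit

end SixReg
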