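import Mathlib
import Pool.Agent.Lib.MP_72e75e_nt.Orbit

/-!
# The reduced family `δ_M` and its orbit polynomials
-/

namespace SixReg

open UpperHalfPlane ModularForm Complex Function PowerSeries
open scoped Manifold MatrixGroups Topology

variable {κ : Type*} [CommRing κ] [CharP κ 2] (ρ : integralClosure ℤ ℂ →+* κ) (N : ℕ) [NeZero N]

open Classical in
/-- The reduction of `dM M`. -/
noncomputable def dl (M : Matrix (Fin 2) (Fin 2) ℤ) : PowerSeries κ :=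
  if h : 0 < M.det ∧ M.det ∣ N then red N ρ ⟨dM M, dM_mem h.1 h.2⟩ else 0

omit [CharP κ 2] in
theorem dl_eq {M : Matrix (Fin 2) (Fin 2) ℤ} (h : 0 < M.det ∧ M.det ∣ N) :
    dl ρ N M = red N ρ ⟨dM M, dM_mem h.1 h.2⟩ := by
  unfold dl
  rw [dif_pos h]

omit [CharP κ 2] in
theorem dl_SL_mul (γ : SL(2, ℤ)) (M : Matrix (Fin 2) (Fin 2) ℤ) :
    dl ρ N ((γ : Matrix (Fin 2) (Fin 2) ℤ) * M) = dl ρ N M := by
  have hdet : ((γ : Matrix (Fin 2) (Fin 2) ℤ) * M).det = M.det := by simp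
  by_cases h : 0 < M.det ∧ M.det ∣ N
  · have h' : 0 < ((γ : Matrix (Fin 2) (Fin 2) ℤ) * M).det ∧
        ((γ : Matrix (Fin 2) (Fin 2) ℤ) * M).det ∣ N := by rwa [hdet]
    rw [dl_eq ρ N h, dl_eq ρ N h']
    congr 1
    exact Subtype.ext (dM_SL_mul γ M)
  · have h' : ¬ (0 < ((γ : Matrix (Fin 2) (Fin 2) ℤ) * M).det ∧
        ((γ : Matrix (Fin 2) (Fin 2) ℤ) * M).det ∣ N) := by rwa [hdet]
    unfold dl
    rw [dif_neg h, dif_neg h']

/-- The reduced root of unity. -/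
noncomputable def om : κ := ρ ⟨ζ N, ζ_integral N⟩

theorem rho_odd {a : ℕ} (ha : Odd a) : ρ (a : integralClosure ℤ ℂ) = 1 := by
  rw [map_natCast]
  obtain ⟨k, rfl⟩ := ha
  have h2 : ((2 : ℕ) : κ) = 0 := CharP.cast_eq_zero κ 2
  push_cast at h2 ⊢
  rw [h2]
  ring

theorem dl_upper {a b d : ℕ} (ha : Odd a) (hd : 0 < d) (hadN : a * d ∣ N) (he : N / d * a ≠ 0) :
    dl ρ N !![(a : ℤ), b; 0, d]
      = PowerSeries.expand (N / d * a) he (PowerSeries.rescale (om ρ N ^ (N / d * b)) (Dk κ)) := by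
  have hapos : 0 < a := ha.pos
  have hdN : d ∣ N := (Dvd.intro_left _ rfl).trans hadN
  have hdet : 0 < (!![(a : ℤ), b; 0, d]).det ∧ (!![(a : ℤ), b; 0, d]).det ∣ N := by
    rw [det_upper]
    refine ⟨by positivity, ?_⟩
    exact_mod_cast hadN
  rw [dl_eq ρ N hdet]
  ext n
  rw [coeff_red, coeff_expand]
  have hc := (dM_mem_upper (N := N) (b := b) hapos hd hdN).2 n
  split_ifs with h
  · rw [coeff_rescale]
    have hA : (⟨(qExpansion (N : ℝ) (dM !![(a : ℤ), b; 0, d])).coeff n,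
        (dM_mem hdet.1 hdet.2).2 n⟩ : integralClosure ℤ ℂ)
        = (a : integralClosure ℤ ℂ) ^ 12 *
          (((⟨ζ N, ζ_integral N⟩ : integralClosure ℤ ℂ) ^ (N / d * b)) ^ (n / (N / d * a)) *
          ((coeff (n / (N / d * a)) DeltaZ : ℤ) : integralClosure ℤ ℂ)) := by
      apply Subtype.ext
      simp only
      rw [hc, dSer, if_pos h]
      push_cast
      ring
    rw [hA, map_mul, map_pow, rho_odd ρ ha, one_pow, one_mul, map_mul, map_pow, map_pow,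
      map_intCast, Dk, PowerSeries.coeff_map]
    rfl
  · have hA : (⟨(qExpansion (N : ℝ) (dM !![(a : ℤ), b; 0, d])).coeff n,
        (dM_mem hdet.1 hdet.2).2 n⟩ : integralClosure ℤ ℂ) = 0 := by
      apply Subtype.ext
      simp only
      rw [hc, dSer, if_neg h]
      rfl
    rw [hA, map_zero]

/-- The main analytic interface: orbit polynomials have coefficients in `κ[D]`. -/
theorem orbit_interface (hρ : Function.Surjective ρ) {ι : Type*} [Fintype ι]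
    (Ms : ι → Matrix (Fin 2) (Fin 2) ℤ) (hMs : ∀ i, 0 < (Ms i).det ∧ (Ms i).det ∣ N)
    (s : ι → κ) :
    ∃ m : Multiset (PowerSeries κ),
      (∑ i, C (s i) * dl ρ N (Ms i)) ∈ m ∧
      (∀ x ∈ m, ∃ γ : SL(2, ℤ), x = ∑ i, C (s i) * dl ρ N (Ms i * (γ : Matrix (Fin 2) (Fin 2) ℤ))) ∧
      (∀ j, ∃ P : Polynomial κ, P.natDegree ≤ j ∧
        m.esymm j = Polynomial.aeval (PowerSeries.expand N (NeZero.ne N) (Dk κ)) P) := by
  classical
  choose sh hsh using fun i => hρ (s i)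
  -- the function
  let h : SL(2, ℤ) → (ℍ → ℂ) := fun γ =>
    ∑ i, ((sh i : ℂ) • dM (Ms i * (γ : Matrix (Fin 2) (Fin 2) ℤ)))
  have hdet : ∀ i (γ : SL(2, ℤ)), 0 < (Ms i * (γ : Matrix (Fin 2) (Fin 2) ℤ)).det ∧
      (Ms i * (γ : Matrix (Fin 2) (Fin 2) ℤ)).det ∣ N := by
    intro i γ
    have : (Ms i * (γ : Matrix (Fin 2) (Fin 2) ℤ)).det = (Ms i).det := by simp
    rw [this]; exact hMs i
  -- lifted element
  let hR : SL(2, ℤ) → RR N := fun γ =>
    ∑ i, (⟨fun _ => (sh i : ℂ), const_mem_RR (sh i).2⟩ *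
      ⟨dM (Ms i * (γ : Matrix (Fin 2) (Fin 2) ℤ)), dM_mem (hdet i γ).1 (hdet i γ).2⟩ : RR N)
  have hhR : ∀ γ, ((hR γ : RR N) : ℍ → ℂ) = h γ := by
    intro γ
    simp only [hR, h]
    rw [AddSubmonoidClass.coe_finsetSum]
    refine Finset.sum_congr rfl fun i _ => ?_
    ext τ
    simp [Pi.mul_apply]
  have hslash : ∀ γ δ : SL(2, ℤ), (h γ) ∣[(12 : ℤ)] δ = h (γ * δ) := by
    intro γ δ
    simp only [h]
    rw [SlashAction.sum_slash]
    refine Finset.sum_congr rfl fun i _ => ?_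
    rw [SL_smul_slash, dM_slash]
    congr 2
    simp [Matrix.mul_assoc]
  have hfin : (Set.range h).Finite := by
    have hf1 : (Set.univ.pi fun i => (dM '' {M | M.det = (Ms i).det})).Finite :=
      Set.Finite.pi fun i => finite_dM _
    refine (hf1.image fun g : ι → (ℍ → ℂ) => ∑ i, ((sh i : ℂ) • g i)).subset ?_
    rintro _ ⟨γ, rfl⟩
    refine ⟨fun i => dM (Ms i * (γ : Matrix (Fin 2) (Fin 2) ℤ)), ?_, rfl⟩
    intro i _
    exact ⟨_, by simp, rfl⟩
  let H : Finset (ℍ → ℂ) := hfin.toFinset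
  have hH : ∀ f, f ∈ H ↔ ∃ γ, h γ = f := by
    intro f
    simp [H]
  have hmem : ∀ f ∈ H, f ∈ RR N := by
    intro f hf
    obtain ⟨γ, rfl⟩ := (hH f).mp hf
    rw [← hhR]
    exact (hR γ).2
  have hst : ∀ f ∈ H, ∀ γ : SL(2, ℤ), f ∣[(12 : ℤ)] γ ∈ H := by
    intro f hf δ
    obtain ⟨γ, rfl⟩ := (hH f).mp hf
    rw [hslash]
    exact (hH _).mpr ⟨_, rfl⟩
  have hred : ∀ (f : RR N) (γ : SL(2, ℤ)), (f : ℍ → ℂ) = h γ →
      red N ρ f = ∑ i, C (s i) * dl ρ N (Ms i * (γ : Matrix (Fin 2) (Fin 2) ℤ)) := by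
    intro f γ hf
    have : f = hR γ := Subtype.ext (by rw [hf, hhR])
    rw [this]
    simp only [hR]
    rw [map_sum]
    refine Finset.sum_congr rfl fun i _ => ?_
    rw [map_mul, dl_eq ρ N (hdet i γ)]
    congr 1
    rw [← hsh i]
    ext n
    rw [coeff_red, PowerSeries.coeff_C]
    have h1 : (fun _ => (sh i : ℂ) : ℍ → ℂ) = (sh i : ℂ) • (1 : ℍ → ℂ) := by ext; simp
    have h2 : qExpansion (N : ℝ) (fun _ => (sh i : ℂ) : ℍ → ℂ) = (sh i : ℂ) • 1 := by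
      rw [h1, qExpansion_smul (Nice.one N).analyticAt, qExpansion_one]
    split_ifs with hn
    · congr 1
      apply Subtype.ext
      simp only
      rw [h2, hn]
      simp
    · rw [← map_zero ρ]
      congr 1
      apply Subtype.ext
      simp only
      rw [h2]
      simp [PowerSeries.coeff_one, hn]
  refine ⟨(msR H hmem).map (red N ρ), ?_, ?_, esymm_red ρ H hmem hst⟩
  · rw [Multiset.mem_map]
    have h1 : h 1 ∈ H := (hH _).mpr ⟨1, rfl⟩
    refine ⟨⟨h 1, hmem _ h1⟩, ?_, ?_⟩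
    · unfold msR
      rw [Multiset.mem_map]
      exact ⟨⟨h 1, h1⟩, Multiset.mem_attach _ _, rfl⟩
    · rw [hred _ 1 rfl]
      simp
  · intro x hx
    rw [Multiset.mem_map] at hx
    obtain ⟨f, hf, rfl⟩ := hx
    unfold msR at hf
    rw [Multiset.mem_map] at hf
    obtain ⟨⟨g, hg⟩, _, rfl⟩ := hf
    obtain ⟨γ, rfl⟩ := (hH g).mp hg
    exact ⟨γ, hred _ γ rfl⟩

end SixReg
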