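import Mathlib

/-!
# Facts on Laurent series over a field (characteristic two)
-/

namespace SixReg

open PowerSeries

variable {κ : Type*} [Field κ]

/-- the embedding of power series in Laurent series. -/
noncomputable abbrev io : PowerSeries κ →+* LaurentSeries κ := HahnSeries.ofPowerSeries ℤ κ

theorem coeff_io (P : PowerSeries κ) (n : ℕ) : (io P).coeff (n : ℤ) = PowerSeries.coeff n P :=
  HahnSeries.ofPowerSeries_apply_coeff P n

theorem coeff_io_neg (P : PowerSeries κ) {n : ℤ} (hn : n < 0) : (io P).coeff n = 0 := by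
  have := PowerSeries.coeff_coe (f := P) n
  rw [if_pos hn] at this
  exact this

theorem io_injective : Function.Injective (io : PowerSeries κ →+* LaurentSeries κ) :=
  HahnSeries.ofPowerSeries_injective

theorem io_C (c : κ) : io (C c) = (HahnSeries.C c : LaurentSeries κ) :=
  HahnSeries.ofPowerSeries_C c

/-- the underlying function of the rotation. -/
noncomputable def rotFun (w : κˣ) (x : LaurentSeries κ) : LaurentSeries κ where
  coeff n := ((w ^ n : κˣ) : κ) * x.coeff n
  isPWO_support' := x.isPWO_support.mono fun n hn => by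
    simp only [Function.mem_support] at hn
    exact fun h => hn (by rw [h, mul_zero])

theorem coeff_rotFun (w : κˣ) (x : LaurentSeries κ) (n : ℤ) :
    (rotFun w x).coeff n = ((w ^ n : κˣ) : κ) * x.coeff n := rfl

theorem support_rotFun (w : κˣ) (x : LaurentSeries κ) : (rotFun w x).support = x.support := by
  ext n
  rw [HahnSeries.mem_support, HahnSeries.mem_support, coeff_rotFun]
  exact ⟨right_ne_zero_of_mul, mul_ne_zero (Units.ne_zero _)⟩

/-- rotation `t ↦ w t` on Laurent series. -/
noncomputable def rot (w : κˣ) : LaurentSeries κ ≃+* LaurentSeries κ where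
  toFun := rotFun w
  invFun := rotFun w⁻¹
  left_inv x := by
    ext n
    rw [coeff_rotFun, coeff_rotFun, ← mul_assoc, ← Units.val_mul, ← mul_zpow, inv_mul_cancel,
      one_zpow, Units.val_one, one_mul]
  right_inv x := by
    ext n
    rw [coeff_rotFun, coeff_rotFun, ← mul_assoc, ← Units.val_mul, ← mul_zpow, mul_inv_cancel,
      one_zpow, Units.val_one, one_mul]
  map_mul' x y := by
    ext n
    rw [coeff_rotFun, HahnSeries.coeff_mul, HahnSeries.coeff_mul, Finset.mul_sum]
    refine Finset.sum_congr ?_ fun ij hij => ?_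
    · ext ij
      have hw : ∀ k : ℤ, (w : κ) ^ k ≠ 0 := fun k => zpow_ne_zero _ w.ne_zero
      simp [coeff_rotFun, hw]
    · have h : ij.1 + ij.2 = n := by
        simp at hij
        exact hij.2.2
      rw [coeff_rotFun, coeff_rotFun, ← h, zpow_add, Units.val_mul]
      ring
  map_add' x y := by
    ext n
    simp [coeff_rotFun, mul_add]

theorem coeff_rot (w : κˣ) (x : LaurentSeries κ) (n : ℤ) :
    (rot w x).coeff n = ((w ^ n : κˣ) : κ) * x.coeff n := rfl

theorem rot_io (w : κˣ) (P : PowerSeries κ) : rot w (io P) = io (rescale (w : κ) P) := by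
  ext n
  rw [coeff_rot]
  rcases lt_or_ge n 0 with h | h
  · rw [coeff_io_neg _ h, coeff_io_neg _ h, mul_zero]
  · obtain ⟨m, rfl⟩ := Int.eq_ofNat_of_zero_le h
    rw [coeff_io, coeff_io, coeff_rescale]
    simp

theorem rot_C (w : κˣ) (c : κ) :
    rot w (HahnSeries.C c : LaurentSeries κ) = HahnSeries.C c := by
  rw [← io_C, rot_io]
  congr 1
  ext n
  rw [coeff_rescale, coeff_C]
  split_ifs with h
  · rw [h, pow_zero, one_mul]
  · rw [mul_zero]

/-- all exponents of `x` are congruent to `c` modulo `m`. -/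
def Cls (m : ℕ) (c : ℤ) (x : LaurentSeries κ) : Prop :=
  ∀ n : ℤ, x.coeff n ≠ 0 → n ≡ c [ZMOD m]

theorem Cls.mul {m : ℕ} {c d : ℤ} {x y : LaurentSeries κ} (hx : Cls m c x) (hy : Cls m d y) :
    Cls m (c + d) (x * y) := by
  intro n hn
  rw [HahnSeries.coeff_mul] at hn
  obtain ⟨ij, hij, hne⟩ := Finset.exists_ne_zero_of_sum_ne_zero hn
  have h : ij.1 + ij.2 = n := by
    simp at hij
    exact hij.2.2
  rw [← h]
  exact (hx _ (left_ne_zero_of_mul hne)).add (hy _ (right_ne_zero_of_mul hne))

theorem Cls.pow {m : ℕ} {c : ℤ} {x : LaurentSeries κ} (hx : Cls m c x) (k : ℕ) :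
    Cls m (k * c) (x ^ k) := by
  induction k with
  | zero =>
    intro n hn
    rw [pow_zero, HahnSeries.coeff_one] at hn
    have : n = 0 := by
      by_contra h
      exact hn (if_neg h)
    rw [this]
    simp
  | succ k ih =>
    have := ih.mul hx
    rw [pow_succ]
    convert this using 2
    push_cast
    ring

theorem coeff_sq_ne_zero [CharP κ 2] (y : LaurentSeries κ) (n : ℤ) (h : (y ^ 2).coeff n ≠ 0) :
    ∃ i, n = i + i ∧ y.coeff i ≠ 0 := by
  by_contra hcon
  push Not at hcon
  apply h
  rw [sq, HahnSeries.coeff_mul]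
  refine Finset.sum_involution (fun ij _ => (ij.2, ij.1)) ?_ ?_ ?_ ?_
  · intro ij _
    have : y.coeff ij.1 * y.coeff ij.2 + y.coeff ij.2 * y.coeff ij.1
        = y.coeff ij.1 * y.coeff ij.2 * 2 := by ring
    rw [this, CharTwo.two_eq_zero, mul_zero]
  · intro ij hij hne heq
    have h1 : ij.1 + ij.2 = n := by
      simp at hij
      exact hij.2.2
    have h2 : ij.2 = ij.1 := congrArg Prod.fst heq
    rw [h2] at h1
    exact (left_ne_zero_of_mul hne) (hcon _ h1.symm)
  · intro ij hij
    simp at hij ⊢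
    exact ⟨hij.2.1, hij.1, by rw [add_comm]; exact hij.2.2⟩
  · intro ij _
    rfl

theorem cls_frob [CharP κ 2] (s : ℕ) (x : LaurentSeries κ) : Cls (2 ^ s) 0 (x ^ (2 ^ s)) := by
  induction s with
  | zero =>
    intro n _
    simp [Int.modEq_one]
  | succ s ih =>
    intro n hn
    rw [pow_succ, pow_mul] at hn
    obtain ⟨i, hi, hne⟩ := coeff_sq_ne_zero _ _ hn
    have h1 := (Int.modEq_zero_iff_dvd).mp (ih i hne)
    rw [Int.modEq_zero_iff_dvd, hi, ← two_mul]
    push_cast at h1 ⊢
    rw [pow_succ, mul_comm]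
    exact mul_dvd_mul_left 2 h1

/-- an element of odd order is not a square. -/
theorem not_sq_of_odd_order {x : LaurentSeries κ} (hx : x ≠ 0) (h : Odd x.order)
    (y : LaurentSeries κ) : y ^ 2 ≠ x := by
  rintro rfl
  have hy : y ≠ 0 := by
    rintro rfl
    simp at hx
  rw [sq, HahnSeries.order_mul hy hy] at h
  obtain ⟨k, hk⟩ := h
  omega

/-- order from the leading coefficient. -/
theorem order_eq_of {x : LaurentSeries κ} {n : ℤ} (h1 : x.coeff n ≠ 0)
    (h2 : ∀ m < n, x.coeff m = 0) : x ≠ 0 ∧ x.order = n := by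
  have hx : x ≠ 0 := by
    rintro rfl
    simp at h1
  refine ⟨hx, le_antisymm (HahnSeries.order_le_of_coeff_ne_zero h1) ?_⟩
  by_contra hlt
  push Not at hlt
  exact hx (HahnSeries.coeff_order_eq_zero.mp (h2 _ hlt))

/-- `expand e (rescale c P)` for a series `P = X + ...`, `c ≠ 0`. -/
theorem order_expand_rescale {P : PowerSeries κ} (h0 : coeff 0 P = 0) (h1 : coeff 1 P = 1)
    {c : κ} (hc : c ≠ 0) {e : ℕ} (he : e ≠ 0) :
    io (PowerSeries.expand e he (rescale c P)) ≠ 0 ∧
      (io (PowerSeries.expand e he (rescale c P))).order = e := by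
  apply order_eq_of
  · rw [coeff_io, coeff_expand, if_pos dvd_rfl, Nat.div_self (Nat.pos_of_ne_zero he),
      coeff_rescale, h1]
    simpa using hc
  · intro m hm
    rcases lt_or_ge m 0 with h | h
    · exact coeff_io_neg _ h
    · obtain ⟨k, rfl⟩ := Int.eq_ofNat_of_zero_le h
      rw [coeff_io, coeff_expand]
      split_ifs with hd
      · have hk : k < e := by exact_mod_cast hm
        have : k = 0 := Nat.eq_zero_of_dvd_of_lt hd hk
        rw [this, Nat.zero_div, coeff_rescale, h0, mul_zero]
      · rfl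

end SixReg
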