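import Mathlib
import Pool.Agent.Lib.MP_72e75e_nt.LevelOne
import Pool.Agent.Lib.MP_72e75e_nt.Laurent

/-!
# The fields `E = κ(D)` and `B` = its algebraic closure in Laurent series
-/

namespace SixReg

open PowerSeries

/-- The field data: `E = κ(D)`, `B` = algebraic closure of `E` inside Laurent series. -/
structure GD (κ : Type) [Field κ] (N : ℕ) [NeZero N] (E B : Type) [Field E] [Field B]
    [Algebra κ E] [Algebra E B] where
  /-- embedding in Laurent series -/
  v : B →+* LaurentSeries κ
  /-- the discriminant -/
  D : E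
  hD : v (algebraMap E B D) = io (PowerSeries.expand N (NeZero.ne N) (Dk κ))
  hC : ∀ c : κ, v (algebraMap E B (algebraMap κ E c)) = HahnSeries.C c
  hE : ∀ e : E, ∃ p q : Polynomial κ, Polynomial.aeval D q ≠ 0 ∧
    e = Polynomial.aeval D p / Polynomial.aeval D q
  hB : ∀ x : LaurentSeries κ, (∃ P : Polynomial E, P ≠ 0 ∧
    P.eval₂ (v.comp (algebraMap E B)) x = 0) → ∃ y : B, v y = x

theorem exists_GD (κ : Type) [Field κ] (N : ℕ) [NeZero N] :
    ∃ (E B : Type) (_ : Field E) (_ : Field B) (_ : Algebra κ E) (_ : Algebra E B),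
      Algebra.IsAlgebraic E B ∧ Nonempty (GD κ N E B) := by
  let Dx : LaurentSeries κ := io (PowerSeries.expand N (NeZero.ne N) (Dk κ))
  let E := IntermediateField.adjoin κ {Dx}
  let B := algebraicClosure E (LaurentSeries κ)
  have hmem : Dx ∈ E := IntermediateField.mem_adjoin_simple_self κ Dx
  refine ⟨E, B, inferInstance, inferInstance, inferInstance, inferInstance, ?_, ⟨?_⟩⟩
  · infer_instance
  · refine
      { v := (B.val : B →+* LaurentSeries κ)
        D := ⟨Dx, hmem⟩
        hD := rfl
        hC := ?_
        hE := ?_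
        hB := ?_ }
    · intro c
      change algebraMap κ (LaurentSeries κ) c = HahnSeries.C c
      rw [HahnSeries.algebraMap_apply', ← io_C]
      rfl
    · intro e
      obtain ⟨p, q, h⟩ := (IntermediateField.mem_adjoin_simple_iff κ (e : LaurentSeries κ)).mp e.2
      have hcoe : ∀ r : Polynomial κ, ((Polynomial.aeval (⟨Dx, hmem⟩ : E) r : E) :
          LaurentSeries κ) = Polynomial.aeval Dx r := by
        intro r
        have := Polynomial.aeval_algHom_apply E.val (⟨Dx, hmem⟩ : E) r
        exact this.symm
      by_cases hq : Polynomial.aeval Dx q = 0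
      · refine ⟨0, 1, by simp, ?_⟩
        rw [hq, div_zero] at h
        apply Subtype.ext
        simp [h]
      · refine ⟨p, q, ?_, ?_⟩
        · intro h0
          apply hq
          rw [← hcoe, h0]
          rfl
        · apply Subtype.ext
          rw [h]
          push_cast
          rw [hcoe, hcoe]
    · rintro x ⟨P, hP, hx⟩
      have : IsAlgebraic E x := by
        refine ⟨P, hP, ?_⟩
        rw [Polynomial.aeval_def]
        exact hx
      exact ⟨⟨x, mem_algebraicClosure_iff.mpr this⟩, rfl⟩

end SixReg
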