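import Mathlib
import Pool.Agent.Lib.MP_72e75e_nt.Ctx

/-!
# Separability of `B / E`, fixed elements, lift of the rotation
-/

namespace SixReg

open PowerSeries

variable {κ : Type} [Field κ] [CharP κ 2] [IsAlgClosed κ] {N : ℕ} [NeZero N]
  {E B : Type} [Field E] [Field B] [Algebra κ E] [Algebra E B] (g : GD κ N E B)

omit [IsAlgClosed κ] [CharP κ 2] in
theorem coeff_Dk_zero : coeff 0 (Dk κ) = 0 := by
  unfold Dk DeltaZ
  simp

omit [IsAlgClosed κ] [CharP κ 2] in
theorem coeff_Dk_one : coeff 1 (Dk κ) = 1 := by
  have h1 : constantCoeff (PowerSeries.pentagonalSeries ℤ) = 1 := by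
    have := PowerSeries.coeff_pentagonalSeries_pentagonal ℤ 0
    simpa [pentagonal_def] using this
  unfold Dk DeltaZ
  rw [PowerSeries.coeff_map, show (1 : ℕ) = 0 + 1 from rfl, coeff_succ_X_mul]
  simp [h1]

omit [IsAlgClosed κ] [CharP κ 2] in
include g in
theorem GD.v_D : g.v (algebraMap E B g.D) ≠ 0 ∧ (g.v (algebraMap E B g.D)).order = N := by
  rw [g.hD]
  have h := order_expand_rescale (κ := κ) (P := Dk κ) coeff_Dk_zero coeff_Dk_one one_ne_zero
    (NeZero.ne N)
  simpa [PowerSeries.rescale_one] using h

omit [IsAlgClosed κ] [CharP κ 2] in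
theorem GD.v_inj : Function.Injective g.v := g.v.injective

omit [IsAlgClosed κ] [CharP κ 2] in
include g in
theorem GD.D_ne : g.D ≠ 0 := by
  intro h
  apply g.v_D.1
  rw [h, map_zero, map_zero]

omit [IsAlgClosed κ] in
include g in
theorem GD.charE : CharP E 2 := by
  exact charP_of_injective_algebraMap (algebraMap κ E).injective 2

omit [IsAlgClosed κ] in
include g in
theorem GD.charB : CharP B 2 := by
  have := g.charE
  exact charP_of_injective_algebraMap (algebraMap E B).injective 2

omit [IsAlgClosed κ] [CharP κ 2] in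
include g in
theorem GD.not_sq (hN : Odd N) (y : B) : y ^ 2 ≠ algebraMap E B g.D := by
  intro h
  have h1 : (g.v y) ^ 2 = g.v (algebraMap E B g.D) := by rw [← h, map_pow]
  refine not_sq_of_odd_order g.v_D.1 ?_ (g.v y) h1
  rw [g.v_D.2]
  exact_mod_cast hN

/-- every element of `E` is `a^2 + D b^2`. -/
theorem GD.decE (e : E) : ∃ a b : E, e = a ^ 2 + g.D * b ^ 2 := by
  have hE2 := g.charE
  have hpoly : ∀ P : Polynomial κ, ∃ a b : E, Polynomial.aeval g.D P = a ^ 2 + g.D * b ^ 2 := by
    intro P
    induction P using Polynomial.induction_on' with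
    | add p q hp hq =>
      obtain ⟨a, b, h1⟩ := hp
      obtain ⟨c, d, h2⟩ := hq
      refine ⟨a + c, b + d, ?_⟩
      rw [map_add, h1, h2, CharTwo.add_sq, CharTwo.add_sq]
      ring
    | monomial n c =>
      obtain ⟨r, hr⟩ := IsAlgClosed.exists_pow_nat_eq c (n := 2) (by norm_num)
      rcases Nat.even_or_odd' n with ⟨k, rfl | rfl⟩
      · refine ⟨algebraMap κ E r * g.D ^ k, 0, ?_⟩
        rw [Polynomial.aeval_monomial, ← hr, map_pow]
        ring
      · refine ⟨0, algebraMap κ E r * g.D ^ k, ?_⟩
        rw [Polynomial.aeval_monomial, ← hr, map_pow]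
        ring
  obtain ⟨p, q, hq, rfl⟩ := g.hE e
  obtain ⟨a, b, h⟩ := hpoly (p * q)
  refine ⟨a / Polynomial.aeval g.D q, b / Polynomial.aeval g.D q, ?_⟩
  rw [map_mul] at h
  field_simp
  linear_combination h

/-- splitting of a polynomial in `X^2`. -/
theorem GD.poly_split (P : Polynomial E) : ∃ P1 P2 : Polynomial E,
    Polynomial.expand E 2 P = P1 ^ 2 + Polynomial.C g.D * P2 ^ 2 ∧
      P1.natDegree ≤ P.natDegree ∧ P2.natDegree ≤ P.natDegree := by
  have hE2 := g.charE
  choose a b hab using g.decE
  have hf : Fact (Nat.Prime 2) := ⟨Nat.prime_two⟩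
  have key : ∀ c : E → E, ∃ P1 : Polynomial E, (∀ n, P1.coeff n = if n ≤ P.natDegree then c (P.coeff n)
      else 0) ∧ P1.natDegree ≤ P.natDegree := by
    intro c
    refine ⟨∑ i ∈ Finset.range (P.natDegree + 1), Polynomial.monomial i (c (P.coeff i)), ?_, ?_⟩
    · intro n
      rw [Polynomial.finsetSum_coeff]
      simp only [Polynomial.coeff_monomial]
      rw [Finset.sum_ite_eq']
      simp
    · refine Polynomial.natDegree_sum_le_of_forall_le _ _ ?_
      intro i hi
      refine (Polynomial.natDegree_monomial_le _).trans ?_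
      simpa [Nat.lt_succ_iff] using hi
  obtain ⟨P1, h1, d1⟩ := key a
  obtain ⟨P2, h2, d2⟩ := key b
  refine ⟨P1, P2, ?_, d1, d2⟩
  rw [← Polynomial.map_frobenius_expand (R := E) 2 P1, ← Polynomial.map_frobenius_expand (R := E) 2 P2]
  ext n
  rw [Polynomial.coeff_add, Polynomial.coeff_C_mul, Polynomial.coeff_map, Polynomial.coeff_map,
    Polynomial.coeff_expand (by norm_num), Polynomial.coeff_expand (by norm_num),
    Polynomial.coeff_expand (by norm_num)]
  by_cases hn : 2 ∣ n
  · rw [if_pos hn, if_pos hn, if_pos hn, h1, h2]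
    by_cases hd : n / 2 ≤ P.natDegree
    · rw [if_pos hd, if_pos hd, frobenius_def, frobenius_def]
      exact hab _
    · rw [if_neg hd, if_neg hd, Polynomial.coeff_eq_zero_of_natDegree_lt (by omega)]
      simp
  · rw [if_neg hn, if_neg hn, if_neg hn]
    simp

variable [Algebra.IsAlgebraic E B]

include g in
theorem GD.sep (hN : Odd N) (x : B) : (minpoly E x).Separable := by
  have hE2 := g.charE
  have hB2 := g.charB
  have hint : IsIntegral E x := Algebra.IsIntegral.isIntegral x
  have hirr := minpoly.irreducible hint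
  rcases Polynomial.separable_or 2 hirr with h | ⟨_, q, hq, hexp⟩
  · exact h
  · exfalso
    obtain ⟨P1, P2, hsplit, d1, d2⟩ := g.poly_split q
    have heval : (Polynomial.aeval x P1) ^ 2 + algebraMap E B g.D * (Polynomial.aeval x P2) ^ 2
        = 0 := by
      have h0 := minpoly.aeval E x
      rw [← hexp, hsplit] at h0
      simpa using h0
    have h2 : Polynomial.aeval x P2 = 0 := by
      by_contra hne
      refine g.not_sq hN (Polynomial.aeval x P1 / Polynomial.aeval x P2) ?_
      rw [div_pow]
      have : (Polynomial.aeval x P1) ^ 2 = algebraMap E B g.D * (Polynomial.aeval x P2) ^ 2 := by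
        rw [← sub_eq_zero, CharTwo.sub_eq_add]
        exact heval
      rw [this, mul_div_assoc, div_self (pow_ne_zero 2 hne), mul_one]
    have h1 : Polynomial.aeval x P1 = 0 := by
      rw [h2] at heval
      simpa using heval
    have hqd : 0 < q.natDegree := hq.natDegree_pos
    have hdeg : (minpoly E x).natDegree = q.natDegree * 2 := by
      rw [← hexp, Polynomial.natDegree_expand]
    have hz : ∀ R : Polynomial E, Polynomial.aeval x R = 0 → R.natDegree ≤ q.natDegree → R = 0 := by
      intro R hR hd
      by_contra hne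
      have := Polynomial.natDegree_le_natDegree (minpoly.degree_le_of_ne_zero E x hne hR)
      omega
    rw [hz P1 h1 d1, hz P2 h2 d2] at hsplit
    have : minpoly E x = 0 := by
      rw [← hexp, hsplit]
      simp
    exact minpoly.ne_zero hint this

variable {A : Type} [Field A] [Algebra B A] [Algebra E A] [IsScalarTower E B A] [IsAlgClosure B A]

include g in
theorem GD.fixed (hN : Odd N) (x : B)
    (h : ∀ σ : A ≃ₐ[E] A, σ (algebraMap B A x) = algebraMap B A x) :
    ∃ e : E, algebraMap E B e = x := by
  have hAc : IsAlgClosed A := IsAlgClosure.isAlgClosed B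
  have halgBA : Algebra.IsAlgebraic B A := IsAlgClosure.isAlgebraic
  have halg : Algebra.IsAlgebraic E A := Algebra.IsAlgebraic.trans E B A
  have hclos : IsAlgClosure E A := ⟨hAc, halg⟩
  have hnormal : Normal E A := inferInstance
  have hint : IsIntegral E x := Algebra.IsIntegral.isIntegral x
  have hsep := g.sep hN x
  have hmin : minpoly E (algebraMap B A x) = minpoly E x :=
    minpoly.algebraMap_eq (algebraMap B A).injective x
  by_contra hcon
  have hdeg : 2 ≤ (minpoly E x).natDegree := by
    by_contra hlt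
    have hpos := minpoly.natDegree_pos hint
    have h1 : (minpoly E x).natDegree = 1 := by omega
    rw [minpoly.natDegree_eq_one_iff] at h1
    exact hcon h1
  have hcard : ((minpoly E x).rootSet A).ncard = (minpoly E x).natDegree := by
    rw [← Nat.card_coe_set_eq, Nat.card_eq_fintype_card]
    exact Polynomial.card_rootSet_eq_natDegree hsep (IsAlgClosed.splits _)
  have : 1 < ((minpoly E x).rootSet A).ncard := by omega
  obtain ⟨y, hy, hne⟩ := Set.exists_ne_of_one_lt_ncard this (algebraMap B A x)
  have hy' := (Polynomial.mem_rootSet.mp hy).2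
  rw [← hmin] at hy'
  obtain ⟨σ, hσ⟩ := minpoly.exists_algEquiv_of_root' (Algebra.IsAlgebraic.isAlgebraic _) hy'
  rw [h σ] at hσ
  exact hne hσ.symm

omit [CharP κ 2] [IsAlgClosed κ] in
include g in
theorem GD.rot_lift (w : κˣ) (hw : w ^ N = 1) : ∃ σ : A ≃ₐ[E] A, ∀ x : B, ∃ y : B,
    σ (algebraMap B A x) = algebraMap B A y ∧ g.v y = rot w (g.v x) := by
  have hAc : IsAlgClosed A := IsAlgClosure.isAlgClosed B
  have halgBA : Algebra.IsAlgebraic B A := IsAlgClosure.isAlgebraic
  have halg : Algebra.IsAlgebraic E A := Algebra.IsAlgebraic.trans E B A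
  have hclos : IsAlgClosure E A := ⟨hAc, halg⟩
  have hnormal : Normal E A := inferInstance
  -- rot fixes `E`
  have hfixD : rot w (g.v (algebraMap E B g.D)) = g.v (algebraMap E B g.D) := by
    rw [g.hD, rot_io]
    congr 1
    ext n
    rw [coeff_rescale, coeff_expand]
    split_ifs with h
    · obtain ⟨k, rfl⟩ := h
      have : (w : κ) ^ N = 1 := by
        rw [← Units.val_pow_eq_pow_val, hw, Units.val_one]
      rw [pow_mul, this, one_pow, one_mul]
    · simp
  have hfixp : ∀ P : Polynomial κ, rot w (g.v (algebraMap E B (Polynomial.aeval g.D P)))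
      = g.v (algebraMap E B (Polynomial.aeval g.D P)) := by
    intro P
    induction P using Polynomial.induction_on' with
    | add p q hp hq => rw [map_add, map_add, map_add, map_add, hp, hq]
    | monomial n c =>
      rw [Polynomial.aeval_monomial, map_mul, map_mul, map_mul, map_pow, map_pow, map_pow, hfixD,
        g.hC, rot_C]
  have hfix : ∀ e : E, rot w (g.v (algebraMap E B e)) = g.v (algebraMap E B e) := by
    intro e
    obtain ⟨p, q, hq, rfl⟩ := g.hE e
    rw [map_div₀, map_div₀, map_div₀, hfixp, hfixp]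
  have hex : ∀ x : B, ∃ y : B, g.v y = rot w (g.v x) := by
    intro x
    apply g.hB
    have hint : IsIntegral E x := Algebra.IsIntegral.isIntegral x
    refine ⟨minpoly E x, minpoly.ne_zero hint, ?_⟩
    have hcomp : ((rot w : LaurentSeries κ ≃+* LaurentSeries κ) : LaurentSeries κ →+*
        LaurentSeries κ).comp (g.v.comp (algebraMap E B)) = g.v.comp (algebraMap E B) := by
      ext1 e
      exact hfix e
    have h1 := Polynomial.hom_eval₂ (minpoly E x) (g.v.comp (algebraMap E B))
      ((rot w : LaurentSeries κ ≃+* LaurentSeries κ) : LaurentSeries κ →+* LaurentSeries κ) (g.v x)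
    rw [hcomp] at h1
    change _ = Polynomial.eval₂ _ (rot w (g.v x)) _ at h1
    rw [← h1]
    have h2 := Polynomial.hom_eval₂ (minpoly E x) (algebraMap E B) g.v x
    rw [← h2]
    have h3 := minpoly.aeval E x
    rw [Polynomial.aeval_def] at h3
    rw [h3, map_zero, map_zero]
  choose f hf using hex
  let φ : B →ₐ[E] B :=
    { toFun := f
      map_one' := g.v_inj (by rw [hf, map_one, map_one])
      map_mul' := fun a b => g.v_inj (by rw [hf, map_mul, map_mul, map_mul, hf, hf])
      map_zero' := g.v_inj (by rw [hf, map_zero, map_zero])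
      map_add' := fun a b => g.v_inj (by rw [hf, map_add, map_add, map_add, hf, hf])
      commutes' := fun e => g.v_inj (by rw [hf, hfix]) }
  have hbij := Algebra.IsAlgebraic.algHom_bijective φ
  let φe : B ≃ₐ[E] B := AlgEquiv.ofBijective φ hbij
  refine ⟨φe.liftNormal A, fun x => ⟨f x, ?_, hf x⟩⟩
  rw [AlgEquiv.liftNormal_commutes]
  rfl

end SixReg
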