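import Mathlib
import Pool.Agent.Lib.MP_72e75e_nt.Family
import Pool.Agent.Lib.MP_72e75e_nt.Sep

/-!
# The Galois group acts on the family `δ_M` through `SL₂(ℤ)`
-/

namespace SixReg

open PowerSeries
open scoped MatrixGroups

variable {κ : Type} [Field κ] [CharP κ 2] [IsAlgClosed κ] {N : ℕ} [NeZero N]
  {E B : Type} [Field E] [Field B] [Algebra κ E] [Algebra E B] (g : GD κ N E B)
  (ρ : integralClosure ℤ ℂ →+* κ)

omit [CharP κ 2] [IsAlgClosed κ] in
theorem GD.v_aeval (P : Polynomial κ) : g.v (algebraMap E B (Polynomial.aeval g.D P))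
    = io (Polynomial.aeval (PowerSeries.expand N (NeZero.ne N) (Dk κ)) P) := by
  induction P using Polynomial.induction_on' with
  | add p q hp hq => rw [map_add, map_add, map_add, map_add, map_add, hp, hq]
  | monomial n c =>
    rw [Polynomial.aeval_monomial, Polynomial.aeval_monomial, map_mul, map_mul, map_mul, map_pow,
      map_pow, map_pow, g.hC, g.hD]
    congr 1
    rw [← io_C]
    rfl

omit [CharP κ 2] [IsAlgClosed κ] in
/-- a multiset of power series with elementary symmetric functions in `κ[D]` gives a polynomial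
over `E`. -/
theorem GD.root_poly (m : Multiset (PowerSeries κ))
    (hm : ∀ j, ∃ P : Polynomial κ, P.natDegree ≤ j ∧
      m.esymm j = Polynomial.aeval (PowerSeries.expand N (NeZero.ne N) (Dk κ)) P) :
    ∃ F : Polynomial E, F ≠ 0 ∧ F.map (g.v.comp (algebraMap E B))
      = ((m.map io).map fun y => Polynomial.X - Polynomial.C y).prod := by
  choose P hP1 hP2 using hm
  have hmap : ((∑ j ∈ Finset.range (Multiset.card (m.map (io : PowerSeries κ →+* LaurentSeries κ)) + 1),
      (-1) ^ j * (Polynomial.C (Polynomial.aeval g.D (P j)) *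
        Polynomial.X ^ (Multiset.card (m.map (io : PowerSeries κ →+* LaurentSeries κ)) - j)) :
        Polynomial E)).map
        (g.v.comp (algebraMap E B))
      = ((m.map io).map fun y => Polynomial.X - Polynomial.C y).prod := by
    rw [Multiset.prod_X_sub_X_eq_sum_esymm, Polynomial.map_sum]
    refine Finset.sum_congr rfl fun j _ => ?_
    rw [Polynomial.map_mul, Polynomial.map_mul, Polynomial.map_pow, Polynomial.map_pow,
      Polynomial.map_neg, Polynomial.map_one, Polynomial.map_C, Polynomial.map_X]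
    congr 3
    rw [RingHom.comp_apply, g.v_aeval, ← hP2, map_esymm_multiset]
  refine ⟨_, ?_, hmap⟩
  intro h0
  rw [h0, Polynomial.map_zero] at hmap
  have := Polynomial.monic_multiset_prod_of_monic (m.map (io : PowerSeries κ →+* LaurentSeries κ))
    (fun y => Polynomial.X - Polynomial.C y) (fun y _ => Polynomial.monic_X_sub_C y)
  exact this.ne_zero hmap.symm

omit [CharP κ 2] [IsAlgClosed κ] in
theorem GD.exists_of_mem (m : Multiset (PowerSeries κ))
    (hm : ∀ j, ∃ P : Polynomial κ, P.natDegree ≤ j ∧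
      m.esymm j = Polynomial.aeval (PowerSeries.expand N (NeZero.ne N) (Dk κ)) P)
    (y : PowerSeries κ) (hy : y ∈ m) : ∃ b : B, g.v b = io y := by
  obtain ⟨F, hF0, hF⟩ := g.root_poly m hm
  apply g.hB
  refine ⟨F, hF0, ?_⟩
  rw [← Polynomial.eval_map, hF, Polynomial.eval_multiset_prod, Multiset.prod_eq_zero_iff]
  rw [Multiset.map_map, Multiset.mem_map]
  exact ⟨io y, Multiset.mem_map_of_mem _ hy, by simp⟩

omit [IsAlgClosed κ] in
theorem GD.exists_dB (hρ : Function.Surjective ρ) (M : Matrix (Fin 2) (Fin 2) ℤ) :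
    ∃ b : B, g.v b = io (dl ρ N M) := by
  by_cases h : 0 < M.det ∧ M.det ∣ N
  · obtain ⟨m, h1, _, h3⟩ := orbit_interface (ι := Unit) ρ N hρ (fun _ => M) (fun _ => h)
      (fun _ => 1)
    have h4 : dl ρ N M ∈ m := by simpa using h1
    exact g.exists_of_mem m h3 _ h4
  · refine ⟨0, ?_⟩
    unfold dl
    rw [dif_neg h, map_zero, map_zero]

/-- The family as elements of `B`. -/
noncomputable def GD.dB (hρ : Function.Surjective ρ) (M : Matrix (Fin 2) (Fin 2) ℤ) : B :=
  (g.exists_dB ρ hρ M).choose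

omit [IsAlgClosed κ] in
theorem GD.v_dB (hρ : Function.Surjective ρ) (M : Matrix (Fin 2) (Fin 2) ℤ) :
    g.v (g.dB ρ hρ M) = io (dl ρ N M) := (g.exists_dB ρ hρ M).choose_spec

omit [IsAlgClosed κ] in
theorem GD.dB_congr (hρ : Function.Surjective ρ) {M M' : Matrix (Fin 2) (Fin 2) ℤ}
    (h : dl ρ N M = dl ρ N M') : g.dB ρ hρ M = g.dB ρ hρ M' := by
  apply g.v_inj
  rw [g.v_dB, g.v_dB, h]

variable {A : Type} [Field A] [Algebra B A] [Algebra E A] [IsScalarTower E B A]

omit [IsAlgClosed κ] in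
theorem GD.conj_sum (hρ : Function.Surjective ρ) {n : ℕ} (Ms : Fin n → Matrix (Fin 2) (Fin 2) ℤ)
    (hMs : ∀ i, 0 < (Ms i).det ∧ (Ms i).det ∣ N) (s : Fin n → κ) (σ : A ≃ₐ[E] A) :
    ∃ γ : SL(2, ℤ), σ (algebraMap B A (∑ i, algebraMap E B (algebraMap κ E (s i)) *
        g.dB ρ hρ (Ms i)))
      = algebraMap B A (∑ i, algebraMap E B (algebraMap κ E (s i)) *
        g.dB ρ hρ (Ms i * (γ : Matrix (Fin 2) (Fin 2) ℤ))) := by
  obtain ⟨m, h1, h2, h3⟩ := orbit_interface ρ N hρ Ms hMs s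
  obtain ⟨F, hF0, hF⟩ := g.root_poly m h3
  have hv : ∀ Ms' : Fin n → Matrix (Fin 2) (Fin 2) ℤ,
      g.v (∑ i, algebraMap E B (algebraMap κ E (s i)) * g.dB ρ hρ (Ms' i))
        = io (∑ i, C (s i) * dl ρ N (Ms' i)) := by
    intro Ms'
    rw [map_sum, map_sum]
    refine Finset.sum_congr rfl fun i _ => ?_
    rw [map_mul, map_mul, g.hC, g.v_dB, io_C]
  -- multiset over `B`
  have hex : ∀ y : {x // x ∈ m}, ∃ b : B, g.v b = io y.1 := fun y =>
    g.exists_of_mem m h3 y.1 y.2
  choose f hf using hex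
  have hFB : F.map (algebraMap E B)
      = ((m.attach.map f).map fun y => Polynomial.X - Polynomial.C y).prod := by
    apply Polynomial.map_injective g.v g.v_inj
    rw [Polynomial.map_map, hF, Polynomial.map_multiset_prod, Multiset.map_map, Multiset.map_map,
      Multiset.map_map]
    congr 1
    conv_lhs => rw [← Multiset.attach_map_val m, Multiset.map_map]
    refine Multiset.map_congr rfl fun y _ => ?_
    simp [hf]
  have hroot : Polynomial.aeval (algebraMap B A (∑ i, algebraMap E B (algebraMap κ E (s i)) *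
      g.dB ρ hρ (Ms i))) F = 0 := by
    rw [Polynomial.aeval_def, IsScalarTower.algebraMap_eq E B A, ← Polynomial.hom_eval₂,
      ← Polynomial.eval_map, hFB, Polynomial.eval_multiset_prod]
    have : (Multiset.map (Polynomial.eval (∑ i, algebraMap E B (algebraMap κ E (s i)) *
        g.dB ρ hρ (Ms i))) (Multiset.map (fun y => Polynomial.X - Polynomial.C y)
          (Multiset.map f m.attach))).prod = 0 := by
      rw [Multiset.prod_eq_zero_iff, Multiset.map_map, Multiset.map_map, Multiset.mem_map]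
      refine ⟨⟨_, h1⟩, Multiset.mem_attach _ _, ?_⟩
      have : f ⟨_, h1⟩ = ∑ i, algebraMap E B (algebraMap κ E (s i)) * g.dB ρ hρ (Ms i) := by
        apply g.v_inj
        rw [hf, hv]
      simp only [Function.comp_apply, this, Polynomial.eval_sub, Polynomial.eval_X,
        Polynomial.eval_C, sub_self]
    rw [this, map_zero]
  have hroot2 : Polynomial.aeval (σ (algebraMap B A (∑ i, algebraMap E B (algebraMap κ E (s i)) *
      g.dB ρ hρ (Ms i)))) F = 0 := by
    have := Polynomial.aeval_algHom_apply (σ : A →ₐ[E] A)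
      (algebraMap B A (∑ i, algebraMap E B (algebraMap κ E (s i)) * g.dB ρ hρ (Ms i))) F
    rw [hroot, map_zero] at this
    exact this
  rw [Polynomial.aeval_def, IsScalarTower.algebraMap_eq E B A, ← Polynomial.eval_map,
    ← Polynomial.map_map, hFB, Polynomial.map_multiset_prod, Polynomial.eval_multiset_prod,
    Multiset.prod_eq_zero_iff, Multiset.map_map, Multiset.map_map, Multiset.map_map,
    Multiset.mem_map] at hroot2
  obtain ⟨y, _, hy⟩ := hroot2
  obtain ⟨γ, hγ⟩ := h2 y.1 y.2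
  refine ⟨γ, ?_⟩
  have hfy : f y = ∑ i, algebraMap E B (algebraMap κ E (s i)) *
      g.dB ρ hρ (Ms i * (γ : Matrix (Fin 2) (Fin 2) ℤ)) := by
    apply g.v_inj
    rw [hf, hγ, hv]
  rw [← hfy]
  simp only [Function.comp_apply, Polynomial.map_sub, Polynomial.map_X, Polynomial.map_C,
    Polynomial.eval_sub, Polynomial.eval_X, Polynomial.eval_C] at hy
  exact sub_eq_zero.mp hy

/-- upper triangular representatives -/
def UU (N : ℕ) : Set (Matrix (Fin 2) (Fin 2) ℤ) :=
  {M | ∃ a b d : ℕ, 0 < a ∧ 0 < d ∧ b < d ∧ a * d ∣ N ∧ M = !![(a : ℤ), b; 0, d]}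

omit [NeZero N] in
theorem UU_finite [NeZero N] : (UU N).Finite := by
  refine (((Finset.range (N + 1) ×ˢ Finset.range (N + 1) ×ˢ Finset.range (N + 1)).image
    fun p => (!![(p.1 : ℤ), (p.2.1 : ℤ); 0, (p.2.2 : ℤ)] : Matrix (Fin 2) (Fin 2) ℤ)).finite_toSet).subset ?_
  rintro M ⟨a, b, d, ha, hd, hb, hN, rfl⟩
  have hNpos : 0 < N := Nat.pos_of_ne_zero (NeZero.ne N)
  have h1 : a ≤ N := Nat.le_of_dvd hNpos ((Dvd.intro _ rfl).trans hN)
  have h2 : d ≤ N := Nat.le_of_dvd hNpos ((Dvd.intro_left _ rfl).trans hN)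
  simp only [Finset.coe_image, Set.mem_image, Finset.mem_coe, Finset.mem_product, Finset.mem_range]
  exact ⟨(a, b, d), ⟨by simp; omega, by simp; omega, by simp; omega⟩, rfl⟩

omit [NeZero N] in
theorem exists_UU {M : Matrix (Fin 2) (Fin 2) ℤ} (h : 0 < M.det ∧ M.det ∣ N) :
    ∃ γ : SL(2, ℤ), ∃ U ∈ UU N, M = (γ : Matrix (Fin 2) (Fin 2) ℤ) * U := by
  obtain ⟨γ, a, b, d, ha, hd, hb, hdet, _, hM⟩ := exists_upper M h.1
  refine ⟨γ, _, ⟨a, b, d, ha, hd, hb, ?_, rfl⟩, hM⟩
  have := h.2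
  rw [← hdet] at this
  exact_mod_cast this

omit [NeZero N] in
theorem UU_det {U : Matrix (Fin 2) (Fin 2) ℤ} (h : U ∈ UU N) : 0 < U.det ∧ U.det ∣ N := by
  obtain ⟨a, b, d, ha, hd, hb, hN, rfl⟩ := h
  rw [det_upper]
  exact ⟨by positivity, by exact_mod_cast hN⟩

omit [IsAlgClosed κ] in
theorem GD.act (hρ : Function.Surjective ρ) [Infinite κ] (σ : A ≃ₐ[E] A) :
    ∃ γ : SL(2, ℤ), ∀ M : Matrix (Fin 2) (Fin 2) ℤ, 0 < M.det ∧ M.det ∣ N →
      σ (algebraMap B A (g.dB ρ hρ M))
        = algebraMap B A (g.dB ρ hρ (M * (γ : Matrix (Fin 2) (Fin 2) ℤ))) := by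
  classical
  have hfinU := UU_finite (N := N)
  obtain ⟨n, ⟨e⟩⟩ : ∃ n, Nonempty (UU N ≃ Fin n) := by
    have : Finite (UU N) := hfinU
    exact ⟨_, ⟨Finite.equivFin _⟩⟩
  let Ms : Fin n → Matrix (Fin 2) (Fin 2) ℤ := fun i => (e.symm i).1
  have hMs : ∀ i, 0 < (Ms i).det ∧ (Ms i).det ∣ N := fun i => UU_det (e.symm i).2
  choose γs hγs using fun s : κ => g.conj_sum ρ hρ Ms hMs (fun i => s ^ (i : ℕ)) σ
  have hrange : (g.dB ρ hρ '' UU N).Finite := hfinU.image _
  have hmem : ∀ (s : κ) (i : Fin n), g.dB ρ hρ (Ms i * (γs s : Matrix (Fin 2) (Fin 2) ℤ))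
      ∈ g.dB ρ hρ '' UU N := by
    intro s i
    have hdet : 0 < (Ms i * (γs s : Matrix (Fin 2) (Fin 2) ℤ)).det ∧
        (Ms i * (γs s : Matrix (Fin 2) (Fin 2) ℤ)).det ∣ N := by
      have : (Ms i * (γs s : Matrix (Fin 2) (Fin 2) ℤ)).det = (Ms i).det := by simp
      rw [this]; exact hMs i
    obtain ⟨γ', U, hU, hMU⟩ := exists_UU hdet
    refine ⟨U, hU, ?_⟩
    apply g.dB_congr
    rw [hMU, dl_SL_mul]
  have hfin2 : Finite (Fin n → (g.dB ρ hρ '' UU N)) := by
    have : Finite (g.dB ρ hρ '' UU N) := hrange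
    infer_instance
  obtain ⟨y, hy⟩ := Finite.exists_infinite_fiber
    (fun s : κ => (fun i => ⟨_, hmem s i⟩ : Fin n → (g.dB ρ hρ '' UU N)))
  have hyinf : ((fun s : κ => (fun i => ⟨_, hmem s i⟩ : Fin n → (g.dB ρ hρ '' UU N))) ⁻¹'
      {y}).Infinite := Set.infinite_coe_iff.mp hy
  obtain ⟨s0, hs0⟩ := hyinf.nonempty
  refine ⟨γs s0, ?_⟩
  -- the polynomial
  let c : Fin n → A := fun i => σ (algebraMap B A (g.dB ρ hρ (Ms i))) -
    algebraMap B A (g.dB ρ hρ (Ms i * (γs s0 : Matrix (Fin 2) (Fin 2) ℤ)))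
  have hzero : ∀ i, c i = 0 := by
    let P : Polynomial A := ∑ i : Fin n, Polynomial.monomial (i : ℕ) (c i)
    have hP : P = 0 := by
      apply Polynomial.eq_zero_of_infinite_isRoot
      have himg : ((fun s : κ => algebraMap E A (algebraMap κ E s)) ''
          ((fun s : κ => (fun i => ⟨_, hmem s i⟩ : Fin n → (g.dB ρ hρ '' UU N))) ⁻¹'
            {y})).Infinite := by
        apply hyinf.image
        intro a _ b _ hab
        exact (algebraMap κ E).injective ((algebraMap E A).injective hab)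
      refine himg.mono ?_
      rintro _ ⟨s, hs, rfl⟩
      have hsame : ∀ i, g.dB ρ hρ (Ms i * (γs s : Matrix (Fin 2) (Fin 2) ℤ))
          = g.dB ρ hρ (Ms i * (γs s0 : Matrix (Fin 2) (Fin 2) ℤ)) := by
        intro i
        have h1 : (fun i => ⟨_, hmem s i⟩ : Fin n → (g.dB ρ hρ '' UU N))
            = (fun i => ⟨_, hmem s0 i⟩ : Fin n → (g.dB ρ hρ '' UU N)) := by
          rw [Set.mem_preimage, Set.mem_singleton_iff] at hs hs0
          rw [hs, hs0]
        have h2 := congrFun h1 i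
        exact congrArg Subtype.val h2
      have h3 := hγs s
      simp only [hsame] at h3
      rw [map_sum, map_sum, map_sum] at h3
      simp only [Set.mem_ofPred_eq, Polynomial.IsRoot.def, P]
      rw [Polynomial.eval_finsetSum]
      simp only [Polynomial.eval_monomial, c]
      rw [← sub_eq_zero, ← Finset.sum_sub_distrib] at h3
      rw [← h3]
      refine Finset.sum_congr rfl fun i _ => ?_
      rw [map_mul, map_mul, map_mul, ← IsScalarTower.algebraMap_apply E B A, AlgEquiv.commutes,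
        map_pow, map_pow]
      ring
    intro i
    have h1 : P.coeff i = c i := by
      simp only [P, Polynomial.finsetSum_coeff, Polynomial.coeff_monomial]
      rw [Finset.sum_eq_single i]
      · simp
      · intro j _ hj
        rw [if_neg]
        intro h
        exact hj (Fin.ext h)
      · simp
    rw [← h1, hP, Polynomial.coeff_zero]
  intro M hM
  obtain ⟨γ', U, hU, rfl⟩ := exists_UU hM
  rw [g.dB_congr ρ hρ (dl_SL_mul ρ N γ' U), Matrix.mul_assoc,
    g.dB_congr ρ hρ (dl_SL_mul ρ N γ' (U * (γs s0 : Matrix (Fin 2) (Fin 2) ℤ)))]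
  have h1 := hzero (e ⟨U, hU⟩)
  simp only [c, Ms, Equiv.symm_apply_apply] at h1
  exact sub_eq_zero.mp h1

end SixReg
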