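import Mathlib

/-!
# The arithmetic choice of parameters
-/

namespace SixReg

/-- An integer `≡ 1 mod 8` is a square modulo every power of two. -/
theorem exists_sq (c : ℤ) (hc : (8 : ℤ) ∣ c - 1) (k : ℕ) :
    ∃ r : ℤ, Odd r ∧ (2 : ℤ) ^ (k + 3) ∣ r ^ 2 - c := by
  induction k with
  | zero =>
    refine ⟨1, odd_one, ?_⟩
    obtain ⟨d, hd⟩ := hc
    exact ⟨-d, by norm_num; linarith⟩
  | succ k ih =>
    obtain ⟨r, hr, m, hm⟩ := ih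
    rcases Int.even_or_odd m with ⟨m', hm'⟩ | hodd
    · refine ⟨r, hr, m', ?_⟩
      rw [hm, hm']
      ring
    · obtain ⟨t, ht⟩ := hodd
      obtain ⟨u, hu⟩ := hr
      refine ⟨r + 2 ^ (k + 2), ?_, t + u + 1 + 2 ^ k, ?_⟩
      · refine Odd.add_even ⟨u, hu⟩ ?_
        exact ⟨2 ^ (k + 1), by ring⟩
      · have h1 : r ^ 2 = c + 2 ^ (k + 3) * m := by linarith
        have h2 : (r + 2 ^ (k + 2)) ^ 2 - c = (r ^ 2 - c) + 2 ^ (k + 3) * r + 2 ^ (k + 4) * 2 ^ k := by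
          ring
        rw [h2, hm, ht, hu]
        ring

/-- For `A ≥ 1`, `B`, there are `s0`, `Q` odd with `A ∣ 2^s0 * Q`, `3 ∣ Q` and
`Q² ≡ -3 (24 B + 5)  mod 2^(s0+3)`. -/
theorem exists_params (A B : ℕ) (hA : 0 < A) :
    ∃ s0 Q : ℕ, Odd Q ∧ 3 ∣ Q ∧ 0 < Q ∧ A ∣ 2 ^ s0 * Q ∧
      ((Q : ℤ) ^ 2 ≡ -3 * (24 * B + 5) [ZMOD 2 ^ (s0 + 3)]) := by
  obtain ⟨s0, A', hA', hAe⟩ := Nat.exists_eq_two_pow_mul_odd hA.ne'
  obtain ⟨r, hr, hrd⟩ := exists_sq (-3 * (24 * B + 5)) ⟨-(9 * B) - 2, by ring⟩ s0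
  have hcop : Nat.Coprime (2 ^ (s0 + 3)) (3 * A') := by
    refine Nat.Coprime.pow_left _ ?_
    rw [Nat.coprime_two_left]
    exact Nat.odd_mul.mpr ⟨by decide, hA'⟩
  obtain ⟨Q, hQ1, hQ2⟩ := Nat.chineseRemainder hcop r.natAbs 0
  have hrn : Odd r.natAbs := Int.natAbs_odd.mpr hr
  have hQodd : Odd Q := by
    have h2 : (2 : ℕ) ∣ 2 ^ (s0 + 3) := dvd_pow_self 2 (by omega)
    have h3 : Q ≡ r.natAbs [MOD 2] := hQ1.of_dvd h2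
    rw [Nat.odd_iff] at hrn ⊢
    rw [h3, hrn]
  have hdvd : 3 * A' ∣ Q := (Nat.modEq_zero_iff_dvd).mp hQ2
  refine ⟨s0, Q, hQodd, (Dvd.intro _ rfl).trans hdvd, hQodd.pos, ?_, ?_⟩
  · rw [hAe]
    exact Nat.mul_dvd_mul_left _ ((Dvd.intro_left _ rfl).trans hdvd)
  · have h4 : (Q : ℤ) ≡ (r.natAbs : ℤ) [ZMOD (2 ^ (s0 + 3) : ℕ)] :=
      (Int.natCast_modEq_iff).mpr hQ1
    have h5 : (Q : ℤ) ^ 2 ≡ (r.natAbs : ℤ) ^ 2 [ZMOD (2 ^ (s0 + 3) : ℕ)] := h4.pow 2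
    have h6 : ((r.natAbs : ℤ)) ^ 2 = r ^ 2 := Int.natAbs_sq r
    rw [h6] at h5
    have h7 : r ^ 2 ≡ -3 * (24 * B + 5) [ZMOD (2 ^ (s0 + 3) : ℕ)] := by
      refine (Int.modEq_iff_dvd.mpr ?_).symm
      push_cast
      exact hrd
    have h8 := h5.trans h7
    push_cast at h8
    exact h8

/-- If `p, Q` ... divisors: for `a ∣ Q`, `a ≠ Q`: `6 * gcd(a, Q/3)^2 - a^2 > - Q^2/3`, cleared. -/
theorem order_lt {Q a : ℕ} (hQ : 0 < Q) (h3 : 3 ∣ Q) (ha : a ∣ Q) (hne : a ≠ Q) :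
    -((Q : ℤ) ^ 2) < 3 * (6 * (Nat.gcd a (Q / 3) : ℤ) ^ 2 - (a : ℤ) ^ 2) := by
  obtain ⟨c, hc⟩ := ha
  have hc2 : 2 ≤ c := by
    rcases c with _ | _ | c
    · simp at hc; omega
    · simp at hc; exact absurd hc.symm hne
    · omega
  have h1 : 2 * (a : ℤ) ≤ Q := by
    have : a * 2 ≤ a * c := Nat.mul_le_mul_left _ hc2
    rw [← hc] at this
    exact_mod_cast (by omega : 2 * a ≤ Q)
  have hQ' : (0 : ℤ) < Q := by exact_mod_cast hQ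
  have ha' : (0 : ℤ) ≤ a := by positivity
  have h2 : (0 : ℤ) ≤ (Nat.gcd a (Q / 3) : ℤ) ^ 2 := by positivity
  nlinarith

theorem order_eq {Q : ℕ} (h3 : 3 ∣ Q) :
    3 * (6 * (Nat.gcd Q (Q / 3) : ℤ) ^ 2 - (Q : ℤ) ^ 2) = -((Q : ℤ) ^ 2) := by
  obtain ⟨m, hm⟩ := h3
  have h1 : Q / 3 = m := by omega
  rw [h1, Nat.gcd_eq_right (Dvd.intro_left _ hm.symm), hm]
  push_cast
  ring

end SixReg
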