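import Mathlib

/-!
# A rational function satisfying a monic equation with coefficients of degree `≤ j` has degree `≤ 1`
-/

namespace SixReg

open Polynomial

/-- If `x ∈ κ(D)` is a member of a multiset `m` whose `j`-th elementary symmetric function is a
polynomial in `D` of degree at most `j` for every `j`, then `x = α + β D`. -/
theorem deg_le_one {κ F : Type*} [Field κ] [Field F] [Algebra κ F] (D : F)
    (hD : Transcendental κ D) (m : Multiset F)
    (hm : ∀ j, ∃ P : Polynomial κ, P.natDegree ≤ j ∧ m.esymm j = aeval D P)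
    (x : F) (hx : x ∈ m)
    (hxE : ∃ p q : Polynomial κ, aeval D q ≠ 0 ∧ x = aeval D p / aeval D q) :
    ∃ α β : κ, x = algebraMap κ F α + algebraMap κ F β * D := by
  classical
  choose P hPdeg hPe using hm
  obtain ⟨p0, q0, hq0, hxpq0⟩ := hxE
  have hinj : Function.Injective (aeval D : κ[X] →ₐ[κ] F) := transcendental_iff_injective.mp hD
  have hq00 : q0 ≠ 0 := by rintro rfl; simp at hq0
  -- reduction to lowest terms
  obtain ⟨p, q, hcop, hqD, hxpq⟩ : ∃ p q : κ[X], IsCoprime p q ∧ aeval D q ≠ 0 ∧
      x = aeval D p / aeval D q := by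
    have hg0 : EuclideanDomain.gcd p0 q0 ≠ 0 := by
      intro h
      exact hq00 (EuclideanDomain.gcd_eq_zero_iff.mp h).2
    obtain ⟨p', hp'⟩ := EuclideanDomain.gcd_dvd_left p0 q0
    obtain ⟨q', hq'⟩ := EuclideanDomain.gcd_dvd_right p0 q0
    have hb := EuclideanDomain.gcd_eq_gcd_ab p0 q0
    set g := EuclideanDomain.gcd p0 q0 with hg
    set a := EuclideanDomain.gcdA p0 q0
    set b := EuclideanDomain.gcdB p0 q0
    have hgD : aeval D g ≠ 0 := by
      intro h
      exact hg0 (hinj (by rw [h, map_zero]))
    refine ⟨p', q', ⟨a, b, ?_⟩, ?_, ?_⟩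
    · have : g * (a * p' + b * q') = g * 1 := by
        calc g * (a * p' + b * q') = (g * p') * a + (g * q') * b := by ring
          _ = p0 * a + q0 * b := by rw [← hp', ← hq']
          _ = g * 1 := by rw [← hb, mul_one]
      exact mul_left_cancel₀ hg0 this
    · intro h
      apply hq0
      rw [hq', map_mul, h, mul_zero]
    · rw [hxpq0, hp', hq', map_mul, map_mul, mul_div_mul_left _ _ hgD]
  set n := Multiset.card m with hn
  have hn1 : 1 ≤ n := by
    rw [hn]
    exact Multiset.card_pos_iff_exists_mem.mpr ⟨x, hx⟩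
  -- the equation satisfied by `x`
  have heq : ∑ j ∈ Finset.range (n + 1), (-1) ^ j * (m.esymm j * x ^ (n - j)) = 0 := by
    have h1 := congrArg (Polynomial.eval x) (Multiset.prod_X_sub_X_eq_sum_esymm m)
    rw [Polynomial.eval_multiset_prod, Multiset.map_map] at h1
    have h2 : (Multiset.map (eval x ∘ fun t => X - C t) m).prod = 0 := by
      rw [Multiset.prod_eq_zero_iff, Multiset.mem_map]
      exact ⟨x, hx, by simp⟩
    rw [h2, Polynomial.eval_finsetSum] at h1
    rw [h1]
    refine Finset.sum_congr rfl fun j _ => ?_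
    simp [hn]
  -- clear denominators
  have heq2 : ∑ j ∈ Finset.range (n + 1), (-1) ^ j * (P j * (p ^ (n - j) * q ^ j)) = 0 := by
    apply hinj
    rw [map_zero, map_sum]
    have : ∀ j ∈ Finset.range (n + 1),
        aeval D ((-1) ^ j * (P j * (p ^ (n - j) * q ^ j))) =
          (aeval D q) ^ n * ((-1) ^ j * (m.esymm j * x ^ (n - j))) := by
      intro j hj
      have hj' : j ≤ n := by simpa [Nat.lt_succ_iff] using hj
      rw [hPe, hxpq]
      simp only [map_mul, map_pow, map_neg, map_one, div_pow]
      have e : (aeval D q) ^ n = (aeval D q) ^ (n - j) * (aeval D q) ^ j := by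
        rw [← pow_add, Nat.sub_add_cancel hj']
      rw [e]
      have hne : (aeval D q) ^ (n - j) ≠ 0 := pow_ne_zero _ hqD
      field_simp
    rw [Finset.sum_congr rfl this, ← Finset.mul_sum, heq, mul_zero]
  have hP0 : P 0 = 1 := by
    apply hinj
    rw [← hPe, map_one]
    simp [Multiset.esymm]
  rw [Finset.sum_range_succ'] at heq2
  simp only [pow_zero, Nat.sub_zero, hP0, one_mul, mul_one] at heq2
  have hdvd : q ∣ p ^ n := by
    have : p ^ n = -∑ k ∈ Finset.range n,
        (-1) ^ (k + 1) * (P (k + 1) * (p ^ (n - (k + 1)) * q ^ (k + 1))) :=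
      eq_neg_of_add_eq_zero_right heq2
    rw [this, dvd_neg]
    refine Finset.dvd_sum fun k _ => ?_
    exact Dvd.dvd.mul_left (Dvd.dvd.mul_left (Dvd.dvd.mul_left
      (dvd_pow_self q (Nat.succ_ne_zero k)) _) _) _
  have hunit : IsUnit q := (hcop.pow_left (m := n)).symm.isUnit_of_dvd' dvd_rfl hdvd
  obtain ⟨u, hu, hqu⟩ := Polynomial.isUnit_iff.mp hunit
  -- `q` constant: degree count
  have hdeg : p.natDegree ≤ 1 := by
    by_contra hlt
    push Not at hlt
    set d := p.natDegree with hd
    have hp0 : p ≠ 0 := by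
      rintro rfl
      simp at hd
      omega
    have h3 : p ^ n = -∑ k ∈ Finset.range n,
        (-1) ^ (k + 1) * (P (k + 1) * (p ^ (n - (k + 1)) * q ^ (k + 1))) :=
      eq_neg_of_add_eq_zero_right heq2
    have h4 : (p ^ n).natDegree = n * d := Polynomial.natDegree_pow p n
    have h5 : (p ^ n).natDegree ≤ n * d - 1 := by
      rw [h3, Polynomial.natDegree_neg]
      refine Polynomial.natDegree_sum_le_of_forall_le _ _ fun k hk => ?_
      have hk' : k + 1 ≤ n := by simpa [Finset.mem_range] using hk
      have hm1 : ((-1 : κ[X]) ^ (k + 1)).natDegree = 0 := by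
        rcases neg_one_pow_eq_or κ[X] (k + 1) with h | h <;> rw [h] <;> simp
      have hq1 : (q ^ (k + 1)).natDegree = 0 := by
        rw [Polynomial.natDegree_pow, ← hqu, Polynomial.natDegree_C, mul_zero]
      calc ((-1) ^ (k + 1) * (P (k + 1) * (p ^ (n - (k + 1)) * q ^ (k + 1)))).natDegree
          ≤ ((-1 : κ[X]) ^ (k + 1)).natDegree +
              (P (k + 1) * (p ^ (n - (k + 1)) * q ^ (k + 1))).natDegree :=
            Polynomial.natDegree_mul_le
        _ ≤ 0 + ((P (k + 1)).natDegree + (p ^ (n - (k + 1)) * q ^ (k + 1)).natDegree) := by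
            rw [hm1]
            gcongr
            exact Polynomial.natDegree_mul_le
        _ ≤ 0 + ((k + 1) + ((p ^ (n - (k + 1))).natDegree + (q ^ (k + 1)).natDegree)) := by
            gcongr
            · exact hPdeg _
            · exact Polynomial.natDegree_mul_le
        _ = (k + 1) + (n - (k + 1)) * d := by
            rw [hq1, Polynomial.natDegree_pow]; ring
        _ ≤ n * d - 1 := by
            obtain ⟨r, hr⟩ := Nat.exists_eq_add_of_le hk'
            have : n - (k + 1) = r := by omega
            rw [this, hr]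
            have h6 : (k + 1) * 2 ≤ (k + 1) * d := Nat.mul_le_mul_left _ hlt
            have h7 : (k + 1 + r) * d = (k + 1) * d + r * d := by ring
            rw [h7]
            generalize (k + 1) * d = A at *
            generalize r * d = B at *
            omega
    have h8 : 1 ≤ n * d := Nat.mul_pos hn1 (by omega)
    omega
  -- conclusion
  rw [Polynomial.eq_X_add_C_of_natDegree_le_one hdeg] at hxpq
  refine ⟨p.coeff 0 / u, p.coeff 1 / u, ?_⟩
  have hu0 : u ≠ 0 := hu.ne_zero
  have hu1 : algebraMap κ F u ≠ 0 := by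
    simpa using hu0
  rw [hxpq, ← hqu]
  simp only [map_add, map_mul, aeval_C, aeval_X, map_div₀]
  field_simp
  ring

end SixReg
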