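import Mathlib
import Pool.Agent.Lib.MP_72e75e_nt.DeltaSeries

/-!
# The generating function of `6`-regular partitions modulo two and the reduced discriminant
-/

namespace SixReg

open PowerSeries

/-- number of partitions of `n` without parts divisible by `6`. -/
def b6 (n : ℕ) : ℕ := (Nat.Partition.restricted n (¬ 6 ∣ ·)).card

variable (κ : Type*) [CommRing κ]

/-- generating function of `b6` over `κ`. -/
noncomputable def G6 : PowerSeries κ := PowerSeries.mk fun n => (b6 n : κ)

open scoped PowerSeries.WithPiTopology in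
theorem continuous_expand [TopologicalSpace κ] (p : ℕ) (hp : p ≠ 0) :
    Continuous (PowerSeries.expand p hp : PowerSeries κ → PowerSeries κ) := by
  rw [continuous_iff_continuousAt]
  intro f
  rw [ContinuousAt, PowerSeries.WithPiTopology.tendsto_iff_coeff_tendsto]
  intro d
  simp only [PowerSeries.coeff_expand]
  split_ifs with h
  · exact (PowerSeries.WithPiTopology.continuous_coeff κ _).tendsto f
  · exact tendsto_const_nhds

open scoped PowerSeries.WithPiTopology in
theorem hasProd_expand [TopologicalSpace κ] (p : ℕ) (hp : p ≠ 0) :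
    HasProd (fun n => (1 - X ^ (p * (n + 1)) : PowerSeries κ))
      (PowerSeries.expand p hp (pentagonalSeries κ)) := by
  have h := (PowerSeries.WithPiTopology.hasProd_one_sub_X_pow κ).map
    (PowerSeries.expand p hp (R := κ)) (continuous_expand κ p hp)
  convert h using 1
  ext1 n
  simp only [Function.comp_apply, map_sub, map_one, map_pow, expand_X, pow_mul]

open scoped PowerSeries.WithPiTopology in
/-- `P · G = P(X^6)` with `P = ∏ (1 - X^n)`. -/
theorem pent_mul_G6 : pentagonalSeries κ * G6 κ
    = PowerSeries.expand 6 (by norm_num) (pentagonalSeries κ) := by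
  let _ : TopologicalSpace κ := ⊥
  have _ : DiscreteTopology κ := ⟨rfl⟩
  have h1 : HasProd (fun i : ℕ ↦ (1 - X ^ (i + 1) : PowerSeries κ) *
      (if ¬ 6 ∣ (i + 1) then ∑' j : ℕ, X ^ ((i + 1) * j) else 1))
      (pentagonalSeries κ * G6 κ) :=
    (PowerSeries.WithPiTopology.hasProd_one_sub_X_pow κ).mul
      (Nat.Partition.hasProd_powerSeriesMk_card_restricted κ (¬ 6 ∣ ·))
  have h2 : HasProd (fun i : ℕ ↦ if 6 ∣ (i + 1) then (1 - X ^ (i + 1) : PowerSeries κ) else 1)
      (pentagonalSeries κ * G6 κ) := by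
    convert h1 using 1
    ext1 i
    split_ifs with h
    · rw [mul_one]
    · simp_rw [pow_mul]
      rw [mul_comm, PowerSeries.WithPiTopology.tsum_pow_mul_one_sub_of_constantCoeff_eq_zero
        (by simp)]
  have hinj : Function.Injective (fun j : ℕ => 6 * (j + 1) - 1) := by
    intro a b h
    simp only at h
    omega
  have h3 : HasProd ((fun i : ℕ ↦ if 6 ∣ (i + 1) then (1 - X ^ (i + 1) : PowerSeries κ) else 1) ∘
      (fun j : ℕ => 6 * (j + 1) - 1)) (pentagonalSeries κ * G6 κ) := by
    rw [hinj.hasProd_iff]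
    · exact h2
    · intro x hx
      rw [if_neg]
      rintro ⟨j, hj⟩
      apply hx
      refine ⟨j - 1, ?_⟩
      simp only
      omega
  have h4 := hasProd_expand κ 6 (by norm_num)
  apply h3.unique
  convert h4 using 1
  ext1 j
  simp only [Function.comp_apply]
  have e : 6 * (j + 1) - 1 + 1 = 6 * (j + 1) := by omega
  rw [e, if_pos (dvd_mul_right _ _)]

theorem map_pent : PowerSeries.map (Int.castRingHom κ) (pentagonalSeries ℤ)
    = pentagonalSeries κ := by
  ext n
  rw [coeff_map]
  by_cases h : n ∈ Set.range pentagonal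
  · obtain ⟨k, rfl⟩ := h
    rw [coeff_pentagonalSeries_pentagonal, coeff_pentagonalSeries_pentagonal]
    simp
  · rw [coeff_pentagonalSeries_eq_zero _ h, coeff_pentagonalSeries_eq_zero _ h]
    simp

open scoped PowerSeries.WithPiTopology in
theorem pent_sq [CharP κ 2] : (pentagonalSeries κ) ^ 2
    = PowerSeries.expand 2 (by norm_num) (pentagonalSeries κ) := by
  let _ : TopologicalSpace κ := ⊥
  have _ : DiscreteTopology κ := ⟨rfl⟩
  have h1 := (PowerSeries.WithPiTopology.hasProd_one_sub_X_pow κ).mul
    (PowerSeries.WithPiTopology.hasProd_one_sub_X_pow κ)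
  have h2 := hasProd_expand κ 2 (by norm_num)
  rw [pow_two]
  apply h1.unique
  convert h2 using 1
  ext1 j
  have h0 : (2 : PowerSeries κ) = 0 := by
    have : ((2 : ℕ) : κ) = 0 := CharP.cast_eq_zero κ 2
    have h3 : (2 : PowerSeries κ) = PowerSeries.C ((2 : ℕ) : κ) := by
      rw [map_natCast]; norm_num
    rw [h3, this, map_zero]
  calc (1 - X ^ (j + 1) : PowerSeries κ) * (1 - X ^ (j + 1))
      = 1 - X ^ (2 * (j + 1)) + 2 * (X ^ (2 * (j + 1)) - X ^ (j + 1)) := by
        rw [two_mul (j + 1), pow_add]; ring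
    _ = 1 - X ^ (2 * (j + 1)) := by rw [h0]; ring

theorem pent_pow [CharP κ 2] (i : ℕ) : (pentagonalSeries κ) ^ (2 ^ i)
    = PowerSeries.expand (2 ^ i) (by positivity) (pentagonalSeries κ) := by
  induction i with
  | zero => simp
  | succ i ih =>
    calc (pentagonalSeries κ) ^ (2 ^ (i + 1)) = ((pentagonalSeries κ) ^ (2 ^ i)) ^ 2 := by
          rw [← pow_mul]; rfl
      _ = PowerSeries.expand (2 ^ i) (by positivity) ((pentagonalSeries κ) ^ 2) := by
          rw [ih, map_pow]
      _ = PowerSeries.expand (2 ^ i * 2) (by positivity) (pentagonalSeries κ) := by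
          rw [pent_sq, ← PowerSeries.expand_mul]
      _ = _ := rfl

theorem expand_congr (p q : ℕ) (hp : p ≠ 0) (hq : q ≠ 0) (h : p = q) (f : PowerSeries κ) :
    PowerSeries.expand p hp f = PowerSeries.expand q hq f := by
  subst h; rfl

/-- `FF = X^5 G(X^24)`. -/
noncomputable def FF : PowerSeries κ :=
  PowerSeries.X ^ 5 * PowerSeries.expand 24 (by norm_num) (G6 κ)

/-- `FF^3 * D(X^3) = D(X^9)^2` with `D = X * P^24`. -/
theorem FF_cube [CharP κ 2] :
    (FF κ) ^ 3 * PowerSeries.expand 3 (by norm_num)
        (PowerSeries.map (Int.castRingHom κ) DeltaZ)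
      = (PowerSeries.expand 9 (by norm_num)
        (PowerSeries.map (Int.castRingHom κ) DeltaZ)) ^ 2 := by
  have hD : PowerSeries.map (Int.castRingHom κ) DeltaZ = X * (pentagonalSeries κ) ^ 24 := by
    rw [DeltaZ, map_mul, map_pow, map_pent, PowerSeries.map_X]
  have hP8 : (pentagonalSeries κ) ^ 8 = PowerSeries.expand 8 (by norm_num) (pentagonalSeries κ) := by
    have := pent_pow κ 3
    norm_num at this
    exact this
  have hP16 : (pentagonalSeries κ) ^ 16 =
      PowerSeries.expand 16 (by norm_num) (pentagonalSeries κ) := by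
    have := pent_pow κ 4
    norm_num at this
    exact this
  rw [hD, FF]
  simp only [map_mul, map_pow, expand_X]
  have e1 : (PowerSeries.expand 3 (by norm_num) (pentagonalSeries κ)) ^ 24 =
      (PowerSeries.expand 24 (by norm_num) (pentagonalSeries κ)) ^ 3 := by
    calc (PowerSeries.expand 3 (by norm_num) (pentagonalSeries κ)) ^ 24
        = (PowerSeries.expand 3 (by norm_num) ((pentagonalSeries κ) ^ 8)) ^ 3 := by
          rw [map_pow, ← pow_mul]
      _ = _ := by
          rw [hP8, ← PowerSeries.expand_mul]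
  have e2 : (PowerSeries.expand 9 (by norm_num) (pentagonalSeries κ)) ^ 48 =
      (PowerSeries.expand 144 (by norm_num) (pentagonalSeries κ)) ^ 3 := by
    calc (PowerSeries.expand 9 (by norm_num) (pentagonalSeries κ)) ^ 48
        = (PowerSeries.expand 9 (by norm_num) ((pentagonalSeries κ) ^ 16)) ^ 3 := by
          rw [map_pow, ← pow_mul]
      _ = _ := by
          rw [hP16, ← PowerSeries.expand_mul]
  have e3 : PowerSeries.expand 24 (by norm_num) (G6 κ) *
      PowerSeries.expand 24 (by norm_num) (pentagonalSeries κ) =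
      PowerSeries.expand 144 (by norm_num) (pentagonalSeries κ) := by
    rw [← map_mul, mul_comm, pent_mul_G6, ← PowerSeries.expand_mul]
  calc (X ^ 5 * PowerSeries.expand 24 (by norm_num) (G6 κ)) ^ 3 *
        (X ^ 3 * (PowerSeries.expand 3 (by norm_num) (pentagonalSeries κ)) ^ 24)
      = X ^ 18 * (PowerSeries.expand 24 (by norm_num) (G6 κ) *
          PowerSeries.expand 24 (by norm_num) (pentagonalSeries κ)) ^ 3 := by
        rw [e1]; ring
    _ = X ^ 18 * (PowerSeries.expand 9 (by norm_num) (pentagonalSeries κ)) ^ 48 := by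
        rw [e3, e2]
    _ = (X ^ 9 * (PowerSeries.expand 9 (by norm_num) (pentagonalSeries κ)) ^ 24) ^ 2 := by
        ring

theorem coeff_FF_ne_zero {n : ℕ} (h : coeff n (FF κ) ≠ 0) :
    ∃ m : ℕ, n = 24 * m + 5 ∧ coeff n (FF κ) = (b6 m : κ) := by
  rw [FF, PowerSeries.coeff_X_pow_mul'] at h ⊢
  split_ifs at h with h5
  · rw [if_pos h5]
    rw [PowerSeries.coeff_expand] at h ⊢
    split_ifs at h with h24
    · rw [if_pos h24]
      obtain ⟨m, hm⟩ := h24
      refine ⟨m, by omega, ?_⟩
      rw [hm, Nat.mul_div_cancel_left _ (by norm_num), G6, coeff_mk]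
    · exact absurd rfl h
  · exact absurd rfl h

end SixReg
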