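import Mathlib
import Pool.Agent.Lib.MP_72e75e_nt.Act
import Pool.Agent.Lib.MP_72e75e_nt.PartGen
import Pool.Agent.Lib.MP_72e75e_nt.DegOne

/-!
# Orders and cube roots of `δ_M`, the action of the Galois group through matrices
-/

namespace SixReg

open PowerSeries
open scoped MatrixGroups

variable {κ : Type} [Field κ] [CharP κ 2] {N : ℕ} [NeZero N]
  {E B : Type} [Field E] [Field B] [Algebra κ E] [Algebra E B] (g : GD κ N E B)
  (ρ : integralClosure ℤ ℂ →+* κ)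

omit [CharP κ 2] in
variable (N) in
theorem om_pow : (om ρ N) ^ N = 1 := by
  unfold om
  rw [← map_pow]
  have : (⟨ζ N, ζ_integral N⟩ : integralClosure ℤ ℂ) ^ N = 1 := by
    apply Subtype.ext
    push_cast
    exact ζ_pow N
  rw [this, map_one]

variable (N) in
theorem om_prim (hN : Odd N) : IsPrimitiveRoot (om ρ N) N := by
  have hNκ : NeZero (N : κ) := by
    refine ⟨?_⟩
    obtain ⟨k, rfl⟩ := hN
    have h2 : ((2 : ℕ) : κ) = 0 := CharP.cast_eq_zero κ 2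
    push_cast at h2 ⊢
    rw [h2]
    simp
  have hNz : NeZero (N : integralClosure ℤ ℂ) := by
    refine ⟨?_⟩
    intro h
    exact hNκ.out (by rw [← map_natCast ρ, h, map_zero])
  have hprim : IsPrimitiveRoot (⟨ζ N, ζ_integral N⟩ : integralClosure ℤ ℂ) N := by
    have h := ζ_isPrimitiveRoot N
    have h2 : IsPrimitiveRoot ((integralClosure ℤ ℂ).val (⟨ζ N, ζ_integral N⟩ : integralClosure ℤ ℂ)) N := h
    exact h2.of_map_of_injective Subtype.val_injective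
  rw [← Polynomial.isRoot_cyclotomic_iff] at hprim ⊢
  unfold om
  rw [Polynomial.IsRoot.def, ← Polynomial.map_cyclotomic_int, Polynomial.eval_map,
    Polynomial.eval₂_eq_eval_map] at hprim ⊢
  rw [Polynomial.map_cyclotomic_int] at hprim ⊢
  have h := Polynomial.eval₂_at_apply (p := Polynomial.cyclotomic N (integralClosure ℤ ℂ)) ρ
    (⟨ζ N, ζ_integral N⟩ : integralClosure ℤ ℂ)
  rw [hprim, map_zero, Polynomial.eval₂_eq_eval_map, Polynomial.map_cyclotomic] at h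
  exact h

/-- `om` as a unit. -/
noncomputable def omU (N : ℕ) [NeZero N] : κˣ :=
  Units.ofPowEqOne (om ρ N) N (om_pow N ρ) (NeZero.ne N)

omit [CharP κ 2] in
theorem omU_val : ((omU ρ N : κˣ) : κ) = om ρ N := rfl

omit [CharP κ 2] in
theorem omU_pow : (omU ρ N) ^ N = 1 := Units.pow_ofPowEqOne _ _

omit [CharP κ 2] in
theorem om_ne : om ρ N ≠ 0 := by
  rw [← omU_val]
  exact Units.ne_zero _

theorem dl_repr (hN : Odd N) {M : Matrix (Fin 2) (Fin 2) ℤ} (h : 0 < M.det ∧ M.det ∣ N) :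
    ∃ (a b d : ℕ) (he : N / d * a ≠ 0), 0 < a ∧ 0 < d ∧ (a : ℤ) * d = M.det ∧ a * d ∣ N ∧
      a = Int.gcd (M 0 0) (M 1 0) ∧
      dl ρ N M = PowerSeries.expand (N / d * a) he
        (PowerSeries.rescale (om ρ N ^ (N / d * b)) (Dk κ)) := by
  obtain ⟨γ, a, b, d, ha, hd, hb, hdet, hgcd, hM⟩ := exists_upper M h.1
  have hadN : a * d ∣ N := by
    have := h.2
    rw [← hdet] at this
    exact_mod_cast this
  have hNpos : 0 < N := Nat.pos_of_ne_zero (NeZero.ne N)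
  have haodd : Odd a := Odd.of_dvd_nat hN ((Dvd.intro _ rfl).trans hadN)
  have hdN : d ∣ N := (Dvd.intro_left _ rfl).trans hadN
  have he : N / d * a ≠ 0 := by
    have : 0 < N / d := Nat.div_pos (Nat.le_of_dvd hNpos hdN) hd
    positivity
  refine ⟨a, b, d, he, ha, hd, hdet, hadN, hgcd, ?_⟩
  conv_lhs => rw [hM]
  rw [dl_SL_mul, dl_upper ρ N haodd hd hadN he]

theorem order_dl (hN : Odd N) {M : Matrix (Fin 2) (Fin 2) ℤ} (h : 0 < M.det ∧ M.det ∣ N) :
    io (dl ρ N M) ≠ 0 ∧ ∀ m : ℕ, (N : ℤ) = M.det * m →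
      (io (dl ρ N M)).order = m * (Int.gcd (M 0 0) (M 1 0) : ℤ) ^ 2 := by
  obtain ⟨a, b, d, he, ha, hd, hdet, hadN, hgcd, hdl⟩ := dl_repr ρ hN h
  have h1 := order_expand_rescale (κ := κ) (P := Dk κ) coeff_Dk_zero coeff_Dk_one
    (pow_ne_zero (N / d * b) (om_ne (N := N) ρ)) he
  rw [← hdl] at h1
  refine ⟨h1.1, ?_⟩
  intro m hm
  rw [h1.2, ← hgcd]
  have hm' : N = a * d * m := by
    rw [← hdet] at hm
    exact_mod_cast hm
  have : N / d = a * m := by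
    rw [hm', show a * d * m = d * (a * m) by ring, Nat.mul_div_cancel_left _ hd]
  rw [this]
  push_cast
  ring

theorem cube_dl {Q : ℕ} (hN3 : N = 3 * Q) (hN : Odd N) {M : Matrix (Fin 2) (Fin 2) ℤ}
    (h : 0 < M.det ∧ M.det ∣ Q) : ∃ ε : PowerSeries κ, ε ^ 3 = dl ρ N M := by
  have hQpos : 0 < Q := by
    rcases Nat.eq_zero_or_pos Q with h0 | h0
    · rw [h0] at hN3; exact absurd hN3 (NeZero.ne N)
    · exact h0
  have h' : 0 < M.det ∧ M.det ∣ N := by
    refine ⟨h.1, h.2.trans ?_⟩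
    rw [hN3]
    push_cast
    exact Dvd.intro_left _ rfl
  obtain ⟨a, b, d, he, ha, hd, hdet, hadN, hgcd, hdl⟩ := dl_repr ρ hN h'
  have hdQ : d ∣ Q := by
    have h1 : (d : ℤ) ∣ Q := (Dvd.intro_left _ hdet).trans h.2
    exact_mod_cast h1
  obtain ⟨f, hf⟩ := hdQ
  have hNd : N / d = 3 * f := by
    rw [hN3, hf, show 3 * (d * f) = d * (3 * f) by ring, Nat.mul_div_cancel_left _ hd]
  have hDk : Dk κ = X * (pentagonalSeries κ) ^ 24 := by
    unfold Dk DeltaZ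
    rw [map_mul, map_pow, map_pent, PowerSeries.map_X]
  refine ⟨C (om ρ N ^ (f * b)) * X ^ (f * a) * PowerSeries.expand (N / d * a) he
    ((rescale (om ρ N ^ (N / d * b)) (pentagonalSeries κ)) ^ 8), ?_⟩
  have e3 : (PowerSeries.expand (N / d * a) he
      ((rescale (om ρ N ^ (N / d * b)) (pentagonalSeries κ)) ^ 8)) ^ 3
      = PowerSeries.expand (N / d * a) he
        (rescale (om ρ N ^ (N / d * b)) ((pentagonalSeries κ) ^ 24)) := by
    rw [← map_pow, ← pow_mul, map_pow (rescale _)]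
  have e1 : f * b * 3 = N / d * b := by rw [hNd]; ring
  have e2 : f * a * 3 = N / d * a := by rw [hNd]; ring
  rw [hdl, hDk, mul_pow, mul_pow, e3, map_mul (rescale _), rescale_X, map_mul, map_mul, expand_C,
    expand_X, ← map_pow, ← pow_mul, ← pow_mul, e1, e2]

/-! ### The action -/

variable {A : Type} [Field A] [Algebra B A] [Algebra E A]

/-- `σ` acts on the family through `γ`. -/
def GD.Acts (hρ : Function.Surjective ρ) (σ : A ≃ₐ[E] A) (γ : SL(2, ℤ)) : Prop :=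
  ∀ M : Matrix (Fin 2) (Fin 2) ℤ, 0 < M.det ∧ M.det ∣ N →
      σ (algebraMap B A (g.dB ρ hρ M))
        = algebraMap B A (g.dB ρ hρ (M * (γ : Matrix (Fin 2) (Fin 2) ℤ)))

variable {g ρ} {hρ : Function.Surjective ρ}

theorem GD.Acts.one : g.Acts ρ hρ (1 : A ≃ₐ[E] A) 1 := by
  intro M _
  simp

theorem GD.Acts.mul {σ τ : A ≃ₐ[E] A} {γ δ : SL(2, ℤ)} (h1 : g.Acts ρ hρ σ γ)
    (h2 : g.Acts ρ hρ τ δ) : g.Acts ρ hρ (τ * σ) (γ * δ) := by
  intro M hM
  have hdet : (M * (γ : Matrix (Fin 2) (Fin 2) ℤ)).det = M.det := by simp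
  rw [AlgEquiv.mul_apply, h1 M hM, h2 _ (by rw [hdet]; exact hM), Matrix.mul_assoc]
  congr 3

theorem GD.Acts.inv {σ : A ≃ₐ[E] A} {γ : SL(2, ℤ)} (h1 : g.Acts ρ hρ σ γ) :
    g.Acts ρ hρ σ⁻¹ γ⁻¹ := by
  intro M hM
  have hdet : (M * ((γ⁻¹ : SL(2, ℤ)) : Matrix (Fin 2) (Fin 2) ℤ)).det = M.det := by
    rw [Matrix.det_mul, Matrix.SpecialLinearGroup.det_coe, mul_one]
  have h2 := h1 (M * ((γ⁻¹ : SL(2, ℤ)) : Matrix (Fin 2) (Fin 2) ℤ)) (by rw [hdet]; exact hM)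
  have h3 : M * ((γ⁻¹ : SL(2, ℤ)) : Matrix (Fin 2) (Fin 2) ℤ) * (γ : Matrix (Fin 2) (Fin 2) ℤ)
      = M := by
    rw [Matrix.mul_assoc, ← Matrix.SpecialLinearGroup.coe_mul, inv_mul_cancel,
      Matrix.SpecialLinearGroup.coe_one, mul_one]
  rw [h3] at h2
  rw [← h2]
  exact σ.symm_apply_apply _

theorem GD.Acts.pow {σ : A ≃ₐ[E] A} {γ : SL(2, ℤ)} (h1 : g.Acts ρ hρ σ γ) (n : ℕ) :
    g.Acts ρ hρ (σ ^ n) (γ ^ n) := by
  induction n with
  | zero => rw [pow_zero, pow_zero]; exact GD.Acts.one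
  | succ n ih =>
    rw [pow_succ, pow_succ']
    exact h1.mul ih

theorem GD.acts_rot (hN : Odd N) (T : A ≃ₐ[E] A)
    (hT : ∀ x : B, ∃ y : B, T (algebraMap B A x) = algebraMap B A y ∧
      g.v y = rot (omU ρ N) (g.v x)) : g.Acts ρ hρ T ModularGroup.T := by
  intro M hM
  obtain ⟨γ, a, b, d, ha, hd, hb, hdet, hgcd, hMe⟩ := exists_upper M hM.1
  have hadN : a * d ∣ N := by
    have := hM.2
    rw [← hdet] at this
    exact_mod_cast this
  have hNpos : 0 < N := Nat.pos_of_ne_zero (NeZero.ne N)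
  have haodd : Odd a := Odd.of_dvd_nat hN ((Dvd.intro _ rfl).trans hadN)
  have hdN : d ∣ N := (Dvd.intro_left _ rfl).trans hadN
  have he : N / d * a ≠ 0 := by
    have : 0 < N / d := Nat.div_pos (Nat.le_of_dvd hNpos hdN) hd
    positivity
  obtain ⟨y, hy1, hy2⟩ := hT (g.dB ρ hρ M)
  rw [hy1]
  congr 1
  apply g.v_inj
  rw [hy2, g.v_dB, g.v_dB, rot_io, omU_val]
  congr 1
  have hMT : M * (ModularGroup.T : Matrix (Fin 2) (Fin 2) ℤ)
      = (γ : Matrix (Fin 2) (Fin 2) ℤ) * !![(a : ℤ), ((a + b : ℕ) : ℤ); 0, d] := by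
    conv_lhs => rw [hMe]
    rw [Matrix.mul_assoc]
    congr 1
    rw [ModularGroup.coe_T]
    ext i j
    fin_cases i <;> fin_cases j <;> simp [Matrix.mul_apply, Fin.sum_univ_two]
  rw [hMT, dl_SL_mul, dl_upper ρ N haodd hd hadN he]
  conv_lhs => rw [hMe, dl_SL_mul, dl_upper ρ N haodd hd hadN he]
  ext n
  rw [coeff_rescale, coeff_expand, coeff_expand]
  split_ifs with hn
  · obtain ⟨k, rfl⟩ := hn
    rw [Nat.mul_div_cancel_left _ (Nat.pos_of_ne_zero he), coeff_rescale, coeff_rescale,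
      ← mul_assoc, ← pow_mul, ← pow_mul, ← pow_add]
    congr 2
    ring
  · rw [mul_zero]

end SixReg
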