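import Mathlib
import Pool.Agent.Lib.MP_72e75e_nt.Mat

/-!
# An automorphism with lower left entry coprime to `Q`
-/

namespace SixReg

open PowerSeries
open scoped MatrixGroups

theorem aeval_ne_zero_aux {κ : Type} [Field κ] {Dx : PowerSeries κ} (h0 : constantCoeff Dx = 0)
    (hne : Dx ≠ 0) : ∀ (n : ℕ) (P : Polynomial κ), P.natDegree ≤ n →
      Polynomial.aeval Dx P = 0 → P = 0 := by
  intro n
  induction n with
  | zero =>
    intro P hP h
    rw [Polynomial.eq_C_of_natDegree_le_zero hP, Polynomial.aeval_C] at h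
    rw [Polynomial.eq_C_of_natDegree_le_zero hP]
    have h1 : algebraMap κ (PowerSeries κ) (P.coeff 0) = C (P.coeff 0) := rfl
    rw [h1] at h
    have h2 := congrArg constantCoeff h
    simp only [constantCoeff_C, map_zero] at h2
    rw [h2, Polynomial.C_0]
  | succ n ih =>
    intro P hP h
    have h1 : P = P.divX * Polynomial.X + Polynomial.C (P.coeff 0) :=
      (Polynomial.divX_mul_X_add P).symm
    have h3 : Polynomial.aeval Dx P = Polynomial.aeval Dx P.divX * Dx + C (P.coeff 0) := by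
      conv_lhs => rw [h1]
      rw [map_add, map_mul, Polynomial.aeval_X, Polynomial.aeval_C]
      rfl
    rw [h] at h3
    have h2 := congrArg constantCoeff h3
    simp only [map_zero, map_add, map_mul, h0, mul_zero, zero_add, constantCoeff_C] at h2
    rw [← h2, map_zero, add_zero] at h3
    have h4 : Polynomial.aeval Dx P.divX = 0 := by
      rcases mul_eq_zero.mp h3.symm with h5 | h5
      · exact h5
      · exact absurd h5 hne
    have h5 := ih P.divX (by
      rw [Polynomial.natDegree_divX_eq_natDegree_tsub_one]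
      omega) h4
    rw [h1, h5, ← h2]
    simp

variable {κ : Type} [Field κ] [CharP κ 2] {N : ℕ} [NeZero N]
  {E B : Type} [Field E] [Field B] [Algebra κ E] [Algebra E B] (g : GD κ N E B)
  {ρ : integralClosure ℤ ℂ →+* κ} {hρ : Function.Surjective ρ}

theorem GD.not_in_E (hN : Odd N) {p : ℕ} (hp : 1 < p) (hpN : p ∣ N) :
    ¬ ∃ e : E, algebraMap E B e = g.dB ρ hρ !![(p : ℤ), ((0 : ℕ) : ℤ); 0, ((1 : ℕ) : ℤ)] := by
  rintro ⟨e, he⟩
  have hNpos : 0 < N := Nat.pos_of_ne_zero (NeZero.ne N)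
  have hodd : Odd p := Odd.of_dvd_nat hN hpN
  have hne : N / 1 * p ≠ 0 := by
    rw [Nat.div_one]
    positivity
  have hdl := dl_upper ρ N (a := p) (b := 0) (d := 1) hodd one_pos (by simpa using hpN) hne
  set M : Matrix (Fin 2) (Fin 2) ℤ := !![(p : ℤ), ((0 : ℕ) : ℤ); 0, ((1 : ℕ) : ℤ)] with hM
  have hdet : 0 < M.det ∧ M.det ∣ N := by
    rw [hM, det_upper]
    refine ⟨by positivity, ?_⟩
    push_cast
    rw [mul_one]
    exact_mod_cast hpN
  obtain ⟨m, h1, _, h3⟩ := orbit_interface (ι := Unit) ρ N hρ (fun _ => M) (fun _ => hdet)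
      (fun _ => 1)
  have h4 : dl ρ N M ∈ m := by simpa using h1
  -- multiset over `B`
  have hex : ∀ y : {x // x ∈ m}, ∃ b : B, g.v b = io y.1 := fun y =>
    g.exists_of_mem m h3 y.1 y.2
  choose f hf using hex
  let _ : Algebra κ B := ((algebraMap E B).comp (algebraMap κ E)).toAlgebra
  have _ : IsScalarTower κ E B := IsScalarTower.of_algebraMap_eq (fun _ => rfl)
  have haev : ∀ P : Polynomial κ, Polynomial.aeval (algebraMap E B g.D) P
      = algebraMap E B (Polynomial.aeval g.D P) := fun P =>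
    Polynomial.aeval_algebraMap_apply B g.D P
  have hDx0 : constantCoeff (PowerSeries.expand N (NeZero.ne N) (Dk κ)) = 0 := by
    rw [← coeff_zero_eq_constantCoeff_apply, coeff_expand, if_pos (dvd_zero _), Nat.zero_div,
      coeff_Dk_zero]
  have hDxN : coeff N (PowerSeries.expand N (NeZero.ne N) (Dk κ)) = 1 := by
    rw [coeff_expand, if_pos dvd_rfl, Nat.div_self hNpos, coeff_Dk_one]
  have hDxne : PowerSeries.expand N (NeZero.ne N) (Dk κ) ≠ 0 := by
    intro h
    rw [h] at hDxN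
    simp at hDxN
  have htr : Transcendental κ (algebraMap E B g.D) := by
    rw [transcendental_iff]
    intro P hP
    rw [haev] at hP
    have h5 := g.v_aeval P
    rw [hP, map_zero] at h5
    exact aeval_ne_zero_aux hDx0 hDxne _ P le_rfl (io_injective (by rw [← h5, map_zero]))
  have hx : g.dB ρ hρ M ∈ m.attach.map f := by
    rw [Multiset.mem_map]
    refine ⟨⟨_, h4⟩, Multiset.mem_attach _ _, ?_⟩
    apply g.v_inj
    rw [hf, g.v_dB]
  have hsym : ∀ j, ∃ P : Polynomial κ, P.natDegree ≤ j ∧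
      (m.attach.map f).esymm j = Polynomial.aeval (algebraMap E B g.D) P := by
    intro j
    obtain ⟨P, hP1, hP2⟩ := h3 j
    refine ⟨P, hP1, ?_⟩
    apply g.v_inj
    rw [haev, g.v_aeval, ← hP2, map_esymm_multiset, map_esymm_multiset]
    congr 1
    rw [Multiset.map_map]
    conv_rhs => rw [← Multiset.attach_map_val m, Multiset.map_map]
    refine Multiset.map_congr rfl fun y _ => ?_
    simp [hf]
  have hxE : ∃ p q : Polynomial κ, Polynomial.aeval (algebraMap E B g.D) q ≠ 0 ∧
      g.dB ρ hρ M = Polynomial.aeval (algebraMap E B g.D) p /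
        Polynomial.aeval (algebraMap E B g.D) q := by
    obtain ⟨P, R, h5, h6⟩ := g.hE e
    refine ⟨P, R, ?_, ?_⟩
    · rw [haev]
      intro h
      exact h5 ((algebraMap E B).injective (by rw [h, map_zero]))
    · rw [haev, haev, ← map_div₀, ← h6, he]
  obtain ⟨α, β, hαβ⟩ := deg_le_one (algebraMap E B g.D) htr _ hsym _ hx hxE
  have h7 := congrArg g.v hαβ
  have hα : g.v (algebraMap κ B α) = HahnSeries.C α := g.hC α
  have hβ : g.v (algebraMap κ B β) = HahnSeries.C β := g.hC β
  rw [g.v_dB, map_add, map_mul, hα, hβ, g.hD, ← io_C, ← io_C, ← map_mul, ← map_add] at h7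
  have h8 := io_injective h7
  rw [hdl] at h8
  have h9 := congrArg (coeff 0) h8
  rw [coeff_expand, if_pos (dvd_zero _), Nat.zero_div, coeff_rescale, coeff_Dk_zero, mul_zero,
    map_add, coeff_zero_eq_constantCoeff_apply, coeff_zero_eq_constantCoeff_apply, constantCoeff_C,
    map_mul, hDx0, mul_zero, add_zero] at h9
  have h10 := congrArg (coeff N) h8
  rw [coeff_expand, if_neg, map_add, coeff_C, if_neg hNpos.ne', coeff_C_mul, hDxN, mul_one,
    zero_add] at h10
  · rw [← h9, ← h10] at h8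
    have h11 := congrArg (coeff (N / 1 * p)) h8
    rw [coeff_expand, if_pos dvd_rfl, Nat.div_self (Nat.pos_of_ne_zero hne), coeff_rescale,
      coeff_Dk_one] at h11
    simp at h11
  · rw [Nat.div_one]
    intro h
    have := Nat.le_of_dvd hNpos h
    nlinarith

variable [IsAlgClosed κ] [Algebra.IsAlgebraic E B]
variable {A : Type} [Field A] [Algebra B A] [Algebra E A] [IsScalarTower E B A] [IsAlgClosure B A]

theorem GD.exists_moving (hN : Odd N) {p : ℕ} (hp : 1 < p) (hpN : p ∣ N) :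
    ∃ (σ : A ≃ₐ[E] A) (γ : SL(2, ℤ)), g.Acts ρ hρ σ γ ∧ ¬ (p : ℤ) ∣ γ 1 0 := by
  by_contra hcon
  push Not at hcon
  have hinf : Infinite κ := IsAlgClosed.instInfinite
  refine g.not_in_E (ρ := ρ) (hρ := hρ) hN hp hpN ?_
  apply g.fixed (A := A) hN
  intro σ
  obtain ⟨γ, hγ⟩ := g.act ρ hρ σ
  obtain ⟨c, hc⟩ := hcon σ γ hγ
  have hNpos : 0 < N := Nat.pos_of_ne_zero (NeZero.ne N)
  have hdet : 0 < (!![(p : ℤ), ((0 : ℕ) : ℤ); 0, ((1 : ℕ) : ℤ)]).det ∧
      (!![(p : ℤ), ((0 : ℕ) : ℤ); 0, ((1 : ℕ) : ℤ)]).det ∣ N := by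
    rw [det_upper]
    refine ⟨by positivity, ?_⟩
    push_cast
    rw [mul_one]
    exact_mod_cast hpN
  rw [hγ _ hdet]
  congr 1
  apply g.dB_congr
  have hdetγ : γ 0 0 * γ 1 1 - γ 0 1 * γ 1 0 = 1 := by
    have := γ.det_coe
    rw [Matrix.det_fin_two] at this
    exact this
  let γ' : SL(2, ℤ) := ⟨!![γ 0 0, p * γ 0 1; c, γ 1 1], by
    rw [Matrix.det_fin_two_of]
    rw [hc] at hdetγ
    linear_combination hdetγ⟩
  have hmul : !![(p : ℤ), ((0 : ℕ) : ℤ); 0, ((1 : ℕ) : ℤ)] * (γ : Matrix (Fin 2) (Fin 2) ℤ)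
      = (γ' : Matrix (Fin 2) (Fin 2) ℤ) * !![(p : ℤ), ((0 : ℕ) : ℤ); 0, ((1 : ℕ) : ℤ)] := by
    have h1 : (γ' : Matrix (Fin 2) (Fin 2) ℤ) = !![γ 0 0, p * γ 0 1; c, γ 1 1] := rfl
    rw [h1]
    ext i j
    fin_cases i <;> fin_cases j <;>
      simp [Matrix.mul_apply, Fin.sum_univ_two, mul_comm]
    rw [hc, mul_comm]
  rw [hmul, dl_SL_mul]

theorem conj_entry (γ : SL(2, ℤ)) (e : ℕ) :
    (γ⁻¹ * ModularGroup.T ^ e * γ) 1 0 = - e * (γ 1 0) ^ 2 := by
  have hT : ((ModularGroup.T ^ e : SL(2, ℤ)) : Matrix (Fin 2) (Fin 2) ℤ) = !![1, (e : ℤ); 0, 1] := by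
    have := ModularGroup.coe_T_zpow (e : ℤ)
    rwa [zpow_natCast] at this
  rw [Matrix.SpecialLinearGroup.coe_mul, Matrix.SpecialLinearGroup.coe_mul, hT,
    Matrix.SpecialLinearGroup.coe_inv, Matrix.adjugate_fin_two]
  simp [Matrix.mul_apply, Fin.sum_univ_two]
  ring

/-- the good element -/
theorem GD.exists_good (hN : Odd N) {Q : ℕ} (hQ0 : Q ≠ 0) (hQ : Q ∣ N) (T : A ≃ₐ[E] A)
    (hT : g.Acts ρ hρ T ModularGroup.T) :
    ∃ (σ : A ≃ₐ[E] A) (γ : SL(2, ℤ)), g.Acts ρ hρ σ γ ∧
      (∀ x : A, (∀ τ : A ≃ₐ[E] A, T (τ x) = τ x) → σ x = x) ∧ Int.gcd (γ 1 0) Q = 1 := by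
  classical
  have key : ∀ S : Finset ℕ, S ⊆ Q.primeFactors → ∃ (σ : A ≃ₐ[E] A) (γ : SL(2, ℤ)),
      g.Acts ρ hρ σ γ ∧ (∀ x : A, (∀ τ : A ≃ₐ[E] A, T (τ x) = τ x) → σ x = x) ∧
      (∀ p ∈ S, ((γ 1 0 : ℤ) : ZMod p) ≠ 0) ∧
      (∀ p ∈ Q.primeFactors, p ∉ S →
        Matrix.SpecialLinearGroup.map (Int.castRingHom (ZMod p)) γ = 1) := by
    intro S
    induction S using Finset.induction_on with
    | empty =>
      intro _
      exact ⟨1, 1, GD.Acts.one, fun _ _ => rfl, by simp, fun p _ _ => map_one _⟩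
    | insert q S hq ih =>
      intro hS
      obtain ⟨σ, γ, hact, hfix, hin, hout⟩ := ih ((Finset.subset_insert q S).trans hS)
      have hqP : q ∈ Q.primeFactors := hS (Finset.mem_insert_self q S)
      have hqprime : q.Prime := Nat.prime_of_mem_primeFactors hqP
      have hqN : q ∣ N := (Nat.dvd_of_mem_primeFactors hqP).trans hQ
      obtain ⟨σ1, γ1, hact1, hmove⟩ := g.exists_moving (A := A) (ρ := ρ) (hρ := hρ) hN
        hqprime.one_lt hqN
      let e : ℕ := ∏ p ∈ Q.primeFactors.erase q, p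
      have hacth : g.Acts ρ hρ (σ1 * (T ^ e * σ1⁻¹)) (γ1⁻¹ * ModularGroup.T ^ e * γ1) :=
        (hact1.inv.mul (hT.pow e)).mul hact1
      refine ⟨(σ1 * (T ^ e * σ1⁻¹)) * σ, γ * (γ1⁻¹ * ModularGroup.T ^ e * γ1),
        hact.mul hacth, ?_, ?_, ?_⟩
      · intro x hx
        have h1 : ∀ n : ℕ, (T ^ n) (σ1⁻¹ x) = σ1⁻¹ x := by
          intro n
          induction n with
          | zero => rfl
          | succ n ihn => rw [pow_succ, AlgEquiv.mul_apply, hx, ihn]
        rw [AlgEquiv.mul_apply, hfix x hx, AlgEquiv.mul_apply, AlgEquiv.mul_apply, h1]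
        exact σ1.apply_symm_apply x
      · intro p hp
        have hmapT : p ≠ q → p ∈ Q.primeFactors →
            Matrix.SpecialLinearGroup.map (Int.castRingHom (ZMod p))
              (γ1⁻¹ * ModularGroup.T ^ e * γ1) = 1 := by
          intro hne hpP
          have hpe : p ∣ e := Finset.dvd_prod_of_mem _ (Finset.mem_erase.mpr ⟨hne, hpP⟩)
          have hT1 : Matrix.SpecialLinearGroup.map (Int.castRingHom (ZMod p))
              (ModularGroup.T ^ e) = 1 := by
            have hTe : ((ModularGroup.T ^ e : SL(2, ℤ)) : Matrix (Fin 2) (Fin 2) ℤ)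
                = !![1, (e : ℤ); 0, 1] := by
              have := ModularGroup.coe_T_zpow (e : ℤ)
              rwa [zpow_natCast] at this
            have he0 : ((e : ℕ) : ZMod p) = 0 := (ZMod.natCast_eq_zero_iff e p).mpr hpe
            ext i j
            rw [Matrix.SpecialLinearGroup.map_apply_coe, RingHom.mapMatrix_apply, hTe]
            fin_cases i <;> fin_cases j <;> simp [he0]
          rw [map_mul, map_mul, hT1, mul_one, ← map_mul, inv_mul_cancel, map_one]
        have hentry : ∀ δ : SL(2, ℤ), ((δ 1 0 : ℤ) : ZMod p)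
            = (Matrix.SpecialLinearGroup.map (Int.castRingHom (ZMod p)) δ) 1 0 := by
          intro δ
          simp
        rcases Finset.mem_insert.mp hp with rfl | hpS
        · -- `p = q`
          have hmapγ := hout p hqP hq
          rw [hentry, map_mul, hmapγ, one_mul, ← hentry, conj_entry]
          have hf : Fact p.Prime := ⟨hqprime⟩
          push_cast
          intro h0
          rcases mul_eq_zero.mp h0 with h1 | h1
          · rw [neg_eq_zero, ZMod.natCast_eq_zero_iff] at h1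
            rw [Prime.dvd_finsetProd_iff hqprime.prime] at h1
            obtain ⟨r, hr, hdvd⟩ := h1
            rw [Finset.mem_erase] at hr
            exact hr.1 ((Nat.prime_dvd_prime_iff_eq hqprime
              (Nat.prime_of_mem_primeFactors hr.2)).mp hdvd).symm
          · rw [pow_eq_zero_iff two_ne_zero, ZMod.intCast_zmod_eq_zero_iff_dvd] at h1
            exact hmove h1
        · have hne : p ≠ q := fun h => hq (h ▸ hpS)
          have hpP : p ∈ Q.primeFactors := hS (Finset.mem_insert_of_mem hpS)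
          rw [hentry, map_mul, hmapT hne hpP, mul_one, ← hentry]
          exact hin p hpS
      · intro p hpP hpS
        rw [Finset.mem_insert, not_or] at hpS
        have hpe : p ∣ e := Finset.dvd_prod_of_mem _ (Finset.mem_erase.mpr ⟨hpS.1, hpP⟩)
        have hT1 : Matrix.SpecialLinearGroup.map (Int.castRingHom (ZMod p))
            (ModularGroup.T ^ e) = 1 := by
          have hTe : ((ModularGroup.T ^ e : SL(2, ℤ)) : Matrix (Fin 2) (Fin 2) ℤ)
              = !![1, (e : ℤ); 0, 1] := by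
            have := ModularGroup.coe_T_zpow (e : ℤ)
            rwa [zpow_natCast] at this
          have he0 : ((e : ℕ) : ZMod p) = 0 := (ZMod.natCast_eq_zero_iff e p).mpr hpe
          ext i j
          rw [Matrix.SpecialLinearGroup.map_apply_coe, RingHom.mapMatrix_apply, hTe]
          fin_cases i <;> fin_cases j <;> simp [he0]
        rw [map_mul, hout p hpP hpS.2, one_mul, map_mul, map_mul, hT1, mul_one, ← map_mul,
          inv_mul_cancel, map_one]
  obtain ⟨σ, γ, hact, hfix, hin, _⟩ := key Q.primeFactors subset_rfl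
  refine ⟨σ, γ, hact, hfix, ?_⟩
  rw [Int.gcd_comm]
  by_contra hne
  obtain ⟨p, hp, hpd⟩ := Nat.exists_prime_and_dvd hne
  have h1 : (p : ℤ) ∣ Q := (Int.natCast_dvd_natCast.mpr hpd).trans (Int.gcd_dvd_left _ _)
  have h2 : (p : ℤ) ∣ γ 1 0 := (Int.natCast_dvd_natCast.mpr hpd).trans (Int.gcd_dvd_right _ _)
  have hpP : p ∈ Q.primeFactors := by
    rw [Nat.mem_primeFactors]
    exact ⟨hp, by exact_mod_cast h1, hQ0⟩
  exact hin p hpP ((ZMod.intCast_zmod_eq_zero_iff_dvd _ _).mpr h2)

end SixReg
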