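import Mathlib

/-!
# The residue field of the algebraic integers at a prime above `2`
-/

namespace SixReg

open Polynomial

theorem not_isUnit_two : ¬ IsUnit (2 : integralClosure ℤ ℂ) := by
  intro h
  obtain ⟨u, hu⟩ := h
  have h1 : (2 : ℂ) * ((u⁻¹ : (integralClosure ℤ ℂ)ˣ) : integralClosure ℤ ℂ) = 1 := by
    have := congrArg (algebraMap (integralClosure ℤ ℂ) ℂ) (u.mul_inv)
    rw [map_mul, hu, map_one] at this
    exact this
  have h2 : IsIntegral ℤ ((((u⁻¹ : (integralClosure ℤ ℂ)ˣ) : integralClosure ℤ ℂ)) : ℂ) :=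
    ((u⁻¹ : (integralClosure ℤ ℂ)ˣ) : integralClosure ℤ ℂ).2
  have h3 : ((((u⁻¹ : (integralClosure ℤ ℂ)ˣ) : integralClosure ℤ ℂ)) : ℂ)
      = algebraMap ℚ ℂ (1 / 2) := by
    have : (2 : ℂ) ≠ 0 := by norm_num
    field_simp at h1 ⊢
    simp only [one_div, map_inv₀, map_ofNat]
    field_simp
    linear_combination h1
  rw [h3] at h2
  have h4 : IsIntegral ℤ (1 / 2 : ℚ) :=
    (isIntegral_algebraMap_iff (algebraMap ℚ ℂ).injective).mp h2
  obtain ⟨y, hy⟩ := IsIntegrallyClosed.isIntegral_iff.mp h4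
  have h5 : (2 * y : ℚ) = 1 := by
    have : ((y : ℤ) : ℚ) = 1 / 2 := by simpa using hy
    rw [this]; norm_num
  have h6 : (2 * y : ℤ) = 1 := by exact_mod_cast h5
  omega

theorem exists_kappa : ∃ (κ : Type) (_ : Field κ) (_ : CharP κ 2)
    (ρ : integralClosure ℤ ℂ →+* κ), Function.Surjective ρ ∧ IsAlgClosed κ := by
  obtain ⟨m, hm, h2⟩ := Ideal.exists_le_maximal (Ideal.span {(2 : integralClosure ℤ ℂ)}) (by
    rw [Ne, Ideal.span_singleton_eq_top]
    exact not_isUnit_two)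
  have hmem : (2 : integralClosure ℤ ℂ) ∈ m := h2 (Ideal.subset_span rfl)
  let _ : Field (integralClosure ℤ ℂ ⧸ m) := Ideal.Quotient.field m
  have h20 : (2 : integralClosure ℤ ℂ ⧸ m) = 0 := by
    have h := Ideal.Quotient.eq_zero_iff_mem.mpr hmem
    rwa [map_ofNat] at h
  have hchar : CharP (integralClosure ℤ ℂ ⧸ m) 2 :=
    CharTwo.of_one_ne_zero_of_two_eq_zero one_ne_zero h20
  refine ⟨integralClosure ℤ ℂ ⧸ m, inferInstance, hchar, Ideal.Quotient.mk m,
    Ideal.Quotient.mk_surjective, ?_⟩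
  refine IsAlgClosed.of_exists_root _ fun p hp hirr => ?_
  have hlift : p ∈ Polynomial.lifts (Ideal.Quotient.mk m) := by
    rw [Polynomial.mem_lifts]
    obtain ⟨q, hq⟩ := Polynomial.map_surjective _ Ideal.Quotient.mk_surjective p
    exact ⟨q, hq⟩
  obtain ⟨q, hq, hdeg, hmon⟩ := Polynomial.lifts_and_natDegree_eq_and_monic hlift hp
  have hdegpos : 0 < q.natDegree := by rw [hdeg]; exact hirr.natDegree_pos
  have hq' : (q.map (algebraMap (integralClosure ℤ ℂ) ℂ)).degree ≠ 0 := by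
    rw [hmon.degree_map, Polynomial.degree_eq_natDegree hmon.ne_zero]
    exact_mod_cast hdegpos.ne'
  obtain ⟨z, hz⟩ := IsAlgClosed.exists_root _ hq'
  have hzint : IsIntegral (integralClosure ℤ ℂ) z := by
    refine ⟨q, hmon, ?_⟩
    rw [Polynomial.IsRoot.def, Polynomial.eval_map] at hz
    exact hz
  have hzint' : IsIntegral ℤ z := isIntegral_trans (R := ℤ) (A := integralClosure ℤ ℂ) z hzint
  refine ⟨Ideal.Quotient.mk m ⟨z, hzint'⟩, ?_⟩
  rw [← hq, Polynomial.eval_map, Polynomial.eval₂_at_apply]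
  have : q.eval (⟨z, hzint'⟩ : integralClosure ℤ ℂ) = 0 := by
    apply Subtype.ext
    rw [Polynomial.IsRoot.def, Polynomial.eval_map] at hz
    have h1 := Polynomial.eval₂_at_apply (algebraMap (integralClosure ℤ ℂ) ℂ) (p := q)
      (⟨z, hzint'⟩ : integralClosure ℤ ℂ)
    change Polynomial.eval₂ _ z q = _ at h1
    rw [hz] at h1
    exact h1.symm
  rw [this, map_zero]

end SixReg
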