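import Mathlib
import Pool.Agent.Lib.MP_72e75e_nt.Sep

/-!
# The field `L` of elements of `B` all of whose conjugates are Laurent series
-/

namespace SixReg

open PowerSeries

variable {κ : Type} [Field κ] [CharP κ 2] [IsAlgClosed κ] {N : ℕ} [NeZero N]
  {E B : Type} [Field E] [Field B] [Algebra κ E] [Algebra E B] (g : GD κ N E B)

/-- elements of `B` all of whose conjugates in `A` lie in `B`. -/
def LL (E B A : Type) [Field E] [Field B] [Field A] [Algebra E B] [Algebra B A] [Algebra E A] :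
    Subfield B where
  carrier := {x | ∀ σ : A ≃ₐ[E] A, ∃ y : B, σ (algebraMap B A x) = algebraMap B A y}
  mul_mem' := by
    intro a b ha hb σ
    obtain ⟨y, hy⟩ := ha σ
    obtain ⟨z, hz⟩ := hb σ
    exact ⟨y * z, by rw [map_mul, map_mul, map_mul, hy, hz]⟩
  one_mem' := fun σ => ⟨1, by rw [map_one, map_one]⟩
  add_mem' := by
    intro a b ha hb σ
    obtain ⟨y, hy⟩ := ha σ
    obtain ⟨z, hz⟩ := hb σ
    exact ⟨y + z, by rw [map_add, map_add, map_add, hy, hz]⟩
  zero_mem' := fun σ => ⟨0, by rw [map_zero, map_zero]⟩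
  neg_mem' := by
    intro a ha σ
    obtain ⟨y, hy⟩ := ha σ
    exact ⟨-y, by rw [map_neg, map_neg, map_neg, hy]⟩
  inv_mem' := by
    intro a ha σ
    obtain ⟨y, hy⟩ := ha σ
    exact ⟨y⁻¹, by rw [map_inv₀, map_inv₀, map_inv₀, hy]⟩

variable {A : Type} [Field A] [Algebra B A] [Algebra E A]

omit [Field κ] [CharP κ 2] [IsAlgClosed κ] [NeZero N] [Algebra κ E] in
theorem mem_LL {x : B} : x ∈ LL E B A ↔
    ∀ σ : A ≃ₐ[E] A, ∃ y : B, σ (algebraMap B A x) = algebraMap B A y := Iff.rfl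

theorem LL_conj {x y : B} (hx : x ∈ LL E B A) (σ : A ≃ₐ[E] A)
    (h : σ (algebraMap B A x) = algebraMap B A y) : y ∈ LL E B A := by
  intro τ
  obtain ⟨z, hz⟩ := hx (τ * σ)
  refine ⟨z, ?_⟩
  rw [← h, ← hz]
  rfl

variable [IsScalarTower E B A]

theorem LL_alg (e : E) : algebraMap E B e ∈ LL E B A := by
  intro σ
  refine ⟨algebraMap E B e, ?_⟩
  rw [← IsScalarTower.algebraMap_apply E B A, AlgEquiv.commutes]

theorem LL_aeval {x : B} (hx : x ∈ LL E B A) (P : Polynomial E) :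
    Polynomial.aeval x P ∈ LL E B A := by
  induction P using Polynomial.induction_on' with
  | add p q hp hq => rw [map_add]; exact add_mem hp hq
  | monomial n c =>
    rw [Polynomial.aeval_monomial]
    exact mul_mem (LL_alg c) (pow_mem hx n)

variable [Algebra.IsAlgebraic E B]

include g in
theorem GD.LL_dec (hN : Odd N) {x : B} (hx : x ∈ LL E B A) :
    ∃ a ∈ LL E B A, ∃ b ∈ LL E B A, x = a ^ 2 + algebraMap E B g.D * b ^ 2 := by
  have hE2 := g.charE
  have hB2 := g.charB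
  have hexp : ExpChar E 2 := ExpChar.prime Nat.prime_two
  have hsep : IsSeparable E x := g.sep hN x
  have h1 := IntermediateField.adjoin_simple_eq_adjoin_pow_expChar_of_isSeparable E B hsep 2
  have h2 : x ∈ IntermediateField.adjoin E {x ^ 2} := by
    rw [← h1]
    exact IntermediateField.mem_adjoin_simple_self E x
  obtain ⟨p, q, h3⟩ := (IntermediateField.mem_adjoin_simple_iff E x).mp h2
  obtain ⟨P1, P2, hsplit, _, _⟩ := g.poly_split (p * q)
  have h4 : Polynomial.aeval (x ^ 2) p * Polynomial.aeval (x ^ 2) q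
      = (Polynomial.aeval x P1) ^ 2 + algebraMap E B g.D * (Polynomial.aeval x P2) ^ 2 := by
    rw [← map_mul, ← Polynomial.expand_aeval, hsplit]
    simp
  have hs : Polynomial.aeval (x ^ 2) q ∈ LL E B A := LL_aeval (pow_mem hx 2) q
  by_cases hq : Polynomial.aeval (x ^ 2) q = 0
  · rw [hq, div_zero] at h3
    exact ⟨0, zero_mem _, 0, zero_mem _, by rw [h3]; ring⟩
  · refine ⟨Polynomial.aeval x P1 / Polynomial.aeval (x ^ 2) q, div_mem (LL_aeval hx _) hs,
      Polynomial.aeval x P2 / Polynomial.aeval (x ^ 2) q, div_mem (LL_aeval hx _) hs, ?_⟩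
    conv_lhs => rw [h3]
    rw [div_pow, div_pow, ← mul_div_assoc, ← add_div, ← h4, sq (Polynomial.aeval (x ^ 2) q),
      mul_div_mul_right _ _ hq]

include g in
theorem GD.LL_dec_u (hN : Odd N) {u : B} (hu : u ∈ LL E B A) (hu0 : u ≠ 0)
    (huo : Odd (g.v u).order) {x : B} (hx : x ∈ LL E B A) :
    ∃ a ∈ LL E B A, ∃ b ∈ LL E B A, x = a ^ 2 + u * b ^ 2 := by
  have hB2 := g.charB
  obtain ⟨α, hα, β, hβ, h1⟩ := g.LL_dec hN hu
  have hβ0 : β ≠ 0 := by
    rintro rfl
    refine not_sq_of_odd_order (x := g.v u) ?_ huo (g.v α) ?_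
    · intro h
      exact hu0 (g.v_inj (by rw [h, map_zero]))
    · rw [← map_pow, h1]
      congr 1
      ring
  obtain ⟨a, ha, b, hb, h2⟩ := g.LL_dec hN hx
  refine ⟨a + α / β * b, add_mem ha (mul_mem (div_mem hα hβ) hb), b / β, div_mem hb hβ, ?_⟩
  rw [CharTwo.add_sq, h2]
  have h3 : algebraMap E B g.D = (u + α ^ 2) / β ^ 2 := by
    rw [eq_div_iff (pow_ne_zero 2 hβ0), h1]
    have : α ^ 2 + algebraMap E B g.D * β ^ 2 + α ^ 2
        = algebraMap E B g.D * β ^ 2 + (α ^ 2 + α ^ 2) := by ring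
    rw [this, CharTwo.add_self_eq_zero, add_zero]
  rw [h3]
  field_simp
  ring

include g in
theorem GD.LL_dec_pow (hN : Odd N) {u : B} (hu : u ∈ LL E B A) (hu0 : u ≠ 0)
    (huo : Odd (g.v u).order) (k : ℕ) {x : B} (hx : x ∈ LL E B A) :
    ∃ y : ℕ → B, (∀ r, y r ∈ LL E B A) ∧ x = ∑ r ∈ Finset.range (2 ^ k), u ^ r * (y r) ^ (2 ^ k) := by
  have hB2 := g.charB
  induction k with
  | zero => exact ⟨fun _ => x, fun _ => hx, by simp⟩
  | succ k ih =>
    obtain ⟨y, hy, hxy⟩ := ih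
    choose a ha b hb hab using fun r => g.LL_dec_u hN hu hu0 huo (hy r)
    refine ⟨fun r => if r < 2 ^ k then a r else b (r - 2 ^ k), ?_, ?_⟩
    · intro r
      simp only
      split_ifs
      · exact ha r
      · exact hb _
    · rw [hxy, pow_succ 2 k, mul_two, Finset.sum_range_add, ← Finset.sum_add_distrib]
      refine Finset.sum_congr rfl fun r hr => ?_
      have hr' : r < 2 ^ k := Finset.mem_range.mp hr
      simp only
      rw [if_pos hr', if_neg (by omega), Nat.add_sub_cancel_left]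
      conv_lhs => rw [hab r]
      rw [add_pow_char_pow, mul_pow, ← pow_mul, ← pow_mul, ← mul_two, ← pow_succ, ← pow_succ',
        pow_add]
      ring

include g in
theorem GD.no_class (hN : Odd N) {u : B} (hu : u ∈ LL E B A) (hu0 : u ≠ 0)
    (huo : Odd (g.v u).order) {s : ℕ} {c : ℤ} (hc : Odd c) (hcls : Cls (2 ^ s) c (g.v u))
    {x : B} (hx : x ∈ LL E B A) {n0 : ℤ}
    (hx0 : ∀ n : ℤ, n ≡ n0 [ZMOD ((2 ^ s : ℕ) : ℤ)] → (g.v x).coeff n = 0)
    (τ : A ≃ₐ[E] A) (hτ : τ (algebraMap B A u) = algebraMap B A u) :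
    ∃ y : B, τ (algebraMap B A x) = algebraMap B A y ∧
      ∀ n : ℤ, n ≡ n0 [ZMOD ((2 ^ s : ℕ) : ℤ)] → (g.v y).coeff n = 0 := by
  have hB2 := g.charB
  obtain ⟨y, hy, hxy⟩ := g.LL_dec_pow hN hu hu0 huo s hx
  choose z hz using fun r => hy r τ
  have hterm : ∀ (w : B) (r : ℕ), Cls (2 ^ s) (r * c) (g.v (u ^ r * w ^ (2 ^ s))) := by
    intro w r
    rw [map_mul, map_pow, map_pow]
    have := (hcls.pow r).mul (cls_frob s (g.v w))
    rwa [add_zero] at this
  have hcop : Int.gcd ((2 ^ s : ℕ) : ℤ) c = 1 := by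
    rw [← Int.isCoprime_iff_gcd_eq_one]
    push_cast
    refine IsCoprime.pow_left ?_
    obtain ⟨k, rfl⟩ := hc
    exact ⟨-k, 1, by ring⟩
  have huniq : ∀ r r' : ℕ, r < 2 ^ s → r' < 2 ^ s → (r : ℤ) * c ≡ n0 [ZMOD ((2 ^ s : ℕ) : ℤ)] →
      (r' : ℤ) * c ≡ n0 [ZMOD ((2 ^ s : ℕ) : ℤ)] → r = r' := by
    intro r r' hr hr' h1 h2
    have h3 : (r : ℤ) * c ≡ r' * c [ZMOD ((2 ^ s : ℕ) : ℤ)] := h1.trans h2.symm
    have h4 : (r : ℤ) ≡ r' [ZMOD ((2 ^ s : ℕ) : ℤ)] := by
      have := Int.ModEq.cancel_right_div_gcd (by positivity) h3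
      rw [hcop] at this
      simpa using this
    have h5 : r ≡ r' [MOD 2 ^ s] := (Int.natCast_modEq_iff).mp h4
    exact Nat.ModEq.eq_of_lt_of_lt h5 hr hr'
  have hcoef : ∀ (w : ℕ → B) (n : ℤ), (g.v (∑ r ∈ Finset.range (2 ^ s), u ^ r * (w r) ^ (2 ^ s))).coeff n
      = ∑ r ∈ Finset.range (2 ^ s), (g.v (u ^ r * (w r) ^ (2 ^ s))).coeff n := by
    intro w n
    rw [map_sum, HahnSeries.coeff_sum]
  refine ⟨∑ r ∈ Finset.range (2 ^ s), u ^ r * (z r) ^ (2 ^ s), ?_, ?_⟩
  · rw [hxy, map_sum, map_sum, map_sum]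
    refine Finset.sum_congr rfl fun r _ => ?_
    simp only [map_mul, map_pow, hτ, hz]
  · intro n hn
    rw [hcoef]
    refine Finset.sum_eq_zero fun r hr => ?_
    by_cases hrc : (r : ℤ) * c ≡ n0 [ZMOD ((2 ^ s : ℕ) : ℤ)]
    · -- then `y r = 0`
      have hyr : y r = 0 := by
        have h1 : g.v (u ^ r * (y r) ^ (2 ^ s)) = 0 := by
          ext m
          rw [HahnSeries.coeff_zero]
          by_cases hm : m ≡ n0 [ZMOD ((2 ^ s : ℕ) : ℤ)]
          · have h2 := hx0 m hm
            rw [hxy, hcoef, Finset.sum_eq_single r] at h2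
            · exact h2
            · intro r' hr' hne
              by_contra hcon
              have h3 := hterm (y r') r' m hcon
              exact hne (huniq r' r (Finset.mem_range.mp hr') (Finset.mem_range.mp hr)
                (h3.symm.trans hm) hrc)
            · intro h; exact absurd hr h
          · by_contra hcon
            exact hm ((hterm (y r) r m hcon).trans hrc)
        have h2 : u ^ r * (y r) ^ (2 ^ s) = 0 := g.v_inj (by rw [h1, map_zero])
        rcases mul_eq_zero.mp h2 with h3 | h3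
        · exact absurd h3 (pow_ne_zero r hu0)
        · exact (pow_eq_zero_iff (by positivity)).mp h3
      have hzr : z r = 0 := by
        have h1 := hz r
        rw [hyr, map_zero, map_zero] at h1
        exact (algebraMap B A).injective (by rw [← h1, map_zero])
      rw [hzr]
      simp
    · by_contra hcon
      exact hrc ((hterm (z r) r n hcon).symm.trans hn)

end SixReg
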