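import Mathlib

/-!
# Theta series `∑_{m ≡ a (M)} X^{m^2}` in characteristic two
-/

namespace SixReg

open PowerSeries

variable (κ : Type*) [CommRing κ]

open Classical in
/-- coefficient of `X^n` is `1` iff `n = m^2` for some integer `m ≡ a (mod M)`. -/
noncomputable def th (a : ℤ) (M : ℕ) : PowerSeries κ :=
  PowerSeries.mk fun n => if ∃ m : ℤ, m ≡ a [ZMOD M] ∧ m ^ 2 = (n : ℤ) then 1 else 0

variable {κ}

open Classical in
/-- auxiliary: the 0/1 series of the image of `f`. -/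
noncomputable def serF (κ : Type*) [CommRing κ] (f : ℤ → ℕ) : PowerSeries κ :=
  PowerSeries.mk fun n => if ∃ s : ℤ, f s = n then 1 else 0

/-- the squares of an arithmetic progression. -/
def sqf (a : ℤ) (M : ℕ) (s : ℤ) : ℕ := (a + M * s).natAbs ^ 2

lemma sqf_cast (a : ℤ) (M : ℕ) (s : ℤ) : ((sqf a M s : ℕ) : ℤ) = (a + M * s) ^ 2 := by
  unfold sqf
  push_cast
  exact sq_abs _

lemma th_eq_serF (a : ℤ) (M : ℕ) : th κ a M = serF κ (sqf a M) := by
  classical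
  ext n
  unfold th serF
  rw [coeff_mk, coeff_mk]
  congr 1
  apply propext
  constructor
  · rintro ⟨m, hm, hn⟩
    obtain ⟨s, hs⟩ := (Int.modEq_iff_add_fac.1 hm.symm)
    refine ⟨s, ?_⟩
    have : ((sqf a M s : ℕ) : ℤ) = (n : ℤ) := by
      rw [sqf_cast, ← hs, hn]
    exact_mod_cast this
  · rintro ⟨s, hs⟩
    refine ⟨a + M * s, ?_, ?_⟩
    · exact (Int.modEq_iff_add_fac.2 ⟨s, rfl⟩).symm
    · rw [← hs, sqf_cast]

lemma sqf_inj {a : ℤ} (ha : Odd a) {M : ℕ} (hM : 4 ∣ M) (hM0 : M ≠ 0) :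
    Function.Injective (sqf a M) := by
  intro s s' h
  have h1 : (a + M * s) ^ 2 = (a + M * s') ^ 2 := by
    rw [← sqf_cast, ← sqf_cast, h]
  obtain ⟨N, rfl⟩ := hM
  have hN : (N : ℤ) ≠ 0 := by
    intro h0
    apply hM0
    have : N = 0 := by exact_mod_cast h0
    simp [this]
  rcases sq_eq_sq_iff_eq_or_eq_neg.1 h1 with h2 | h2
  · push_cast at h2
    have h3 : (4 * (N : ℤ)) * (s - s') = 0 := by linarith
    rcases mul_eq_zero.1 h3 with h4 | h4
    · exact absurd h4 (by simpa using hN)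
    · linarith
  · exfalso
    push_cast at h2
    have h3 : a = -(2 * (N * (s + s'))) := by linarith
    rw [h3] at ha
    have : Even (-(2 * ((N : ℤ) * (s + s')))) := (even_two_mul _).neg
    exact (Int.not_even_iff_odd.2 ha) this

open Classical in
lemma coeff_serF_mul {f g : ℤ → ℕ} (hf : Function.Injective f) (hg : Function.Injective g)
    (k : ℕ) :
    coeff k (serF κ f * serF κ g) = (Nat.card {y : ℤ × ℤ // f y.1 + g y.2 = k} : κ) := by
  rw [coeff_mul]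
  have h1 : ∀ p : ℕ × ℕ, coeff p.1 (serF κ f) * coeff p.2 (serF κ g) =
      if ((∃ s, f s = p.1) ∧ (∃ t, g t = p.2)) then (1 : κ) else 0 := by
    intro p
    unfold serF
    rw [coeff_mk, coeff_mk]
    by_cases h1 : ∃ s, f s = p.1 <;> by_cases h2 : ∃ t, g t = p.2 <;> simp [h1, h2]
  rw [Finset.sum_congr rfl fun p _ => h1 p, Finset.sum_ite, Finset.sum_const_zero, add_zero,
    Finset.sum_const, nsmul_eq_mul, mul_one]
  congr 1
  rw [← Fintype.card_coe, ← Nat.card_eq_fintype_card]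
  symm
  refine Nat.card_congr (Equiv.ofBijective (fun y => ⟨(f y.1.1, g y.1.2), ?_⟩) ⟨?_, ?_⟩)
  · rw [Finset.mem_filter, Finset.HasAntidiagonal.mem_antidiagonal]
    exact ⟨y.2, ⟨_, rfl⟩, ⟨_, rfl⟩⟩
  · rintro ⟨⟨s, t⟩, h⟩ ⟨⟨s', t'⟩, h'⟩ he
    simp only [Subtype.mk.injEq, Prod.mk.injEq] at he ⊢
    exact ⟨hf he.1, hg he.2⟩
  · rintro ⟨⟨p, q⟩, h⟩
    have h' := h
    rw [Finset.mem_filter, Finset.HasAntidiagonal.mem_antidiagonal] at h'
    obtain ⟨h1, ⟨s, hs⟩, ⟨t, ht⟩⟩ := h'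
    refine ⟨⟨(s, t), ?_⟩, ?_⟩
    · simp only at hs ht h1 ⊢
      rw [hs, ht, h1]
    · simp only [Subtype.mk.injEq, Prod.mk.injEq]
      exact ⟨hs, ht⟩

open Classical in
/-- Frobenius for 0/1 series. -/
lemma serF_pow [CharP κ 2] (f : ℤ → ℕ) (i : ℕ) :
    (serF κ f) ^ (2 ^ i) = serF κ (fun s => 2 ^ i * f s) := by
  have hp : ExpChar κ 2 := ExpChar.prime Nat.prime_two
  have h1 : ((serF κ f).expand (2 ^ i) (by positivity)).map (iterateFrobenius κ 2 i)
      = (serF κ f) ^ (2 ^ i) := MvPowerSeries.map_iterateFrobenius_expand 2 (by norm_num) i (f := serF κ f)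
  rw [← h1]
  ext n
  rw [coeff_map, coeff_expand]
  unfold serF
  rw [coeff_mk]
  by_cases hn : 2 ^ i ∣ n
  · obtain ⟨q, rfl⟩ := hn
    rw [if_pos ⟨q, rfl⟩, coeff_mk, Nat.mul_div_cancel_left _ (by positivity)]
    by_cases hq : ∃ s, f s = q
    · rw [if_pos hq, map_one, if_pos]
      obtain ⟨s, hs⟩ := hq
      exact ⟨s, by simp only [hs]⟩
    · rw [if_neg hq, map_zero, if_neg]
      rintro ⟨s, hs⟩
      exact hq ⟨s, Nat.eq_of_mul_eq_mul_left (by positivity) hs⟩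
  · rw [if_neg hn, map_zero, coeff_mk, if_neg]
    rintro ⟨s, hs⟩
    exact hn ⟨f s, hs.symm⟩

theorem th_congr {a a' : ℤ} {M : ℕ} (h : a ≡ a' [ZMOD M]) : th κ a M = th κ a' M := by
  classical
  ext n
  unfold th
  rw [coeff_mk, coeff_mk]
  congr 1
  apply propext
  constructor
  · rintro ⟨m, hm, hn⟩
    exact ⟨m, hm.trans h, hn⟩
  · rintro ⟨m, hm, hn⟩
    exact ⟨m, hm.trans h.symm, hn⟩

open Classical in
theorem coeff_th_four_aux {a : ℤ} (ha : Odd a) (n : ℕ) :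
    coeff n (th κ a 4) = if ∃ m : ℕ, Odd m ∧ m ^ 2 = n then 1 else 0 := by
  unfold th
  rw [coeff_mk]
  congr 1
  apply propext
  constructor
  · rintro ⟨m, hm, hn⟩
    refine ⟨m.natAbs, ?_, ?_⟩
    · rw [Int.natAbs_odd]
      rw [Int.odd_iff] at ha ⊢
      have := hm.dvd
      omega
    · have : ((m.natAbs ^ 2 : ℕ) : ℤ) = (n : ℤ) := by
        push_cast
        rw [sq_abs, hn]
      exact_mod_cast this
  · rintro ⟨m, hm, hn⟩
    obtain ⟨c, hc⟩ := hm
    obtain ⟨b, hb⟩ := ha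
    by_cases h : (m : ℤ) ≡ a [ZMOD 4]
    · exact ⟨m, by exact_mod_cast h, by exact_mod_cast hn⟩
    · refine ⟨-m, ?_, ?_⟩
      · have : (-(m : ℤ)) ≡ a [ZMOD 4] := by
          unfold Int.ModEq at h ⊢
          omega
        exact_mod_cast this
      · rw [neg_sq]
        exact_mod_cast hn

theorem th_four {a : ℤ} (ha : Odd a) : th κ a 4 = th κ 1 4 := by
  classical
  ext n
  rw [coeff_th_four_aux ha, coeff_th_four_aux odd_one]

open Classical in
theorem coeff_th_four (n : ℕ) :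
    coeff n (th κ 1 4) = if ∃ m : ℕ, Odd m ∧ m ^ 2 = n then 1 else 0 :=
  coeff_th_four_aux odd_one n

/-- (needs `M ≠ 0`) -/
theorem th_add {a : ℤ} (ha : Odd a) {M : ℕ} (hM : 4 ∣ M) (hM0 : M ≠ 0) :
    th κ a (2 * M) + th κ (a + M) (2 * M) = th κ a M := by
  classical
  have hinj := sqf_inj ha hM hM0
  rw [th_eq_serF, th_eq_serF, th_eq_serF]
  ext n
  rw [map_add]
  unfold serF
  rw [coeff_mk, coeff_mk, coeff_mk]
  have e1 : ∀ s, sqf a (2 * M) s = sqf a M (2 * s) := by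
    intro s
    unfold sqf
    push_cast
    congr 2
    ring
  have e2 : ∀ s, sqf (a + M) (2 * M) s = sqf a M (2 * s + 1) := by
    intro s
    unfold sqf
    push_cast
    congr 2
    ring
  simp only [e1, e2]
  by_cases h : ∃ s, sqf a M s = n
  · obtain ⟨s, hs⟩ := h
    rw [if_pos (⟨s, hs⟩ : ∃ s, sqf a M s = n)]
    rcases Int.even_or_odd' s with ⟨c, hc | hc⟩
    · rw [if_pos ⟨c, by rw [← hc, hs]⟩, if_neg, add_zero]
      rintro ⟨d, hd⟩
      rw [← hs] at hd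
      have := hinj hd
      omega
    · rw [if_neg, if_pos ⟨c, by rw [← hc, hs]⟩, zero_add]
      rintro ⟨d, hd⟩
      rw [← hs] at hd
      have := hinj hd
      omega
  · rw [if_neg h, if_neg, if_neg, add_zero]
    · rintro ⟨d, hd⟩; exact h ⟨_, hd⟩
    · rintro ⟨d, hd⟩; exact h ⟨_, hd⟩

/-- the explicit bijection of `ℤ × ℤ` -/
def bij : ℤ × ℤ ≃ ℤ × ℤ where
  toFun p := if (p.1 - p.2) % 2 = 0 then ((p.2 - p.1) / 2, p.1 + p.2)
    else ((p.1 - p.2 - 1) / 2, p.1 + p.2)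
  invFun q := if q.2 % 2 = 0 then (q.2 / 2 - q.1, q.2 / 2 + q.1)
    else ((q.2 + 1) / 2 + q.1, (q.2 - 1) / 2 - q.1)
  left_inv := by
    rintro ⟨s, t⟩
    by_cases h : (s - t) % 2 = 0
    · have h2 : (s + t) % 2 = 0 := by omega
      simp only [h, h2, if_true]
      ext <;> simp only <;> omega
    · have h2 : ¬ (s + t) % 2 = 0 := by omega
      simp only [h, h2, if_false]
      ext <;> simp only <;> omega
  right_inv := by
    rintro ⟨u, v⟩
    by_cases h : v % 2 = 0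
    · have h2 : ((v / 2 - u) - (v / 2 + u)) % 2 = 0 := by omega
      simp only [h, if_true, h2]
      ext <;> simp only <;> omega
    · have h2 : ¬ (((v + 1) / 2 + u) - ((v - 1) / 2 - u)) % 2 = 0 := by omega
      simp only [h, if_false, h2]
      ext <;> simp only <;> omega

/-- the key identity, modulus `2 * M` where `M = 2 ^ j`, `j ≥ 2`. -/
theorem th_mul [CharP κ 2] {a : ℤ} (ha : Odd a) {j : ℕ} (hj : 2 ≤ j) :
    th κ a (2 * 2 ^ j) * th κ (a + 2 ^ j) (2 * 2 ^ j)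
      = (th κ 1 4) ^ (2 ^ (2 * j - 1)) * (th κ (a + 2 ^ (j - 1)) (2 ^ j)) ^ 2 := by
  classical
  obtain ⟨i, rfl⟩ : ∃ i, j = i + 2 := ⟨j - 2, by omega⟩
  have hodd1 : Odd (a + 2 ^ (i + 2)) := by
    refine ha.add_even ?_
    exact (Int.even_pow.2 ⟨even_two, by omega⟩)
  have hodd2 : Odd (a + 2 ^ (i + 2 - 1)) := by
    refine ha.add_even ?_
    exact (Int.even_pow.2 ⟨even_two, by omega⟩)
  have hd1 : 4 ∣ 2 * 2 ^ (i + 2) := ⟨2 * 2 ^ i, by ring⟩
  have hd2 : 4 ∣ 2 ^ (i + 2) := ⟨2 ^ i, by ring⟩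
  have hn1 : 2 * 2 ^ (i + 2) ≠ 0 := by positivity
  have hn2 : 2 ^ (i + 2) ≠ 0 := by positivity
  rw [th_eq_serF, th_eq_serF, th_eq_serF, th_eq_serF, serF_pow,
    show (serF κ (sqf (a + 2 ^ (i + 2 - 1)) (2 ^ (i + 2)))) ^ 2 =
      (serF κ (sqf (a + 2 ^ (i + 2 - 1)) (2 ^ (i + 2)))) ^ (2 ^ 1) by norm_num, serF_pow]
  ext k
  rw [coeff_serF_mul (sqf_inj ha hd1 hn1) (sqf_inj hodd1 hd1 hn1), coeff_serF_mul]
  · congr 1
    refine Nat.card_congr (Equiv.subtypeEquiv bij ?_)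
    rintro ⟨s, t⟩
    have key : ((sqf a (2 * 2 ^ (i + 2)) s + sqf (a + 2 ^ (i + 2)) (2 * 2 ^ (i + 2)) t : ℕ) : ℤ) =
        ((2 ^ (2 * (i + 2) - 1) * sqf 1 4 (bij (s, t)).1 +
          2 ^ 1 * sqf (a + 2 ^ (i + 2 - 1)) (2 ^ (i + 2)) (bij (s, t)).2 : ℕ) : ℤ) := by
      have e1 : 2 * (i + 2) - 1 = 2 * i + 3 := by omega
      have e2 : i + 2 - 1 = i + 1 := by omega
      rw [e1, e2]
      push_cast
      rw [sqf_cast, sqf_cast, sqf_cast, sqf_cast]
      unfold bij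
      simp only [Equiv.coe_fn_mk]
      push_cast
      by_cases h : (s - t) % 2 = 0
      · rw [if_pos h]
        obtain ⟨c, hc⟩ : ∃ c, s = t + 2 * c := ⟨(s - t) / 2, by omega⟩
        subst hc
        have : (t - (t + 2 * c)) / 2 = -c := by omega
        simp only [this]
        ring
      · rw [if_neg h]
        obtain ⟨c, hc⟩ : ∃ c, s = t + 2 * c + 1 := ⟨(s - t) / 2, by omega⟩
        subst hc
        have : (t + 2 * c + 1 - t - 1) / 2 = c := by omega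
        simp only [this]
        ring
    have key' := Int.ofNat.inj key
    simp only at key' ⊢
    rw [key']
  · intro s s' h
    have := Nat.eq_of_mul_eq_mul_left (by positivity) h
    exact sqf_inj odd_one (by norm_num) (by norm_num) this
  · intro s s' h
    have := Nat.eq_of_mul_eq_mul_left (by positivity) h
    exact sqf_inj hodd2 hd2 hn2 this

theorem th_support {j : ℕ} (hj : 2 ≤ j) {n : ℕ} (h : coeff n (th κ 1 (2 ^ j)) ≠ 0) :
    n ≡ 1 [MOD 2 ^ (j + 1)] := by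
  classical
  unfold th at h
  rw [coeff_mk] at h
  have h1 : ∃ m : ℤ, m ≡ 1 [ZMOD ((2 ^ j : ℕ) : ℤ)] ∧ m ^ 2 = (n : ℤ) := by
    by_contra hc
    rw [if_neg hc] at h
    exact h rfl
  obtain ⟨m, hm, hn⟩ := h1
  obtain ⟨s, hs⟩ := (Int.modEq_iff_add_fac.1 hm.symm)
  have h2 : (n : ℤ) ≡ (1 : ℕ) [ZMOD ((2 ^ (j + 1) : ℕ) : ℤ)] := by
    obtain ⟨i, rfl⟩ : ∃ i, j = i + 1 := ⟨j - 1, by omega⟩
    rw [← hn, hs]
    refine (Int.modEq_iff_add_fac.2 ⟨s + 2 ^ i * s ^ 2, ?_⟩).symm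
    push_cast
    ring
  exact (Int.natCast_modEq_iff).1 h2

theorem coeff_one_th {M : ℕ} : coeff 1 (th κ 1 M) = 1 := by
  classical
  unfold th
  rw [coeff_mk, if_pos]
  exact ⟨1, Int.ModEq.refl 1, by norm_num⟩

end SixReg
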