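import Mathlib
import Pool.Agent.Lib.MP_72e75e_nt.Lfield
import Pool.Agent.Lib.MP_72e75e_nt.Theta

/-!
# Theta series in `B` and the action of the Galois group on them
-/

namespace SixReg

open PowerSeries

variable {κ : Type} [Field κ] [CharP κ 2] {N : ℕ} [NeZero N]
  {E B : Type} [Field E] [Field B] [Algebra κ E] [Algebra E B] (g : GD κ N E B)

theorem Dk_eq_th : Dk κ = th κ 1 4 := by
  classical
  ext n
  rw [coeff_th_four]
  unfold Dk
  rw [PowerSeries.coeff_map]
  have h := congrArg (ZMod.castHom (dvd_refl 2) κ) (DeltaZ_mod_two n)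
  rw [map_intCast] at h
  simp only [eq_intCast]
  rw [h]
  split_ifs <;> simp

variable [Algebra.IsAlgebraic E B]

omit [CharP κ 2] in
theorem GD.hB2 (x : LaurentSeries κ) (P : Polynomial B) (hP : P ≠ 0)
    (h : P.eval₂ g.v x = 0) : ∃ y : B, g.v y = x := by
  let _ : Algebra B (LaurentSeries κ) := g.v.toAlgebra
  let _ : Algebra E (LaurentSeries κ) := (g.v.comp (algebraMap E B)).toAlgebra
  have _ : IsScalarTower E B (LaurentSeries κ) := IsScalarTower.of_algebraMap_eq (fun _ => rfl)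
  have h1 : IsAlgebraic B x := ⟨P, hP, h⟩
  have h2 : IsAlgebraic E x := h1.restrictScalars E
  obtain ⟨Q, hQ, hx⟩ := h2
  exact g.hB x ⟨Q, hQ, hx⟩

/-- theta series in the Laurent field. -/
noncomputable abbrev thK (κ : Type) [Field κ] (N : ℕ) [NeZero N] (j : ℕ) (a : ℤ) :
    LaurentSeries κ :=
  io (PowerSeries.expand N (NeZero.ne N) (th κ a (2 ^ j)))

omit [CharP κ 2] in
theorem thK_add {j : ℕ} (hj : 2 ≤ j) {a : ℤ} (ha : Odd a) :
    thK κ N (j + 1) a + thK κ N (j + 1) (a + 2 ^ j) = thK κ N j a := by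
  have h4 : 4 ∣ 2 ^ j := by
    obtain ⟨i, rfl⟩ := Nat.exists_eq_add_of_le hj
    exact ⟨2 ^ i, by rw [pow_add]; norm_num⟩
  have h := th_add (κ := κ) ha h4 (by positivity)
  unfold thK
  rw [← map_add, ← map_add, ← h]
  push_cast
  rw [pow_succ' 2 j]

theorem thK_mul {j : ℕ} (hj : 2 ≤ j) {a : ℤ} (ha : Odd a) :
    thK κ N (j + 1) a * thK κ N (j + 1) (a + 2 ^ j)
      = (io (PowerSeries.expand N (NeZero.ne N) (Dk κ))) ^ (2 ^ (2 * j - 1)) *
        (thK κ N j (a + 2 ^ (j - 1))) ^ 2 := by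
  have h := th_mul (κ := κ) ha hj
  rw [← map_mul, ← map_mul, ← map_pow, ← map_pow, ← map_pow, ← map_pow, ← map_mul, ← map_mul,
    Dk_eq_th, ← h, pow_succ' 2 j]

theorem thK_two {a : ℤ} (ha : Odd a) :
    thK κ N 2 a = io (PowerSeries.expand N (NeZero.ne N) (Dk κ)) := by
  rw [Dk_eq_th]
  unfold thK
  have : th κ a (2 ^ 2) = th κ 1 4 := by
    rw [← th_four ha]
    norm_num
  rw [this]

theorem odd_add_two_pow {a : ℤ} (ha : Odd a) {i : ℕ} (hi : 1 ≤ i) : Odd (a + 2 ^ i) := by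
  refine ha.add_even ?_
  exact Int.even_pow.mpr ⟨even_two, by omega⟩

theorem GD.exists_thB {j : ℕ} (hj : 2 ≤ j) : ∀ a : ℤ, Odd a →
    ∃ b : B, g.v b = thK κ N j a := by
  induction j, hj using Nat.le_induction with
  | base =>
    intro a ha
    exact ⟨algebraMap E B g.D, by rw [g.hD, thK_two ha]⟩
  | succ j hj ih =>
    intro a ha
    obtain ⟨S, hS⟩ := ih a ha
    obtain ⟨R, hR⟩ := ih (a + 2 ^ (j - 1)) (odd_add_two_pow ha (by omega))
    let Pr : B := (algebraMap E B g.D) ^ (2 ^ (2 * j - 1)) * R ^ 2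
    refine g.hB2 _ (Polynomial.X ^ 2 - Polynomial.C S * Polynomial.X + Polynomial.C Pr) ?_ ?_
    · intro h0
      have := congrArg (fun p => Polynomial.coeff p 2) h0
      simp at this
    · have hPr : g.v Pr = thK κ N (j + 1) a * thK κ N (j + 1) (a + 2 ^ j) := by
        rw [thK_mul hj ha, map_mul, map_pow, map_pow, g.hD, hR]
      rw [Polynomial.eval₂_add, Polynomial.eval₂_sub, Polynomial.eval₂_mul, Polynomial.eval₂_C,
        Polynomial.eval₂_C, Polynomial.eval₂_X_pow, Polynomial.eval₂_X, hPr, hS, ← thK_add hj ha]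
      ring

open Classical in
/-- theta series as elements of `B`. -/
noncomputable def GD.thB (j : ℕ) (a : ℤ) : B :=
  if h : ∃ b : B, g.v b = thK κ N j a then h.choose else 0

theorem GD.v_thB {j : ℕ} (hj : 2 ≤ j) {a : ℤ} (ha : Odd a) : g.v (g.thB j a) = thK κ N j a := by
  have h := g.exists_thB hj a ha
  unfold GD.thB
  rw [dif_pos h]
  exact h.choose_spec

theorem GD.thB_add {j : ℕ} (hj : 2 ≤ j) {a : ℤ} (ha : Odd a) :
    g.thB (j + 1) a + g.thB (j + 1) (a + 2 ^ j) = g.thB j a := by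
  apply g.v_inj
  rw [map_add, g.v_thB (by omega) ha, g.v_thB (by omega) (odd_add_two_pow ha (by omega)),
    g.v_thB hj ha, thK_add hj ha]

theorem GD.thB_mul {j : ℕ} (hj : 2 ≤ j) {a : ℤ} (ha : Odd a) :
    g.thB (j + 1) a * g.thB (j + 1) (a + 2 ^ j) = (algebraMap E B g.D) ^ (2 ^ (2 * j - 1)) *
      (g.thB j (a + 2 ^ (j - 1))) ^ 2 := by
  apply g.v_inj
  rw [map_mul, g.v_thB (by omega) ha, g.v_thB (by omega) (odd_add_two_pow ha (by omega)),
    map_mul, map_pow, map_pow, g.v_thB hj (odd_add_two_pow ha (by omega)), g.hD, thK_mul hj ha]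

theorem GD.thB_two {a : ℤ} (ha : Odd a) : g.thB 2 a = algebraMap E B g.D := by
  apply g.v_inj
  rw [g.v_thB le_rfl ha, thK_two ha, g.hD]

theorem GD.thB_congr {j : ℕ} (hj : 2 ≤ j) {a a' : ℤ} (ha : Odd a) (ha' : Odd a')
    (h : a ≡ a' [ZMOD ((2 ^ j : ℕ) : ℤ)]) : g.thB j a = g.thB j a' := by
  apply g.v_inj
  rw [g.v_thB hj ha, g.v_thB hj ha']
  unfold thK
  rw [th_congr h]

variable {A : Type} [Field A] [Algebra B A] [Algebra E A] [IsScalarTower E B A]

theorem GD.thB_conj {j : ℕ} (hj : 2 ≤ j) (σ : A ≃ₐ[E] A) : ∃ a : ℤ, Odd a ∧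
    σ (algebraMap B A (g.thB j 1)) = algebraMap B A (g.thB j a) ∧
    σ (algebraMap B A (g.thB j (1 + 2 ^ (j - 1)))) = algebraMap B A (g.thB j (a + 2 ^ (j - 1))) := by
  have hD : ∀ e : E, σ (algebraMap B A (algebraMap E B e)) = algebraMap B A (algebraMap E B e) := by
    intro e
    rw [← IsScalarTower.algebraMap_apply E B A, AlgEquiv.commutes]
  induction j, hj using Nat.le_induction with
  | base =>
    refine ⟨1, odd_one, ?_, ?_⟩
    · rw [g.thB_two odd_one, hD]
    · rw [g.thB_two (odd_add_two_pow odd_one (by omega)), hD]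
  | succ j hj ih =>
    obtain ⟨a, ha, h1, h2⟩ := ih
    have hs1 := congrArg (fun x => σ (algebraMap B A x)) (g.thB_add hj (a := 1) odd_one)
    have hm1 := congrArg (fun x => σ (algebraMap B A x)) (g.thB_mul hj (a := 1) odd_one)
    have hs2 := congrArg (algebraMap B A) (g.thB_add hj ha)
    have hm2 := congrArg (algebraMap B A) (g.thB_mul hj ha)
    simp only [map_add, map_mul, map_pow, hD] at hs1 hm1 hs2 hm2
    rw [h1] at hs1
    rw [h2] at hm1
    have hs : σ (algebraMap B A (g.thB (j + 1) 1)) + σ (algebraMap B A (g.thB (j + 1) (1 + 2 ^ j)))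
        = algebraMap B A (g.thB (j + 1) a) + algebraMap B A (g.thB (j + 1) (a + 2 ^ j)) := by
      rw [hs1, hs2]
    have hm : σ (algebraMap B A (g.thB (j + 1) 1)) * σ (algebraMap B A (g.thB (j + 1) (1 + 2 ^ j)))
        = algebraMap B A (g.thB (j + 1) a) * algebraMap B A (g.thB (j + 1) (a + 2 ^ j)) := by
      rw [hm1, hm2]
    have hprod : (σ (algebraMap B A (g.thB (j + 1) 1)) - algebraMap B A (g.thB (j + 1) a)) *
        (σ (algebraMap B A (g.thB (j + 1) 1)) - algebraMap B A (g.thB (j + 1) (a + 2 ^ j))) = 0 := by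
      linear_combination σ (algebraMap B A (g.thB (j + 1) 1)) * hs - hm
    rw [Nat.add_sub_cancel]
    rcases mul_eq_zero.mp hprod with h | h
    · rw [sub_eq_zero] at h
      refine ⟨a, ha, h, ?_⟩
      rw [h] at hs
      exact add_left_cancel hs
    · rw [sub_eq_zero] at h
      refine ⟨a + 2 ^ j, odd_add_two_pow ha (by omega), h, ?_⟩
      rw [h, add_comm] at hs
      have hc : g.thB (j + 1) (a + 2 ^ j + 2 ^ j) = g.thB (j + 1) a := by
        refine g.thB_congr (by omega) (odd_add_two_pow (odd_add_two_pow ha (by omega)) (by omega)) ha ?_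
        refine (Int.modEq_iff_dvd.mpr ⟨-1, ?_⟩)
        push_cast
        ring
      rw [hc]
      exact add_right_cancel hs

/-- the element `u`. -/
theorem GD.exists_u {j : ℕ} (hj : 2 ≤ j) (w : κˣ) (hw : w ^ N = 1) (T : A ≃ₐ[E] A)
    (hT : ∀ x : B, ∃ y : B, T (algebraMap B A x) = algebraMap B A y ∧ g.v y = rot w (g.v x)) :
    ∃ u : B, u ∈ LL E B A ∧ u ≠ 0 ∧ (g.v u).order = N ∧ Cls (2 ^ (j + 1)) N (g.v u) ∧
      ∀ τ : A ≃ₐ[E] A, T (τ (algebraMap B A u)) = τ (algebraMap B A u) := by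
  have hord : io (PowerSeries.expand N (NeZero.ne N) (th κ 1 (2 ^ j))) ≠ 0 ∧
      (io (PowerSeries.expand N (NeZero.ne N) (th κ 1 (2 ^ j)))).order = N := by
    have h0 : coeff 0 (th κ 1 (2 ^ j)) = 0 := by
      by_contra hne
      have := th_support hj hne
      have h1 : (2 : ℕ) ∣ 2 ^ (j + 1) := dvd_pow_self 2 (by omega)
      have h2 := (this.of_dvd h1)
      revert h2
      decide
    have h := order_expand_rescale (κ := κ) (P := th κ 1 (2 ^ j)) h0 coeff_one_th one_ne_zero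
      (NeZero.ne N)
    simpa [PowerSeries.rescale_one] using h
  have hvu : g.v (g.thB j 1) = thK κ N j 1 := g.v_thB hj odd_one
  refine ⟨g.thB j 1, ?_, ?_, ?_, ?_, ?_⟩
  · intro σ
    obtain ⟨a, _, h, _⟩ := g.thB_conj hj σ
    exact ⟨_, h⟩
  · intro h0
    apply hord.1
    have := hvu
    rw [h0, map_zero] at this
    exact this.symm
  · rw [hvu]
    exact hord.2
  · rw [hvu]
    intro n hn
    unfold thK at hn
    rcases lt_or_ge n 0 with hneg | hpos
    · exact absurd (coeff_io_neg _ hneg) hn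
    · obtain ⟨k, rfl⟩ := Int.eq_ofNat_of_zero_le hpos
      rw [coeff_io, coeff_expand] at hn
      split_ifs at hn with hk
      · obtain ⟨i, rfl⟩ := hk
        rw [Nat.mul_div_cancel_left _ (Nat.pos_of_ne_zero (NeZero.ne N))] at hn
        have h1 := th_support hj hn
        have h2 : (N * i : ℕ) ≡ N * 1 [MOD 2 ^ (j + 1)] := Nat.ModEq.mul_left N h1
        rw [mul_one] at h2
        exact (Int.natCast_modEq_iff).mpr h2
      · exact absurd rfl hn
  · intro τ
    obtain ⟨a, ha, h, _⟩ := g.thB_conj hj τ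
    rw [h]
    obtain ⟨y, hy1, hy2⟩ := hT (g.thB j a)
    rw [hy1]
    congr 1
    apply g.v_inj
    rw [hy2, g.v_thB hj ha]
    unfold thK
    rw [rot_io]
    congr 1
    ext n
    rw [coeff_rescale, coeff_expand]
    split_ifs with hk
    · obtain ⟨k, rfl⟩ := hk
      have : (w : κ) ^ N = 1 := by
        rw [← Units.val_pow_eq_pow_val, hw, Units.val_one]
      rw [pow_mul, this, one_pow, one_mul]
    · simp

end SixReg
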