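import Mathlib
import Pool.Agent.Lib.MP_72e75e_nt.Good
import Pool.Agent.Lib.MP_72e75e_nt.ThetaB
import Pool.Agent.Lib.MP_72e75e_nt.Kappa
import Pool.Agent.Lib.MP_72e75e_nt.Arith

/-!
# The main argument
-/

namespace SixReg

open PowerSeries
open scoped MatrixGroups

section

variable {κ : Type} [Field κ] [CharP κ 2] [IsAlgClosed κ] {N : ℕ} [NeZero N]
  {E B : Type} [Field E] [Field B] [Algebra κ E] [Algebra E B] [Algebra.IsAlgebraic E B]
  (g : GD κ N E B) {ρ : integralClosure ℤ ℂ →+* κ} {hρ : Function.Surjective ρ}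
  {A : Type} [Field A] [Algebra B A] [Algebra E A]

omit [IsAlgClosed κ] in
theorem GD.cube_root {Q : ℕ} (hN3 : N = 3 * Q) (hN : Odd N) {M : Matrix (Fin 2) (Fin 2) ℤ}
    (h : 0 < M.det ∧ M.det ∣ Q) : ∃ b : B, b ^ 3 = g.dB ρ hρ M ∧ b ≠ 0 := by
  obtain ⟨ε, hε⟩ := cube_dl ρ hN3 hN h
  have h' : 0 < M.det ∧ M.det ∣ N := by
    refine ⟨h.1, h.2.trans ?_⟩
    rw [hN3]
    push_cast
    exact Dvd.intro_left _ rfl
  obtain ⟨b, hb⟩ := g.hB2 (io ε) (Polynomial.X ^ 3 - Polynomial.C (g.dB ρ hρ M)) (by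
    intro h0
    have := congrArg (fun p => Polynomial.coeff p 3) h0
    simp at this) (by
    rw [Polynomial.eval₂_sub, Polynomial.eval₂_X_pow, Polynomial.eval₂_C, g.v_dB, ← hε, map_pow,
      sub_self])
  refine ⟨b, ?_, ?_⟩
  · apply g.v_inj
    rw [map_pow, hb, g.v_dB, ← hε, map_pow]
  · rintro rfl
    rw [map_zero] at hb
    apply (order_dl ρ hN h').1
    rw [← hε, map_pow, ← hb]
    simp

omit [IsAlgClosed κ] in
theorem GD.conj_F {Q : ℕ} (hN3 : N = 3 * Q) (hN : Odd N) {M1 M2 : Matrix (Fin 2) (Fin 2) ℤ}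
    (h1 : 0 < M1.det ∧ M1.det ∣ Q) (h2 : 0 < M2.det ∧ M2.det ∣ Q) {F0 : B}
    (hF : F0 ^ 3 * g.dB ρ hρ M1 = (g.dB ρ hρ M2) ^ 2)
    {σ : A ≃ₐ[E] A} {γ : SL(2, ℤ)} (hσ : g.Acts ρ hρ σ γ) :
    ∃ y : B, σ (algebraMap B A F0) = algebraMap B A y ∧
      y ^ 3 * g.dB ρ hρ (M1 * (γ : Matrix (Fin 2) (Fin 2) ℤ))
        = (g.dB ρ hρ (M2 * (γ : Matrix (Fin 2) (Fin 2) ℤ))) ^ 2 := by
  have hQN : ((Q : ℕ) : ℤ) ∣ ((N : ℕ) : ℤ) := by
    rw [hN3]
    push_cast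
    exact Dvd.intro_left _ rfl
  have hdet1 : (M1 * (γ : Matrix (Fin 2) (Fin 2) ℤ)).det = M1.det := by simp
  have hdet2 : (M2 * (γ : Matrix (Fin 2) (Fin 2) ℤ)).det = M2.det := by simp
  obtain ⟨b1, hb1, hb10⟩ := g.cube_root (ρ := ρ) (hρ := hρ) hN3 hN
    (M := M1 * (γ : Matrix (Fin 2) (Fin 2) ℤ)) (by rw [hdet1]; exact h1)
  obtain ⟨b2, hb2, hb20⟩ := g.cube_root (ρ := ρ) (hρ := hρ) hN3 hN
    (M := M2 * (γ : Matrix (Fin 2) (Fin 2) ℤ)) (by rw [hdet2]; exact h2)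
  have hX := congrArg (fun x => σ (algebraMap B A x)) hF
  simp only [map_mul, map_pow] at hX
  rw [hσ M1 ⟨h1.1, h1.2.trans hQN⟩, hσ M2 ⟨h2.1, h2.2.trans hQN⟩] at hX
  have hj1 : algebraMap B A b1 ≠ 0 := by
    intro h; exact hb10 ((algebraMap B A).injective (by rw [h, map_zero]))
  have hj2 : algebraMap B A b2 ≠ 0 := by
    intro h; exact hb20 ((algebraMap B A).injective (by rw [h, map_zero]))
  have hprim : IsPrimitiveRoot (algebraMap B A (algebraMap E B (algebraMap κ E (om ρ N ^ Q)))) 3 := by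
    have h3 : IsPrimitiveRoot (om ρ N ^ Q) 3 :=
      (om_prim N ρ hN).pow (Nat.pos_of_ne_zero (NeZero.ne N)) (by rw [hN3, mul_comm])
    exact ((h3.map_of_injective (algebraMap κ E).injective).map_of_injective
      (algebraMap E B).injective).map_of_injective (algebraMap B A).injective
  have hcube : (σ (algebraMap B A F0) * algebraMap B A b1 / (algebraMap B A b2) ^ 2) ^ 3 = 1 := by
    rw [div_pow, mul_pow, ← map_pow (algebraMap B A) b1, hb1, hX, ← hb2, map_pow, ← pow_mul,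
      ← pow_mul]
    exact div_self (pow_ne_zero _ hj2)
  obtain ⟨i, _, hi⟩ := hprim.eq_pow_of_pow_eq_one hcube
  have hval : σ (algebraMap B A F0)
      = algebraMap B A ((algebraMap E B (algebraMap κ E (om ρ N ^ Q))) ^ i * b2 ^ 2 / b1) := by
    rw [map_div₀, map_mul, map_pow, hi, map_pow]
    field_simp
  obtain ⟨y, hy⟩ : ∃ y : B, σ (algebraMap B A F0) = algebraMap B A y := ⟨_, hval⟩
  refine ⟨y, hy, ?_⟩
  apply (algebraMap B A).injective
  rw [map_mul, map_pow, map_pow, ← hy]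
  exact hX

theorem gcd_first_col {Q : ℕ} {x c : ℤ} (hxc : IsCoprime x c) :
    Int.gcd x (Q * c) = Int.gcd x Q := by
  exact Int.gcd_mul_left_right_of_gcd_eq_one (Int.isCoprime_iff_gcd_eq_one.mp hxc)


/-- the matrix `(1 0; 0 d)`. -/
def diagM (d : ℕ) : Matrix (Fin 2) (Fin 2) ℤ := !![((1 : ℕ) : ℤ), ((0 : ℕ) : ℤ); 0, (d : ℤ)]

theorem det_diagM (d : ℕ) : (diagM d).det = d := by
  unfold diagM
  rw [det_upper]
  simp

theorem diagM_T (d l : ℕ) (γ : SL(2, ℤ)) :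
    (diagM d * ((ModularGroup.T ^ l * γ : SL(2, ℤ)) : Matrix (Fin 2) (Fin 2) ℤ)) 0 0
      = γ 0 0 + l * γ 1 0 ∧
    (diagM d * ((ModularGroup.T ^ l * γ : SL(2, ℤ)) : Matrix (Fin 2) (Fin 2) ℤ)) 1 0
      = d * γ 1 0 := by
  have hT : ((ModularGroup.T ^ l : SL(2, ℤ)) : Matrix (Fin 2) (Fin 2) ℤ) = !![1, (l : ℤ); 0, 1] := by
    have := ModularGroup.coe_T_zpow (l : ℤ)
    rwa [zpow_natCast] at this
  rw [Matrix.SpecialLinearGroup.coe_mul, hT, diagM]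
  constructor <;> simp [Matrix.mul_apply, Fin.sum_univ_two, Matrix.vecMul, dotProduct]

theorem isCoprime_col (γ : SL(2, ℤ)) (l : ℕ) : IsCoprime (γ 0 0 + l * γ 1 0) (γ 1 0) := by
  have hdetγ : γ 0 0 * γ 1 1 - γ 0 1 * γ 1 0 = 1 := by
    have := γ.det_coe
    rw [Matrix.det_fin_two] at this
    exact this
  exact ⟨γ 1 1, -(γ 0 1 + l * γ 1 1), by linear_combination hdetγ⟩

omit [IsAlgClosed κ] [Algebra.IsAlgebraic E B] in
theorem GD.order_y {Q : ℕ} (hN3 : N = 3 * Q) (hN : Odd N) (hQ3 : 3 ∣ Q) (l : ℕ) (γ : SL(2, ℤ))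
    {y : B} (hy : y ^ 3 * g.dB ρ hρ (diagM Q *
        ((ModularGroup.T ^ l * γ : SL(2, ℤ)) : Matrix (Fin 2) (Fin 2) ℤ))
      = (g.dB ρ hρ (diagM (Q / 3) *
        ((ModularGroup.T ^ l * γ : SL(2, ℤ)) : Matrix (Fin 2) (Fin 2) ℤ))) ^ 2) :
    g.v y ≠ 0 ∧ 3 * (g.v y).order =
      3 * (6 * (Nat.gcd (Int.gcd (γ 0 0 + l * γ 1 0) Q) (Q / 3) : ℤ) ^ 2 -
        (Int.gcd (γ 0 0 + l * γ 1 0) Q : ℤ) ^ 2) := by
  have hQpos : 0 < Q := by
    rcases Nat.eq_zero_or_pos Q with h0 | h0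
    · rw [h0] at hN3; exact absurd hN3 (NeZero.ne N)
    · exact h0
  obtain ⟨Q', hQ'⟩ := hQ3
  have hQ3' : Q / 3 = Q' := by omega
  have hQ'pos : 0 < Q' := by omega
  rw [hQ3'] at hy ⊢
  set δ : SL(2, ℤ) := ModularGroup.T ^ l * γ with hδ
  have hd1 : (diagM Q * (δ : Matrix (Fin 2) (Fin 2) ℤ)).det = Q := by
    rw [Matrix.det_mul, det_diagM, Matrix.SpecialLinearGroup.det_coe, mul_one]
  have hd2 : (diagM Q' * (δ : Matrix (Fin 2) (Fin 2) ℤ)).det = Q' := by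
    rw [Matrix.det_mul, det_diagM, Matrix.SpecialLinearGroup.det_coe, mul_one]
  obtain ⟨n1, o1⟩ := order_dl ρ hN (M := diagM Q * (δ : Matrix (Fin 2) (Fin 2) ℤ)) (by
    rw [hd1, hN3]
    refine ⟨by positivity, ?_⟩
    push_cast
    exact Dvd.intro_left _ rfl)
  obtain ⟨n2, o2⟩ := order_dl ρ hN (M := diagM Q' * (δ : Matrix (Fin 2) (Fin 2) ℤ)) (by
    rw [hd2, hN3, hQ']
    refine ⟨by positivity, ?_⟩
    push_cast
    exact ⟨9, by ring⟩)
  have o1' := o1 3 (by rw [hd1, hN3]; push_cast; ring)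
  have o2' := o2 9 (by rw [hd2, hN3, hQ']; push_cast; ring)
  have hcol := isCoprime_col γ l
  rw [(diagM_T Q l γ).1, (diagM_T Q l γ).2, gcd_first_col hcol] at o1'
  rw [(diagM_T Q' l γ).1, (diagM_T Q' l γ).2, gcd_first_col hcol] at o2'
  have hgg : Nat.gcd (Int.gcd (γ 0 0 + l * γ 1 0) Q) Q' = Int.gcd (γ 0 0 + l * γ 1 0) Q' := by
    rw [Int.gcd_def, Int.gcd_def, Nat.gcd_assoc]
    congr 1
    rw [Int.natAbs_natCast, Int.natAbs_natCast]
    exact Nat.gcd_eq_right ⟨3, by rw [hQ', mul_comm]⟩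
  rw [hgg]
  have hv := congrArg g.v hy
  rw [map_mul, map_pow, map_pow, g.v_dB, g.v_dB] at hv
  have hy0 : g.v y ≠ 0 := by
    intro h0
    rw [h0, zero_pow (by norm_num), zero_mul] at hv
    exact n2 (pow_eq_zero_iff (two_ne_zero) |>.mp hv.symm)
  refine ⟨hy0, ?_⟩
  have ho := congrArg HahnSeries.order hv
  rw [HahnSeries.order_mul (pow_ne_zero 3 hy0) n1, HahnSeries.order_pow, HahnSeries.order_pow,
    o1', o2'] at ho
  simp only [nsmul_eq_mul] at ho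
  push_cast at ho ⊢
  linear_combination ho


omit [CharP κ 2] [IsAlgClosed κ] [Algebra.IsAlgebraic E B] in
theorem GD.coeff_smulK (c : κ) (x : B) (n : ℤ) :
    (g.v (algebraMap E B (algebraMap κ E c) * x)).coeff n = c * (g.v x).coeff n := by
  rw [map_mul, g.hC, HahnSeries.C_mul_eq_smul, HahnSeries.coeff_smul, smul_eq_mul]

omit [IsAlgClosed κ] [Algebra.IsAlgebraic E B] [Field E] [Field B] [Algebra κ E] [Algebra E B] in
theorem dl_diagM {Q : ℕ} (hN3 : N = 3 * Q) (hQ3 : 3 ∣ Q) (hQpos : 0 < Q) :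
    dl ρ N (diagM Q) = PowerSeries.expand 3 (by norm_num) (Dk κ) ∧
    dl ρ N (diagM (Q / 3)) = PowerSeries.expand 9 (by norm_num) (Dk κ) := by
  obtain ⟨Q', hQ'⟩ := hQ3
  have hQ3' : Q / 3 = Q' := by omega
  have hQ'pos : 0 < Q' := by omega
  have e1 : N / Q * 1 = 3 := by rw [hN3, Nat.mul_div_cancel _ hQpos]
  have e2 : N / Q' * 1 = 9 := by
    rw [hN3, hQ', show 3 * (3 * Q') = 9 * Q' by ring, Nat.mul_div_cancel _ hQ'pos]
  rw [hQ3']
  constructor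
  · unfold diagM
    rw [dl_upper ρ N odd_one hQpos (by rw [hN3, one_mul]; exact Dvd.intro_left _ rfl)
      (by rw [e1]; norm_num), mul_zero, pow_zero, rescale_one, RingHom.id_apply]
    exact expand_congr κ _ _ _ _ e1 _
  · unfold diagM
    rw [dl_upper ρ N odd_one hQ'pos (by rw [hN3, hQ', one_mul]; exact ⟨9, by ring⟩)
      (by rw [e2]; norm_num), mul_zero, pow_zero, rescale_one, RingHom.id_apply]
    exact expand_congr κ _ _ _ _ e2 _


omit [IsAlgClosed κ] in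
theorem coeff_vanish {Q s0 a0 b0 : ℕ} (hN3 : N = 3 * Q) (hN : Odd N)
    (hAQ : a0 ∣ 2 ^ s0 * Q) (hb : b0 < a0) (h : ∀ n, Even (b6 (a0 * n + b0)))
    {n : ℤ} (hn : n ≡ 24 * b0 + 5 [ZMOD ((2 ^ (s0 + 3) : ℕ) : ℤ)]) :
    (∑ l ∈ Finset.range Q, (((omU ρ N) ^ (-((24 * b0 + 5 : ℤ) * l)) : κˣ) : κ) *
      ((((omU ρ N) ^ l) ^ n : κˣ) : κ)) * (io (FF κ)).coeff n = 0 := by
  by_contra hcon
  have hFF : (io (FF κ)).coeff n ≠ 0 := right_ne_zero_of_mul hcon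
  have hsum := left_ne_zero_of_mul hcon
  have hnn : 0 ≤ n := by
    by_contra hneg
    exact hFF (coeff_io_neg _ (not_le.mp hneg))
  obtain ⟨k, rfl⟩ := Int.eq_ofNat_of_zero_le hnn
  rw [coeff_io] at hFF
  obtain ⟨m, hm, hb6⟩ := coeff_FF_ne_zero κ hFF
  rw [hb6] at hFF
  subst hm
  have hQodd : Odd Q := Odd.of_dvd_nat hN ⟨3, by rw [hN3, mul_comm]⟩
  -- rewrite the sum as a geometric sum
  have hgeo : ∑ l ∈ Finset.range Q, (((omU ρ N) ^ (-((24 * b0 + 5 : ℤ) * l)) : κˣ) : κ) *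
      ((((omU ρ N) ^ l) ^ (((24 * m + 5 : ℕ) : ℤ)) : κˣ) : κ)
      = ∑ l ∈ Finset.range Q, ((((omU ρ N) ^ (24 * ((m : ℤ) - b0)) : κˣ) : κ)) ^ l := by
    refine Finset.sum_congr rfl fun l _ => ?_
    rw [← Units.val_mul, ← Units.val_pow_eq_pow_val]
    congr 1
    rw [← zpow_natCast (omU ρ N) l, ← zpow_natCast ((omU ρ N) ^ (24 * ((m : ℤ) - b0))) l,
      ← zpow_mul, ← zpow_mul, ← zpow_add]
    congr 1
    push_cast
    ring
  rw [hgeo] at hsum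
  have hprimU : IsPrimitiveRoot (omU ρ N) N := by
    rw [← IsPrimitiveRoot.coe_units_iff]
    exact om_prim N ρ hN
  by_cases hz : (omU ρ N) ^ (24 * ((m : ℤ) - b0)) = 1
  · rw [hprimU.zpow_eq_one_iff_dvd] at hz
    have hcopQ : IsCoprime ((Q : ℕ) : ℤ) (8 : ℤ) := by
      rw [Int.isCoprime_iff_gcd_eq_one]
      have : Nat.Coprime Q 8 := by
        rw [show (8 : ℕ) = 2 ^ 3 by norm_num]
        exact Nat.Coprime.pow_right 3 (Nat.coprime_two_right.mpr hQodd)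
      exact_mod_cast this
    have h1 : ((Q : ℕ) : ℤ) ∣ (m : ℤ) - b0 := by
      have h2 : (3 : ℤ) * ((Q : ℕ) : ℤ) ∣ 3 * (8 * ((m : ℤ) - b0)) := by
        have h3 : ((N : ℕ) : ℤ) = 3 * ((Q : ℕ) : ℤ) := by rw [hN3]; push_cast; ring
        rw [← h3]
        convert hz using 1
        ring
      have h4 : ((Q : ℕ) : ℤ) ∣ 8 * ((m : ℤ) - b0) :=
        (mul_dvd_mul_iff_left (by norm_num : (3 : ℤ) ≠ 0)).mp h2
      exact hcopQ.dvd_of_dvd_mul_left h4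
    have h5 : ((2 ^ s0 : ℕ) : ℤ) ∣ (m : ℤ) - b0 := by
      have h6 := hn.symm.dvd
      have h7 : ((2 ^ (s0 + 3) : ℕ) : ℤ) = 8 * ((2 ^ s0 : ℕ) : ℤ) := by
        push_cast
        rw [pow_add]
        ring
      rw [h7] at h6
      have h8 : (8 : ℤ) * ((2 ^ s0 : ℕ) : ℤ) ∣ 8 * (3 * ((m : ℤ) - b0)) := by
        convert h6 using 1
        push_cast
        ring
      have h9 := (mul_dvd_mul_iff_left (by norm_num : (8 : ℤ) ≠ 0)).mp h8
      have hcop : IsCoprime ((2 ^ s0 : ℕ) : ℤ) (3 : ℤ) := by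
        rw [Int.isCoprime_iff_gcd_eq_one]
        have : Nat.Coprime (2 ^ s0) 3 := Nat.Coprime.pow_left s0 (by norm_num)
        exact_mod_cast this
      exact hcop.dvd_of_dvd_mul_left h9
    have hcop2 : IsCoprime ((2 ^ s0 : ℕ) : ℤ) ((Q : ℕ) : ℤ) := by
      rw [Int.isCoprime_iff_gcd_eq_one]
      have : Nat.Coprime (2 ^ s0) Q := Nat.Coprime.pow_left s0 (Nat.coprime_two_left.mpr hQodd)
      exact_mod_cast this
    have h10 : ((a0 : ℕ) : ℤ) ∣ (m : ℤ) - b0 := by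
      have h11 := hcop2.mul_dvd h5 h1
      refine dvd_trans ?_ h11
      exact_mod_cast hAQ
    have h12 : b0 ≡ m [MOD a0] := (Nat.modEq_iff_dvd).mpr h10
    have h13 : m % a0 = b0 := by
      rw [← h12, Nat.mod_eq_of_lt hb]
    have h14 := h (m / a0)
    have h15 : a0 * (m / a0) + b0 = m := by
      conv_rhs => rw [← Nat.div_add_mod m a0, h13]
    rw [h15] at h14
    apply hFF
    obtain ⟨r, hr⟩ := h14
    rw [hr, ← two_mul]
    have h2 : ((2 : ℕ) : κ) = 0 := CharP.cast_eq_zero κ 2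
    push_cast at h2 ⊢
    rw [h2, zero_mul]
  · apply hsum
    have hne : (((omU ρ N) ^ (24 * ((m : ℤ) - b0)) : κˣ) : κ) - 1 ≠ 0 := by
      rw [sub_ne_zero]
      intro h1
      exact hz (Units.ext (by rw [h1, Units.val_one]))
    have hpow : ((((omU ρ N) ^ (24 * ((m : ℤ) - b0)) : κˣ) : κ)) ^ Q = 1 := by
      rw [← Units.val_pow_eq_pow_val, ← zpow_natCast, ← zpow_mul]
      have h1 : 24 * ((m : ℤ) - b0) * ((Q : ℕ) : ℤ) = ((N : ℕ) : ℤ) * (8 * ((m : ℤ) - b0)) := by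
        rw [hN3]
        push_cast
        ring
      rw [h1, zpow_mul, zpow_natCast, omU_pow, one_zpow, Units.val_one]
    have hgs := geom_sum_mul ((((omU ρ N) ^ (24 * ((m : ℤ) - b0)) : κˣ) : κ)) Q
    rw [hpow, sub_self] at hgs
    rcases mul_eq_zero.mp hgs with h1 | h1
    · exact h1
    · exact absurd h1 hne


variable [IsScalarTower E B A] [IsAlgClosure B A]

include g hρ A in
variable (ρ hρ A) in
theorem GD.final {Q s0 a0 b0 : ℕ} (hN3 : N = 3 * Q) (hN : Odd N) (hQ3 : 3 ∣ Q)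
    (hAQ : a0 ∣ 2 ^ s0 * Q) (hb : b0 < a0)
    (hsq : (Q : ℤ) ^ 2 ≡ -3 * (24 * b0 + 5) [ZMOD 2 ^ (s0 + 3)])
    (h : ∀ n, Even (b6 (a0 * n + b0))) : False := by
  classical
  have hinf : Infinite κ := IsAlgClosed.instInfinite
  have hQpos : 0 < Q := by
    rcases Nat.eq_zero_or_pos Q with h0 | h0
    · rw [h0] at hN3; exact absurd hN3 (NeZero.ne N)
    · exact h0
  have hQN : Q ∣ N := by rw [hN3]; exact Dvd.intro_left _ rfl
  have hdetQ : 0 < (diagM Q).det ∧ (diagM Q).det ∣ Q := by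
    rw [det_diagM]
    exact ⟨by positivity, dvd_rfl⟩
  have hdetQ' : 0 < (diagM (Q / 3)).det ∧ (diagM (Q / 3)).det ∣ Q := by
    rw [det_diagM]
    obtain ⟨Q', hQ'⟩ := hQ3
    have hQ3' : Q / 3 = Q' := by omega
    rw [hQ3', hQ']
    refine ⟨by omega, ?_⟩
    push_cast
    exact Dvd.intro_left _ rfl
  -- rotation and `u`
  obtain ⟨T, hT⟩ := g.rot_lift (A := A) (omU ρ N) (omU_pow ρ)
  have hTact : g.Acts ρ hρ T ModularGroup.T := g.acts_rot hN T hT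
  obtain ⟨u, huL, hu0, huord, hucls, huT⟩ := g.exists_u (A := A) (j := s0 + 2) (by omega)
    (omU ρ N) (omU_pow ρ) T hT
  obtain ⟨σ, γ, hσ, hσfix, hσcop⟩ := g.exists_good (A := A) hN hQpos.ne' hQN T hTact
  have hσu : σ (algebraMap B A u) = algebraMap B A u := hσfix _ huT
  have huodd : Odd (g.v u).order := by
    rw [huord]
    exact_mod_cast hN
  have hNodd : Odd ((N : ℕ) : ℤ) := by exact_mod_cast hN
  -- `F0`
  have hFFK : (io (FF κ)) ^ 3 * g.v (g.dB ρ hρ (diagM Q)) = (g.v (g.dB ρ hρ (diagM (Q / 3)))) ^ 2 := by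
    rw [g.v_dB, g.v_dB, (dl_diagM (ρ := ρ) hN3 hQ3 hQpos).1, (dl_diagM (ρ := ρ) hN3 hQ3 hQpos).2,
      ← map_pow, ← map_pow, ← map_mul]
    congr 1
    exact FF_cube κ
  have hQNdvd : 0 < (diagM Q).det ∧ (diagM Q).det ∣ N := by
    refine ⟨hdetQ.1, hdetQ.2.trans ?_⟩
    exact_mod_cast hQN
  have hdB1 : g.dB ρ hρ (diagM Q) ≠ 0 := by
    intro h0
    apply (order_dl ρ hN hQNdvd).1
    rw [← g.v_dB ρ hρ, h0, map_zero]
  obtain ⟨F0, hF0⟩ := g.hB2 (io (FF κ)) (Polynomial.C (g.dB ρ hρ (diagM Q)) * Polynomial.X ^ 3 -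
      Polynomial.C ((g.dB ρ hρ (diagM (Q / 3))) ^ 2)) (by
    intro h0
    have := congrArg (fun p => Polynomial.coeff p 3) h0
    simp only [Polynomial.coeff_sub, Polynomial.coeff_C_mul, Polynomial.coeff_X_pow,
      Polynomial.coeff_C, Polynomial.coeff_zero] at this
    simp at this
    exact hdB1 this) (by
    rw [Polynomial.eval₂_sub, Polynomial.eval₂_mul, Polynomial.eval₂_X_pow, Polynomial.eval₂_C,
      Polynomial.eval₂_C, map_pow, ← hFFK]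
    ring)
  have hF0eq : F0 ^ 3 * g.dB ρ hρ (diagM Q) = (g.dB ρ hρ (diagM (Q / 3))) ^ 2 := by
    apply g.v_inj
    rw [map_mul, map_pow, map_pow, hF0, hFFK]
  have hF0L : F0 ∈ LL E B A := by
    intro τ
    obtain ⟨δ, hδ⟩ := g.act ρ hρ τ
    obtain ⟨y, hy, _⟩ := g.conj_F hN3 hN hdetQ hdetQ' hF0eq hδ
    exact ⟨y, hy⟩
  -- `F l`
  have hFex : ∀ l : ℕ, ∃ y : B, (T ^ l) (algebraMap B A F0) = algebraMap B A y ∧
      g.v y = rot ((omU ρ N) ^ l) (io (FF κ)) := by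
    intro l
    induction l with
    | zero =>
      refine ⟨F0, rfl, ?_⟩
      rw [hF0]
      ext n
      rw [coeff_rot]
      simp
    | succ l ih =>
      obtain ⟨y, hy1, hy2⟩ := ih
      obtain ⟨z, hz1, hz2⟩ := hT y
      refine ⟨z, ?_, ?_⟩
      · rw [pow_succ', AlgEquiv.mul_apply, hy1, hz1]
      · rw [hz2, hy2]
        ext n
        rw [coeff_rot, coeff_rot, coeff_rot, ← mul_assoc, ← Units.val_mul]
        congr 2
        rw [pow_succ', mul_zpow]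
  choose F hF1 hF2 using hFex
  have hFL : ∀ l, F l ∈ LL E B A := fun l => LL_conj hF0L (T ^ l) (hF1 l)
  -- `y l`
  have hyex : ∀ l : ℕ, ∃ y : B, σ (algebraMap B A (F l)) = algebraMap B A y ∧
      y ^ 3 * g.dB ρ hρ (diagM Q * ((ModularGroup.T ^ l * γ : SL(2, ℤ)) : Matrix (Fin 2) (Fin 2) ℤ))
        = (g.dB ρ hρ (diagM (Q / 3) *
          ((ModularGroup.T ^ l * γ : SL(2, ℤ)) : Matrix (Fin 2) (Fin 2) ℤ))) ^ 2 := by
    intro l
    have hact : g.Acts ρ hρ (σ * T ^ l) (ModularGroup.T ^ l * γ) := (hTact.pow l).mul hσ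
    obtain ⟨y, hy1, hy2⟩ := g.conj_F hN3 hN hdetQ hdetQ' hF0eq hact
    refine ⟨y, ?_, hy2⟩
    rw [← hF1, ← hy1]
    rfl
  choose Y hY1 hY2 using hyex
  have hYord := fun l => g.order_y hN3 hN hQ3 l γ (hY2 l)
  -- `R`
  let c : ℕ → κ := fun l => (((omU ρ N) ^ (-((24 * b0 + 5 : ℤ) * l)) : κˣ) : κ)
  have hcne : ∀ l, c l ≠ 0 := fun l => Units.ne_zero _
  let R : B := ∑ l ∈ Finset.range Q, algebraMap E B (algebraMap κ E (c l)) * F l
  have hRL : R ∈ LL E B A := by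
    refine sum_mem fun l _ => mul_mem (LL_alg _) (hFL l)
  have hcoeffsum : ∀ (G : ℕ → B) (n : ℤ),
      (g.v (∑ l ∈ Finset.range Q, algebraMap E B (algebraMap κ E (c l)) * G l)).coeff n
        = ∑ l ∈ Finset.range Q, c l * (g.v (G l)).coeff n := by
    intro G n
    rw [map_sum, HahnSeries.coeff_sum]
    exact Finset.sum_congr rfl fun l _ => g.coeff_smulK _ _ _
  have hR0 : ∀ n : ℤ, n ≡ 24 * b0 + 5 [ZMOD ((2 ^ (s0 + 3) : ℕ) : ℤ)] → (g.v R).coeff n = 0 := by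
    intro n hn
    rw [hcoeffsum]
    rw [← coeff_vanish (ρ := ρ) hN3 hN hAQ hb h hn, Finset.sum_mul]
    refine Finset.sum_congr rfl fun l _ => ?_
    rw [hF2, coeff_rot, mul_assoc]
  obtain ⟨y, hy1, hy2⟩ := g.no_class hN huL hu0 huodd (s := s0 + 3) (c := N) hNodd hucls hRL hR0 σ hσu
  have hyY : y = ∑ l ∈ Finset.range Q, algebraMap E B (algebraMap κ E (c l)) * Y l := by
    apply (algebraMap B A).injective
    rw [← hy1, map_sum, map_sum, map_sum]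
    refine Finset.sum_congr rfl fun l _ => ?_
    rw [map_mul, map_mul, map_mul, hY1, ← IsScalarTower.algebraMap_apply E B A, AlgEquiv.commutes]
  -- the special `l0`
  have hcopγ : IsCoprime (γ 1 0) ((Q : ℕ) : ℤ) := Int.isCoprime_iff_gcd_eq_one.mpr hσcop
  obtain ⟨l0, hl0Q, hl0⟩ : ∃ l0 : ℕ, l0 < Q ∧ ((Q : ℕ) : ℤ) ∣ γ 0 0 + l0 * γ 1 0 := by
    obtain ⟨x, z, hxz⟩ := hcopγ
    refine ⟨((-(γ 0 0) * x) % ((Q : ℕ) : ℤ)).toNat, ?_, ?_⟩
    · have h1 := Int.emod_lt_of_pos (-(γ 0 0) * x) (by exact_mod_cast hQpos : (0 : ℤ) < ((Q : ℕ) : ℤ))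
      have h2 := Int.emod_nonneg (-(γ 0 0) * x) (by exact_mod_cast hQpos.ne' : ((Q : ℕ) : ℤ) ≠ 0)
      omega
    · have h2 := Int.emod_nonneg (-(γ 0 0) * x) (by exact_mod_cast hQpos.ne' : ((Q : ℕ) : ℤ) ≠ 0)
      rw [Int.toNat_of_nonneg h2]
      have h3 := Int.emod_def (-(γ 0 0) * x) ((Q : ℕ) : ℤ)
      rw [h3]
      refine ⟨γ 0 0 * z - (-(γ 0 0) * x / ((Q : ℕ) : ℤ)) * γ 1 0, ?_⟩
      linear_combination (-(γ 0 0)) * hxz
  have huniq : ∀ l : ℕ, l < Q → l ≠ l0 → ¬ ((Q : ℕ) : ℤ) ∣ γ 0 0 + l * γ 1 0 := by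
    intro l hl hne hdvd
    apply hne
    have h1 : ((Q : ℕ) : ℤ) ∣ γ 1 0 * ((l : ℤ) - l0) := by
      have h0 : γ 1 0 * ((l : ℤ) - l0) = (γ 0 0 + l * γ 1 0) - (γ 0 0 + l0 * γ 1 0) := by ring
      rw [h0]
      exact dvd_sub hdvd hl0
    have h2 : ((Q : ℕ) : ℤ) ∣ (l : ℤ) - l0 := hcopγ.symm.dvd_of_dvd_mul_left h1
    have h3 : l0 ≡ l [MOD Q] := (Nat.modEq_iff_dvd).mpr h2
    exact (Nat.ModEq.eq_of_lt_of_lt h3 hl0Q hl).symm
  have hgcd0 : Int.gcd (γ 0 0 + l0 * γ 1 0) Q = Q := by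
    rw [Int.gcd_def]
    have h1 := Int.natAbs_dvd_natAbs.mpr hl0
    rw [Nat.gcd_eq_right h1, Int.natAbs_natCast]
  have hord0 := (hYord l0).2
  rw [hgcd0, order_eq hQ3] at hord0
  have hordlt : ∀ l : ℕ, l < Q → l ≠ l0 → (g.v (Y l0)).order < (g.v (Y l)).order := by
    intro l hl hne
    have hgne : Int.gcd (γ 0 0 + l * γ 1 0) Q ≠ Q := by
      intro hg
      apply huniq l hl hne
      have := Int.gcd_dvd_left (γ 0 0 + l * γ 1 0) ((Q : ℕ) : ℤ)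
      rwa [hg] at this
    have hgd : Int.gcd (γ 0 0 + l * γ 1 0) Q ∣ Q := by
      have := Int.gcd_dvd_right (γ 0 0 + l * γ 1 0) ((Q : ℕ) : ℤ)
      exact_mod_cast this
    have h1 := order_lt hQpos hQ3 hgd hgne
    have h2 := (hYord l).2
    linarith
  set n1 := (g.v (Y l0)).order with hn1
  have hcoef : (g.v y).coeff n1 = c l0 * (g.v (Y l0)).coeff n1 := by
    rw [hyY, hcoeffsum, Finset.sum_eq_single l0]
    · intro l hl hne
      rw [HahnSeries.coeff_eq_zero_of_lt_order (hordlt l (Finset.mem_range.mp hl) hne), mul_zero]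
    · intro hnot
      exact absurd (Finset.mem_range.mpr hl0Q) hnot
  have hne : (g.v y).coeff n1 ≠ 0 := by
    rw [hcoef]
    refine mul_ne_zero (hcne l0) ?_
    rw [hn1]
    exact (mt HahnSeries.coeff_order_eq_zero.mp (hYord l0).1)
  apply hne
  apply hy2
  -- congruence
  have h3n : (3 : ℤ) * n1 ≡ 3 * (24 * b0 + 5) [ZMOD ((2 ^ (s0 + 3) : ℕ) : ℤ)] := by
    rw [hord0]
    push_cast
    have := hsq.neg
    convert this using 1
    ring
  have hg3 : Int.gcd ((2 ^ (s0 + 3) : ℕ) : ℤ) 3 = 1 := by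
    have : Nat.Coprime (2 ^ (s0 + 3)) 3 := Nat.Coprime.pow_left _ (by norm_num)
    exact_mod_cast this
  have h4 := Int.ModEq.cancel_left_div_gcd (by positivity) h3n
  rw [hg3] at h4
  simpa using h4

end

/-- **Main theorem**, contradiction form. -/
theorem main_false {a0 b0 : ℕ} (hb : b0 < a0) (h : ∀ n, Even (b6 (a0 * n + b0))) : False := by
  obtain ⟨s0, Q, hQodd, hQ3, hQpos, hAQ, hsq⟩ := exists_params a0 b0 (by omega)
  have hN : Odd (3 * Q) := (by decide : Odd 3).mul hQodd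
  have hNZ : NeZero (3 * Q) := ⟨by omega⟩
  obtain ⟨κ, _, _, ρ, hρ, _⟩ := exists_kappa
  obtain ⟨E, B, _, _, _, _, _, ⟨g⟩⟩ := exists_GD κ (3 * Q)
  exact g.final ρ hρ (AlgebraicClosure B) rfl hN hQ3 hAQ hb hsq h

theorem b6_odd_infinite {a : ℕ} (ha : 0 < a) (b : ℕ) : {n : ℕ | Odd (b6 (a * n + b))}.Infinite := by
  rw [Set.infinite_iff_frequently_cofinite, Nat.cofinite_eq_atTop, Filter.frequently_atTop]
  intro k
  by_contra hcon
  push Not at hcon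
  -- `a * n + b` with `n ≥ k`; use modulus `a * (b + a * k + 1)`
  refine main_false (a0 := a * (b + a * k + 1)) (b0 := a * k + b) ?_ ?_
  · have h1 : 1 * (b + a * k + 1) ≤ a * (b + a * k + 1) := Nat.mul_le_mul_right _ ha
    linarith
  · intro n
    have := hcon (k + (b + a * k + 1) * n) (by omega)
    rw [Set.mem_ofPred_eq, Nat.not_odd_iff_even] at this
    convert this using 2
    ring

end SixReg
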